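import Pool.Agent.Lib.MP_3e27e0_al.LC.Prod

/-!
# Project LC: bounded elements of an envelope, from a system of positive functions
-/

set_option autoImplicit false

open Topology

open scoped Pointwise

namespace Pool.Agent.Lib.MP_3e27e0_al.LC

section Basic

variable {G : Type*} [Group G] [TopologicalSpace G]

/-- Elements with relatively compact conjugacy class. -/
def Bd (b : G) : Prop := ∃ D : Set G, IsCompact D ∧ ∀ g : G, g * b * g⁻¹ ∈ D

theorem Bd.conj {b : G} (hb : Bd b) (g : G) : Bd (g * b * g⁻¹) := by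
  obtain ⟨D, hD, h⟩ := hb
  refine ⟨D, hD, fun k => ?_⟩
  have h1 := h (k * g)
  rw [mul_inv_rev] at h1
  have h2 : k * g * b * (g⁻¹ * k⁻¹) = k * (g * b * g⁻¹) * k⁻¹ := by group
  rwa [h2] at h1

theorem Bd.inv [IsTopologicalGroup G] {b : G} (hb : Bd b) : Bd b⁻¹ := by
  obtain ⟨D, hD, h⟩ := hb
  refine ⟨D⁻¹, hD.inv, fun k => ?_⟩
  have h1 := Set.inv_mem_inv.2 (h k)
  have h2 : (k * b * k⁻¹)⁻¹ = k * b⁻¹ * k⁻¹ := by group
  rwa [h2] at h1

variable {H : Set (G → ℝ)}

theorem Sys.dom (hS : Sys H) {b : G} (hb : Bd b) : ∃ C : ℝ, 0 < C ∧ ∀ h ∈ H, ∀ x,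
    h (b * x) ≤ C * h x := by
  obtain ⟨D, hD, hbD⟩ := hb
  obtain ⟨C, hC⟩ := hS.bdd D hD
  refine ⟨max C 1, by positivity, fun h hh x => ?_⟩
  have h1 := hC h hh x (x⁻¹ * b * x⁻¹⁻¹) (hbD x⁻¹)
  have h2 : x * (x⁻¹ * b * x⁻¹⁻¹) = b * x := by group
  rw [h2] at h1
  exact h1.trans (mul_le_mul_of_nonneg_right (le_max_left _ _) (hS.pos h hh x).le)

/-- Extreme functions are multiplicative along bounded elements. -/
theorem Sys.ext_mul (hS : Sys H) {h : G → ℝ} (hh : h ∈ Set.extremePoints ℝ H) {b : G} (hb : Bd b)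
    (x : G) : h (b * x) = h b * h x := by
  obtain ⟨C0, hC0, hdom⟩ := hS.dom hb
  have hK : h ∈ H := hh.1
  have hp := hS.pos h hK b
  set k : G → ℝ := fun x => (h b)⁻¹ * h (b * x) with hk
  have hkK : k ∈ H := hS.trans h hK b
  set C : ℝ := (h b)⁻¹ * C0 with hC
  have hCp : 0 < C := by positivity
  have hkC : ∀ x, k x ≤ C * h x := by
    intro y
    have h3 := hdom h hK y
    calc k y = (h b)⁻¹ * h (b * y) := rfl
      _ ≤ (h b)⁻¹ * (C0 * h y) := mul_le_mul_of_nonneg_left h3 (inv_nonneg.2 hp.le)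
      _ = C * h y := by rw [hC]; ring
  set t : ℝ := (C + 1)⁻¹ with ht
  have ht0 : 0 < t := by positivity
  have ht1 : t < 1 := by
    rw [ht]
    exact inv_lt_one_of_one_lt₀ (by linarith)
  have htC : t * C ≤ 1 := by
    rw [ht, inv_mul_le_iff₀ (by linarith)]
    linarith
  have h1t : 0 < 1 - t := by linarith
  set m : G → ℝ := fun x => (1 - t)⁻¹ * (h x - t * k x) with hm
  have hmK : m ∈ H := by
    refine hS.sub h hK k hkK t ht0 ht1 fun y => ?_
    have h4 := mul_le_mul_of_nonneg_left (hkC y) ht0.le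
    have h5 := mul_le_mul_of_nonneg_right htC (hS.pos h hK y).le
    linarith
  have hseg : h ∈ openSegment ℝ k m := by
    refine ⟨t, 1 - t, ht0, h1t, by ring, ?_⟩
    funext y
    have h7 : (1 - t) * ((1 - t)⁻¹ * (h y - t * k y)) = h y - t * k y := by
      rw [← mul_assoc, mul_inv_cancel₀ h1t.ne', one_mul]
    change t * k y + (1 - t) * ((1 - t)⁻¹ * (h y - t * k y)) = h y
    rw [h7]
    ring
  have hke : k = h := hh.2 hkK hmK hseg
  have h6 : k x = h x := congrFun hke x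
  rw [hk] at h6
  simp only at h6
  rw [← h6, ← mul_assoc, mul_inv_cancel₀ hp.ne', one_mul]

/-- Krein - Milman. -/
theorem Sys.inv_of_ext (hS : Sys H) (g : G)
    (hg : ∀ h ∈ Set.extremePoints ℝ H, ∀ x, h (g * x) = h x) {h : G → ℝ} (hh : h ∈ H) (x : G) :
    h (g * x) = h x := by
  have hKM := closure_convexHull_extremePoints hS.cpt hS.cvx
  have hcl : IsClosed {k : G → ℝ | k (g * x) = k x} :=
    isClosed_eq (continuous_apply _) (continuous_apply _)
  have hcv : Convex ℝ {k : G → ℝ | k (g * x) = k x} := by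
    intro k hk m hm s t _ _ _
    simp only [Set.mem_ofPred_eq, Pi.add_apply, Pi.smul_apply] at hk hm ⊢
    rw [hk, hm]
  have h1 : closure (convexHull ℝ (Set.extremePoints ℝ H)) ⊆ {k : G → ℝ | k (g * x) = k x} :=
    closure_minimal (convexHull_min (fun k hk => hg k hk x) hcv) hcl
  rw [hKM] at h1
  exact h1 hh

/-- The elements which fix all functions of the system. -/
def NN (hS : Sys H) : Subgroup G where
  carrier := {g | ∀ h ∈ H, ∀ x, h (g * x) = h x}
  one_mem' := by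
    intro h _ x
    rw [one_mul]
  mul_mem' := by
    intro a b ha hb h hh x
    rw [mul_assoc, ha h hh, hb h hh]
  inv_mem' := by
    intro a ha h hh x
    rw [← ha h hh (a⁻¹ * x), mul_inv_cancel_left]

theorem mem_NN (hS : Sys H) {g : G} : g ∈ NN hS ↔ ∀ h ∈ H, ∀ x, h (g * x) = h x := Iff.rfl

instance NN_normal (hS : Sys H) : (NN hS).Normal := by
  refine ⟨fun n hn g h hh x => ?_⟩
  have h1 := hn _ (hS.trans h hh g) (g⁻¹ * x)
  have h2 := mul_left_cancel₀ (inv_ne_zero (hS.pos h hh g).ne') h1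
  rw [mul_inv_cancel_left] at h2
  rw [← h2]
  congr 1
  group

theorem NN_closed [IsTopologicalGroup G] (hS : Sys H) : IsClosed ((NN hS : Subgroup G) : Set G) := by
  have e : ((NN hS : Subgroup G) : Set G) = ⋂ h : H, ⋂ x : G, {g | (h : G → ℝ) (g * x) =
      (h : G → ℝ) x} := by
    ext g
    rw [SetLike.mem_coe, mem_NN]
    simp only [Set.mem_iInter, Set.mem_ofPred_eq, Subtype.forall]
  rw [e]
  refine isClosed_iInter fun h => isClosed_iInter fun x => isClosed_eq ?_ continuous_const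
  exact (hS.cont h h.2).comp (continuous_mul_const x)

/-- The multiplicative functions of the system. -/
def EE (H : Set (G → ℝ)) : Set (G → ℝ) := {h | h ∈ H ∧ ∀ b, Bd b → ∀ x, h (b * x) = h b * h x}

theorem EE_trans (hS : Sys H) {h : G → ℝ} (hh : h ∈ EE H) (g : G) {b : G} (hb : Bd b) :
    ∃ k ∈ EE H, ∀ b, Bd b → h (g * b * g⁻¹) = k b := by
  have hp := hS.pos h hh.1 g
  have key : ∀ b, Bd b → (h g)⁻¹ * h (g * b) = h (g * b * g⁻¹) := by
    intro b hb
    have h1 := hh.2 (g * b * g⁻¹) (hb.conj g) g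
    have h2 : g * b * g⁻¹ * g = g * b := by group
    rw [h2] at h1
    rw [h1, mul_comm (h (g * b * g⁻¹)), ← mul_assoc, inv_mul_cancel₀ hp.ne', one_mul]
  refine ⟨fun x => (h g)⁻¹ * h (g * x), ⟨hS.trans h hh.1 g, fun b hb x => ?_⟩, fun b hb =>
    (key b hb).symm⟩
  change (h g)⁻¹ * h (g * (b * x)) = (h g)⁻¹ * h (g * b) * ((h g)⁻¹ * h (g * x))
  rw [key b hb]
  have h1 := hh.2 (g * b * g⁻¹) (hb.conj g) (g * x)
  have h2 : g * b * g⁻¹ * (g * x) = g * (b * x) := by group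
  rw [h2] at h1
  rw [h1]
  ring

/-- `b` and `c` are `ε`-close. -/
def Near (H : Set (G → ℝ)) (ε : ℝ) (b c : G) : Prop := ∀ h ∈ EE H, |Real.log (h b) - Real.log (h c)| ≤ ε

theorem Near.symm {ε : ℝ} {b c : G} (h : Near H ε b c) : Near H ε c b := by
  intro k hk
  rw [abs_sub_comm]
  exact h k hk

theorem Near.trans {ε δ : ℝ} {a b c : G} (h : Near H ε a b) (h' : Near H δ b c) :
    Near H (ε + δ) a c := by
  intro k hk
  exact (abs_sub_le _ _ _).trans (add_le_add (h k hk) (h' k hk))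

theorem Near.conj (hS : Sys H) {ε : ℝ} {b c : G} (hb : Bd b) (hc : Bd c) (h : Near H ε b c) (g : G) :
    Near H ε (g * b * g⁻¹) (g * c * g⁻¹) := by
  intro k hk
  obtain ⟨m, hm, hkm⟩ := EE_trans hS hk g hb
  rw [hkm b hb, hkm c hc]
  exact h m hm

/-- Elements which differ by a small element are close. -/
theorem near_of_small (hS : Sys H) {ε : ℝ} (hε : 0 < ε) : ∃ V ∈ 𝓝 (1 : G), ∀ b c : G,
    c⁻¹ * b ∈ V → b⁻¹ * c ∈ V → Near H ε b c := by
  obtain ⟨V, hV, h⟩ := hS.har ε hε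
  refine ⟨V, hV, fun b c h1 h2 k hk => ?_⟩
  have hb := hS.pos k hk.1 b
  have hc := hS.pos k hk.1 c
  have h3 := h k hk.1 c _ h1
  have h4 := h k hk.1 b _ h2
  rw [mul_inv_cancel_left] at h3 h4
  have key : ∀ u v : ℝ, 0 < u → 0 < v → u ≤ (1 + ε) * v → Real.log u - Real.log v ≤ ε := by
    intro u v hu hv huv
    have h5 : Real.log u ≤ Real.log ((1 + ε) * v) := Real.log_le_log hu huv
    rw [Real.log_mul (by positivity) hv.ne'] at h5
    have h6 := Real.log_le_sub_one_of_pos (show 0 < 1 + ε by linarith)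
    linarith
  rw [abs_le]
  constructor
  · have := key _ _ hc hb h4
    linarith
  · exact key _ _ hb hc h3

/-- The functions separate modulo `NN`. -/
theorem NN_of_near (hS : Sys H) {b c : G} (hb : Bd b) (hc : Bd c)
    (h : ∀ ε : ℝ, 0 < ε → Near H ε c b) : c * b⁻¹ ∈ NN hS := by
  intro k hk x
  refine hS.inv_of_ext (c * b⁻¹) (fun m hm y => ?_) hk x
  have hE : m ∈ EE H := ⟨hm.1, fun b hb x => hS.ext_mul hm hb x⟩
  have h1 : Real.log (m c) = Real.log (m b) := by
    have h2 : |Real.log (m c) - Real.log (m b)| ≤ 0 := le_of_forall_pos_le_add fun ε hε => by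
      rw [zero_add]
      exact h ε hε m hE
    exact sub_eq_zero.1 (abs_eq_zero.1 (le_antisymm h2 (abs_nonneg _)))
  have h2 : m c = m b := Real.log_injOn_pos (hS.pos m hm.1 c) (hS.pos m hm.1 b) h1
  have h3 := hE.2 c hc (b⁻¹ * y)
  have h4 := hE.2 b hb (b⁻¹ * y)
  rw [mul_inv_cancel_left] at h4
  rw [mul_assoc, h3, h2, ← h4]

end Basic

end Pool.Agent.Lib.MP_3e27e0_al.LC
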