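import Pool.Agent.Lib.MP_3e27e0_al.LC.Abs

/-!
# Project LC: the commutators of the lattice act trivially on bounded elements
-/

set_option autoImplicit false

open Topology

open scoped Pointwise commutatorElement

namespace Pool.Agent.Lib.MP_3e27e0_al.LC

variable {G : Type*} [Group G] [TopologicalSpace G] {H : Set (G → ℝ)}

/-- The conjugacy class. -/
def Cj (b : G) : Set G := {c | ∃ g : G, c = g * b * g⁻¹}

theorem Cj.bd {b c : G} (hb : Bd b) (hc : c ∈ Cj b) : Bd c := by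
  obtain ⟨g, rfl⟩ := hc
  exact hb.conj g

theorem Cj.conj {b c : G} (hc : c ∈ Cj b) (g : G) : g * c * g⁻¹ ∈ Cj b := by
  obtain ⟨k, rfl⟩ := hc
  exact ⟨g * k, by group⟩

/-- The class of a bounded element is totally bounded. -/
theorem tot_bdd [IsTopologicalGroup G] (hS : Sys H) {b : G} (hb : Bd b) {ε : ℝ} (hε : 0 < ε) :
    ∃ (t : Finset G) (c : G → G), (∀ x ∈ Cj b, c x ∈ t) ∧
      ∀ x ∈ Cj b, ∀ y ∈ Cj b, c x = c y → Near H ε x y := by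
  classical
  obtain ⟨V, hV, hnear⟩ := near_of_small hS hε
  obtain ⟨D, hD, hbD⟩ := hb
  have hVi : V ∩ V⁻¹ ∈ 𝓝 (1 : G) := by
    refine Filter.inter_mem hV ?_
    have h1 : V ∈ 𝓝 ((1 : G)⁻¹) := by rwa [inv_one]
    exact continuous_inv.continuousAt h1
  obtain ⟨W, hW, hWV⟩ := exists_nhds_split_inv hVi
  obtain ⟨t, -, ht⟩ := hD.elim_nhds_subcover (fun x => {y : G | y⁻¹ * x ∈ W}) (by
    intro x _
    have h2 : ContinuousAt (fun y : G => y⁻¹ * x) x := by fun_prop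
    have h3 : W ∈ 𝓝 (x⁻¹ * x) := by rwa [inv_mul_cancel]
    exact h2 h3)
  have h1 : ∀ x : G, ∃ c : G, x ∈ Cj b → c ∈ t ∧ x⁻¹ * c ∈ W := by
    intro x
    by_cases hx : x ∈ Cj b
    · obtain ⟨g, rfl⟩ := hx
      have h2 := ht (hbD g)
      rw [Set.mem_iUnion₂] at h2
      obtain ⟨c, hc, hcW⟩ := h2
      exact ⟨c, fun _ => ⟨hc, hcW⟩⟩
    · exact ⟨1, fun h => absurd h hx⟩
  choose c hc using h1
  refine ⟨t, c, fun x hx => (hc x hx).1, fun x hx y hy hxy => ?_⟩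
  have h2 := hWV _ (hc x hx).2 _ (hc y hy).2
  rw [hxy, div_eq_mul_inv] at h2
  have h3 : x⁻¹ * c y * (y⁻¹ * c y)⁻¹ = x⁻¹ * y := by group
  rw [h3] at h2
  refine hnear x y ?_ h2.1
  have h4 : (x⁻¹ * y)⁻¹ ∈ V := h2.2
  rwa [mul_inv_rev, inv_inv] at h4

/-- The powers of an element act almost trivially infinitely often. -/
theorem rec_near [IsTopologicalGroup G] (hS : Sys H) {b : G} (hb : Bd b) (y : G) {ε : ℝ}
    (hε : 0 < ε) (m0 : ℕ) : ∃ m, m0 ≤ m ∧ ∀ x ∈ Cj b, Near H ε (y ^ m * x * (y ^ m)⁻¹) x := by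
  classical
  obtain ⟨t, c, hct, hnear⟩ := tot_bdd hS hb (show 0 < ε / 3 by linarith)
  have hρ : ∀ a : G, ∃ r : G, (∃ x ∈ Cj b, c x = a) → r ∈ Cj b ∧ c r = a := by
    intro a
    by_cases ha : ∃ x ∈ Cj b, c x = a
    · obtain ⟨x, hx, hxa⟩ := ha
      exact ⟨x, fun _ => ⟨hx, hxa⟩⟩
    · exact ⟨1, fun h => absurd h ha⟩
  choose ρ hρ using hρ
  let v : ℕ → t → Option t := fun k a =>
    if h : c (y ^ ((m0 + 1) * k) * ρ a * (y ^ ((m0 + 1) * k))⁻¹) ∈ t then some ⟨_, h⟩ else none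
  obtain ⟨k, k', hkk, hv⟩ := Finite.exists_ne_map_eq_of_infinite v
  have key : ∀ k k' : ℕ, k < k' → v k = v k' →
      ∃ m, m0 ≤ m ∧ ∀ x ∈ Cj b, Near H ε (y ^ m * x * (y ^ m)⁻¹) x := by
    intro k k' hlt hv
    refine ⟨(m0 + 1) * (k' - k), ?_, fun x hx => ?_⟩
    · have h1 : 1 ≤ k' - k := by omega
      calc m0 ≤ (m0 + 1) * 1 := by omega
        _ ≤ _ := Nat.mul_le_mul_left _ h1
    · set m := (m0 + 1) * (k' - k) with hm
      obtain ⟨hr, hcr⟩ := hρ (c x) ⟨x, hx, rfl⟩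
      set r := ρ (c x) with hrdef
      have hxt : c x ∈ t := hct x hx
      have h1 := congrFun hv ⟨c x, hxt⟩
      have h2 : c (y ^ ((m0 + 1) * k) * r * (y ^ ((m0 + 1) * k))⁻¹) ∈ t := hct _ (Cj.conj hr _)
      have h3 : c (y ^ ((m0 + 1) * k') * r * (y ^ ((m0 + 1) * k'))⁻¹) ∈ t := hct _ (Cj.conj hr _)
      simp only [v] at h1
      rw [dif_pos h2, dif_pos h3, Option.some_inj, Subtype.mk_eq_mk] at h1
      have h4 := hnear _ (Cj.conj hr _) _ (Cj.conj hr _) h1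
      have h5 := h4.conj hS (Cj.bd hb (Cj.conj hr _)) (Cj.bd hb (Cj.conj hr _))
        (y ^ ((m0 + 1) * k))⁻¹
      have e1 : (y ^ ((m0 + 1) * k))⁻¹ * (y ^ ((m0 + 1) * k) * r * (y ^ ((m0 + 1) * k))⁻¹) *
          (y ^ ((m0 + 1) * k))⁻¹⁻¹ = r := by group
      have e2 : (y ^ ((m0 + 1) * k))⁻¹ * (y ^ ((m0 + 1) * k') * r * (y ^ ((m0 + 1) * k'))⁻¹) *
          (y ^ ((m0 + 1) * k))⁻¹⁻¹ = y ^ m * r * (y ^ m)⁻¹ := by
        have e3 : y ^ ((m0 + 1) * k') = y ^ ((m0 + 1) * k) * y ^ m := by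
          rw [← pow_add, hm, ← Nat.mul_add, Nat.add_sub_cancel' hlt.le]
        rw [e3]
        group
      rw [e1, e2] at h5
      have h6 : Near H (ε / 3) x r := hnear x hx r hr hcr.symm
      have h7 := h6.conj hS (Cj.bd hb hx) (Cj.bd hb hr) (y ^ m)
      have h8 := (h7.trans h5.symm).trans h6.symm
      have e4 : ε / 3 + ε / 3 + ε / 3 = ε := by ring
      rw [e4] at h8
      exact h8
  rcases lt_or_gt_of_ne hkk with h | h
  · exact key k k' h hv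
  · exact key k' k h hv.symm

/-- Commutators of displaced elements fix bounded elements modulo `NN`. -/
theorem comm_NN [IsTopologicalGroup G] (hS : Sys H) {b : G} (hb : Bd b) {g h y : G} {m0 : ℕ}
    (hd : ∀ m, m0 ≤ m → (y ^ m * h * (y ^ m)⁻¹) * g = g * (y ^ m * h * (y ^ m)⁻¹)) :
    ⁅g, h⁆ * b * ⁅g, h⁆⁻¹ * b⁻¹ ∈ NN hS := by
  have hself : b ∈ Cj b := ⟨1, by simp⟩
  have hbc : Bd (⁅g, h⁆ * b * ⁅g, h⁆⁻¹) := hb.conj _
  refine NN_of_near hS hb hbc fun ε hε => ?_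
  obtain ⟨m, hm, hrec⟩ := rec_near hS hb y (show 0 < ε / 4 by linarith) m0
  have hcom := hd m hm
  set hm' := y ^ m * h * (y ^ m)⁻¹ with hhm
  have claim : ∀ B ∈ Cj b, Near H (ε / 4 + ε / 4) (hm' * B * hm'⁻¹) (h * B * h⁻¹) := by
    intro B hB
    have hB1 : (y ^ m)⁻¹ * B * (y ^ m)⁻¹⁻¹ ∈ Cj b := Cj.conj hB _
    set B1 := (y ^ m)⁻¹ * B * (y ^ m)⁻¹⁻¹ with hB1d
    have h1 := hrec B1 hB1
    have e1 : y ^ m * B1 * (y ^ m)⁻¹ = B := by rw [hB1d]; group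
    rw [e1] at h1
    have h2 := h1.conj hS (Cj.bd hb hB) (Cj.bd hb hB1) h
    have h3 := hrec (h * B1 * h⁻¹) (Cj.conj hB1 h)
    have e2 : y ^ m * (h * B1 * h⁻¹) * (y ^ m)⁻¹ = hm' * B * hm'⁻¹ := by
      rw [hB1d, hhm]; group
    rw [e2] at h3
    exact h3.trans h2.symm
  set B := (h * g)⁻¹ * b * (h * g)⁻¹⁻¹ with hBd
  have hB : B ∈ Cj b := Cj.conj hself _
  have e1 : ⁅g, h⁆ * b * ⁅g, h⁆⁻¹ = g * (h * B * h⁻¹) * g⁻¹ := by
    rw [hBd, commutatorElement_def]; group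
  have e2 : b = h * (g * B * g⁻¹) * h⁻¹ := by rw [hBd]; group
  have h1 := (claim B hB).conj hS (Cj.bd hb (Cj.conj hB _)) (Cj.bd hb (Cj.conj hB _)) g
  have h2 := claim (g * B * g⁻¹) (Cj.conj hB g)
  have e3 : g * (hm' * B * hm'⁻¹) * g⁻¹ = hm' * (g * B * g⁻¹) * hm'⁻¹ := by
    have e4 : g * hm' = hm' * g := hcom.symm
    have e5 : hm'⁻¹ * g⁻¹ = g⁻¹ * hm'⁻¹ := by rw [← mul_inv_rev, ← mul_inv_rev, e4]
    calc g * (hm' * B * hm'⁻¹) * g⁻¹ = (g * hm') * B * (hm'⁻¹ * g⁻¹) := by group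
      _ = (hm' * g) * B * (g⁻¹ * hm'⁻¹) := by rw [e4, e5]
      _ = _ := by group
  rw [e3] at h1
  have h3 := h1.symm.trans h2
  rw [← e1, ← e2] at h3
  have e6 : ε / 4 + ε / 4 + (ε / 4 + ε / 4) = ε := by ring
  rw [e6] at h3
  exact h3

/-- The subgroup `NN` is compact. -/
theorem NN_compact [IsTopologicalGroup G] [T2Space G] {Γ : Type*} [Group Γ] {i : Γ →* G}
    (hi : UL i) (hS : Sys H)
    (hgr : ∃ κ : ℝ, 1 < κ ∧ ∀ γ : Γ, γ ≠ 1 → ∃ h ∈ H, κ ≤ h (i γ)) :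
    IsCompact ((NN hS : Subgroup G) : Set G) := by
  classical
  obtain ⟨κ, hκ, hgr⟩ := hgr
  obtain ⟨K, hK, hcoc⟩ := hi.coc
  obtain ⟨V, hV, hhar⟩ := hS.har ((κ - 1) / 2) (by linarith)
  have hT : {f : Γ | ∃ k ∈ K, i f * k ∈ NN hS}.Finite := by
    by_contra hinf
    have hex : ∀ f : Γ, ∃ k : G, f ∈ {f : Γ | ∃ k ∈ K, i f * k ∈ NN hS} →
        k ∈ K ∧ i f * k ∈ NN hS := by
      intro f
      by_cases hf : f ∈ {f : Γ | ∃ k ∈ K, i f * k ∈ NN hS}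
      · obtain ⟨k, hk⟩ := hf
        exact ⟨k, fun _ => hk⟩
      · exact ⟨1, fun h => absurd h hf⟩
    choose k hk using hex
    obtain ⟨s, hs, t, ht, hst, hw⟩ := exists_near hK.inv (Set.not_finite.1 hinf)
      (fun f => (k f)⁻¹) (fun f hf => Set.inv_mem_inv.2 (hk f hf).1) hV
    -- `i (s t⁻¹) = n w` with `w = (k s)⁻¹ k t`
    obtain ⟨h, hh, hle⟩ := hgr (s * t⁻¹) (fun h => hst (mul_inv_eq_one.1 h))
    have hn : i (s * t⁻¹) = (i s * k s) * (((k s)⁻¹ * (k t)⁻¹⁻¹) * (i t * k t)⁻¹ *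
        ((k s)⁻¹ * (k t)⁻¹⁻¹)⁻¹) * ((k s)⁻¹ * (k t)⁻¹⁻¹) := by
      rw [map_mul, map_inv]
      group
    have hmem : (i s * k s) * (((k s)⁻¹ * (k t)⁻¹⁻¹) * (i t * k t)⁻¹ *
        ((k s)⁻¹ * (k t)⁻¹⁻¹)⁻¹) ∈ NN hS :=
      mul_mem (hk s hs).2 ((NN_normal hS).conj_mem _ (inv_mem (hk t ht).2) _)
    have h1 : h (i (s * t⁻¹)) = h ((k s)⁻¹ * (k t)⁻¹⁻¹) := by
      rw [hn]
      exact hmem h hh _
    have h2 := hhar h hh 1 _ hw
    rw [one_mul, hS.one h hh, mul_one] at h2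
    rw [h1] at hle
    linarith
  have hsub : ((NN hS : Subgroup G) : Set G) ⊆
      ⋃ f ∈ {f : Γ | ∃ k ∈ K, i f * k ∈ NN hS}, {i f} * K := by
    intro c hc
    obtain ⟨f, k, hk, hfk⟩ := hcoc c
    rw [Set.mem_iUnion₂]
    refine ⟨f, ⟨k, hk, ?_⟩, ⟨i f, rfl, k, hk, hfk.symm⟩⟩
    rw [← hfk]
    exact hc
  exact (hT.isCompact_biUnion fun f _ => isCompact_singleton.mul hK).of_isClosed_subset
    (NN_closed hS) hsub

/-- Compact sets lift to compact sets along a quotient. -/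
theorem exists_lift [IsTopologicalGroup G] [LocallyCompactSpace G] (N : Subgroup G) [N.Normal]
    {C : Set (G ⧸ N)} (hC : IsCompact C) :
    ∃ D : Set G, IsCompact D ∧ C ⊆ (QuotientGroup.mk : G → G ⧸ N) '' D := by
  classical
  have h1 : ∀ x : G ⧸ N, ∃ D : Set G, IsCompact D ∧ (QuotientGroup.mk : G → G ⧸ N) '' D ∈ 𝓝 x := by
    intro x
    obtain ⟨g, rfl⟩ := QuotientGroup.mk_surjective x
    obtain ⟨D, hD, hgD⟩ := exists_compact_mem_nhds g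
    exact ⟨D, hD, QuotientGroup.isOpenMap_coe.image_mem_nhds hgD⟩
  choose D hD hDn using h1
  obtain ⟨t, -, ht⟩ := hC.elim_nhds_subcover (fun x => (QuotientGroup.mk : G → G ⧸ N) '' D x)
    (fun x _ => hDn x)
  refine ⟨⋃ x ∈ t, D x, t.isCompact_biUnion fun x _ => hD x, ?_⟩
  intro c hc
  have h2 := ht hc
  rw [Set.mem_iUnion₂] at h2
  obtain ⟨x, hx, g, hg, rfl⟩ := h2
  exact ⟨g, Set.mem_iUnion₂.2 ⟨x, hx, hg⟩, rfl⟩

/-- The preimage of a compact set along a quotient by a compact subgroup is relatively compact. -/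
theorem exists_pre [IsTopologicalGroup G] [LocallyCompactSpace G] (N : Subgroup G) [N.Normal]
    (hN : IsCompact (N : Set G)) {C : Set (G ⧸ N)} (hC : IsCompact C) :
    ∃ D : Set G, IsCompact D ∧ ∀ g : G, (g : G ⧸ N) ∈ C → g ∈ D := by
  obtain ⟨D, hD, hCD⟩ := exists_lift N hC
  refine ⟨D * N, hD.mul hN, fun g hg => ?_⟩
  obtain ⟨d, hd, hdg⟩ := hCD hg
  refine ⟨d, hd, d⁻¹ * g, QuotientGroup.eq.1 hdg, ?_⟩
  change d * (d⁻¹ * g) = g
  rw [mul_inv_cancel_left]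

theorem UL.quot [IsTopologicalGroup G] [LocallyCompactSpace G] {Γ : Type*} [Group Γ] {i : Γ →* G}
    (hi : UL i) (N : Subgroup G) [N.Normal] (hN : IsCompact (N : Set G)) :
    UL ((QuotientGroup.mk' N).comp i) := by
  refine ⟨fun C hC => ?_, ?_⟩
  · obtain ⟨D, hD, hDC⟩ := exists_pre N hN hC
    exact (hi.fin D hD).subset fun γ hγ => hDC _ hγ
  · obtain ⟨K, hK, hcoc⟩ := hi.coc
    refine ⟨(QuotientGroup.mk : G → G ⧸ N) '' K, hK.image QuotientGroup.continuous_mk, fun x => ?_⟩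
    obtain ⟨g, rfl⟩ := QuotientGroup.mk_surjective x
    obtain ⟨γ, k, hk, rfl⟩ := hcoc g
    exact ⟨γ, _, ⟨k, hk, rfl⟩, rfl⟩

/-- All bounded elements are in a compact set. -/
theorem bd_compact [IsTopologicalGroup G] [LocallyCompactSpace G] [T2Space G] {Γ : Type*} [Group Γ]
    {i : Γ →* G} (hi : UL i) {y : Γ} {C : Subgroup Γ} (hP : PrL y C) (hS : Sys H)
    (hgr : ∃ κ : ℝ, 1 < κ ∧ ∀ γ : Γ, γ ≠ 1 → ∃ h ∈ H, κ ≤ h (i γ)) :
    ∃ D : Set G, IsCompact D ∧ ∀ b : G, Bd b → b ∈ D := by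
  have hN := NN_compact hi hS hgr
  have hcl : IsClosed ((NN hS : Subgroup G) : Set G) := NN_closed hS
  have : T2Space (G ⧸ NN hS) := by infer_instance
  obtain ⟨D, hD, hcen⟩ := cen_compact (hi.quot (NN hS) hN) hP.dsp
  obtain ⟨E, hE, hpre⟩ := exists_pre (NN hS) hN hD
  refine ⟨E, hE, fun b hb => hpre b (hcen _ ?_)⟩
  rw [mem_cen]
  have h0 : ⁅C, C⁆ ≤ (Subgroup.centralizer {(QuotientGroup.mk' (NN hS)) b}).comap
      ((QuotientGroup.mk' (NN hS)).comp i) := by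
    rw [Subgroup.commutator_le]
    intro g hg h hh
    obtain ⟨m0, hm0⟩ := hP.disp g hg h hh
    have h1 : ⁅i g, i h⁆ * b * ⁅i g, i h⁆⁻¹ * b⁻¹ ∈ NN hS := by
      refine comm_NN hS hb (y := i y) (m0 := m0) fun m hm => ?_
      have h2 := congrArg i (hm0 m hm)
      simp only [map_mul, map_inv, map_pow] at h2
      exact h2
    rw [Subgroup.mem_comap, Subgroup.mem_centralizer_iff]
    intro c hc
    rw [Set.mem_singleton_iff.1 hc, MonoidHom.comp_apply, map_commutatorElement, ← map_mul, ← map_mul]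
    symm
    apply (QuotientGroup.eq).2
    have h3 : (⁅i g, i h⁆ * b)⁻¹ * (b * ⁅i g, i h⁆) =
        (b * ⁅i g, i h⁆)⁻¹ * (⁅i g, i h⁆ * b * ⁅i g, i h⁆⁻¹ * b⁻¹)⁻¹ * (b * ⁅i g, i h⁆) := by
      group
    rw [h3]
    have h4 := (NN_normal hS).conj_mem _ (inv_mem h1) (b * ⁅i g, i h⁆)⁻¹
    rwa [inv_inv] at h4
  intro η hη
  have h1 := h0 hη
  rw [Subgroup.mem_comap, Subgroup.mem_centralizer_iff] at h1
  exact (h1 _ rfl).symm

end Pool.Agent.Lib.MP_3e27e0_al.LC
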