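import Pool.Agent.Lib.MP_3e27e0_al.LC.Def

/-!
# Project LC: the centraliser of a displaced normal subgroup of a uniform lattice is compact
-/

set_option autoImplicit false

open Topology

open scoped Pointwise

namespace Pool.Agent.Lib.MP_3e27e0_al.LC

section Top

variable {G : Type*} [Group G] [TopologicalSpace G]

/-- Pigeonhole: among infinitely many elements of a compact set two are close. -/
theorem exists_near [IsTopologicalGroup G] {ι : Type*} {K : Set G} (hK : IsCompact K) {T : Set ι}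
    (hT : T.Infinite) (k : ι → G) (hk : ∀ t ∈ T, k t ∈ K) {V : Set G} (hV : V ∈ 𝓝 (1 : G)) :
    ∃ s ∈ T, ∃ t ∈ T, s ≠ t ∧ k s * (k t)⁻¹ ∈ V := by
  classical
  obtain ⟨W, hW, hWV⟩ := exists_nhds_split_inv hV
  have h1 : ∀ c ∈ K, {x : G | x * c⁻¹ ∈ W} ∈ 𝓝 c := by
    intro c _
    have h2 : ContinuousAt (fun x : G => x * c⁻¹) c :=
      (continuous_mul_const c⁻¹).continuousAt
    have h3 : W ∈ 𝓝 (c * c⁻¹) := by rwa [mul_inv_cancel]
    exact h2 h3
  obtain ⟨t, -, ht2⟩ := hK.elim_nhds_subcover (fun c => {x : G | x * c⁻¹ ∈ W}) h1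
  have h2 : ∀ s : ι, ∃ c : G, s ∈ T → c ∈ t ∧ k s * c⁻¹ ∈ W := by
    intro s
    by_cases hs : s ∈ T
    · have h3 := ht2 (hk s hs)
      rw [Set.mem_iUnion₂] at h3
      obtain ⟨c, hc, hcW⟩ := h3
      exact ⟨c, fun _ => ⟨hc, hcW⟩⟩
    · exact ⟨1, fun h => absurd h hs⟩
  choose c hc using h2
  have h3 : Set.MapsTo c T (t : Set G) := fun s hs => (hc s hs).1
  obtain ⟨s, hs, s', hs', hne, heq⟩ := hT.exists_ne_map_eq_of_mapsTo h3 t.finite_toSet
  refine ⟨s, hs, s', hs', hne, ?_⟩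
  have h4 := hWV _ (hc s hs).2 _ (hc s' hs').2
  rw [heq, div_eq_mul_inv, mul_inv_rev, inv_inv] at h4
  rwa [mul_assoc, ← mul_assoc (c s')⁻¹, inv_mul_cancel, one_mul] at h4

/-- A set which meets every compact set in a finite set is closed. -/
theorem isClosed_of_fin {X : Type*} [TopologicalSpace X] [LocallyCompactSpace X] [T2Space X]
    {S : Set X} (h : ∀ C : Set X, IsCompact C → (S ∩ C).Finite) : IsClosed S := by
  rw [← isOpen_compl_iff, isOpen_iff_mem_nhds]
  intro x hx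
  obtain ⟨C, hC, hCx⟩ := exists_compact_mem_nhds x
  have h1 : IsClosed (S ∩ C) := (h C hC).isClosed
  have h2 : (S ∩ C)ᶜ ∈ 𝓝 x := h1.isOpen_compl.mem_nhds fun h => hx h.1
  filter_upwards [hCx, h2] with z hz1 hz2 hz3
  exact hz2 ⟨hz3, hz1⟩

end Top

variable {Γ G : Type*} [Group Γ] [Group G] [TopologicalSpace G] {i : Γ →* G} {M : Subgroup Γ}

/-- The centraliser of the image of `M`. -/
def cen (i : Γ →* G) (M : Subgroup Γ) : Subgroup G := Subgroup.centralizer (i '' (M : Set Γ))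

omit [TopologicalSpace G] in
theorem mem_cen {c : G} : c ∈ cen i M ↔ ∀ η ∈ M, i η * c = c * i η := by
  rw [cen, Subgroup.mem_centralizer_iff]
  constructor
  · intro h η hη
    exact h (i η) ⟨η, hη, rfl⟩
  · rintro h _ ⟨η, hη, rfl⟩
    exact h η hη

variable [IsTopologicalGroup G] [LocallyCompactSpace G] [T2Space G]

/-- The centraliser in `G` of a displaced normal subgroup of a uniform lattice is relatively
compact. -/
theorem cen_compact (hi : UL i) (hM : Dsp M) : ∃ C : Set G, IsCompact C ∧ ∀ c ∈ cen i M, c ∈ C := by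
  classical
  obtain ⟨K, hK, hcoc⟩ := hi.coc
  -- the lattice is locally finite
  have hloc : ∀ S : Set Γ, IsClosed (i '' S) := by
    intro S
    refine isClosed_of_fin fun C hC => ?_
    refine ((hi.fin C hC).image i).subset ?_
    rintro _ ⟨⟨γ, -, rfl⟩, hγ⟩
    exact ⟨γ, hγ, rfl⟩
  set Y : Subgroup G := Subgroup.normalizer ((M.map i : Subgroup G) : Set G) with hY
  have hYcl : IsClosed (Y : Set G) := by
    have h1 : IsClosed ((M.map i : Subgroup G) : Set G) := by
      rw [Subgroup.coe_map]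
      exact hloc _
    have e : (Y : Set G) = ⋂ η : M, ({y : G | y * i η * y⁻¹ ∈ M.map i} ∩
        {y : G | y⁻¹ * i η * y ∈ M.map i}) := by
      ext y
      rw [SetLike.mem_coe, hY, Subgroup.mem_normalizer_iff, Set.mem_iInter]
      constructor
      · intro h η
        have h2 : i η ∈ M.map i := Subgroup.mem_map_of_mem i η.2
        refine ⟨(h _).1 h2, ?_⟩
        have h3 := h (y⁻¹ * i η * y)
        rw [show y * (y⁻¹ * i η * y) * y⁻¹ = i η by group] at h3
        exact h3.2 h2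
      · intro h x
        constructor
        · rintro ⟨η, hη, rfl⟩
          exact (h ⟨η, hη⟩).1
        · rintro ⟨η, hη, hx⟩
          have h3 : y⁻¹ * i η * y ∈ M.map i := (h ⟨η, hη⟩).2
          rw [hx, show y⁻¹ * (y * x * y⁻¹) * y = x by group] at h3
          exact h3
    rw [e]
    refine isClosed_iInter fun η => IsClosed.inter ?_ ?_
    · exact h1.preimage (by fun_prop)
    · exact h1.preimage (by fun_prop)
  have hCY : cen i M ≤ Y := by
    intro c hc
    rw [mem_cen] at hc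
    rw [hY, Subgroup.mem_normalizer_iff]
    intro x
    constructor
    · rintro ⟨η, hη, rfl⟩
      rw [← hc η hη, mul_inv_cancel_right]
      exact Subgroup.mem_map_of_mem i hη
    · rintro ⟨η, hη, hx⟩
      have h1 : x = i η := by
        have h2 : x = c⁻¹ * i η * c := by rw [hx]; group
        rw [h2, mul_assoc, hc η hη, inv_mul_cancel_left]
      rw [h1]
      exact Subgroup.mem_map_of_mem i hη
  have hiY : ∀ γ : Γ, i γ ∈ Y := by
    intro γ
    rw [hY, Subgroup.mem_normalizer_iff]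
    intro x
    constructor
    · rintro ⟨η, hη, rfl⟩
      rw [← map_inv, ← map_mul, ← map_mul]
      exact Subgroup.mem_map_of_mem i (hM.normal.conj_mem η hη γ)
    · rintro ⟨η, hη, hx⟩
      have h1 : x = i (γ⁻¹ * η * γ⁻¹⁻¹) := by
        rw [map_mul, map_mul, hx]
        simp only [map_inv, inv_inv]
        group
      rw [h1]
      exact Subgroup.mem_map_of_mem i (hM.normal.conj_mem η hη γ⁻¹)
  -- `Y` normalises the centraliser
  have hconj : ∀ y ∈ Y, ∀ c ∈ cen i M, y⁻¹ * c * y ∈ cen i M := by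
    intro y hy c hc
    rw [mem_cen] at hc ⊢
    intro η hη
    have h1 := (Subgroup.mem_normalizer_iff.1 hy (i η)).1 (Subgroup.mem_map_of_mem i hη)
    obtain ⟨η', hη', h2⟩ := h1
    have h3 : i η = y⁻¹ * i η' * y := by rw [h2]; group
    rw [h3]
    calc y⁻¹ * i η' * y * (y⁻¹ * c * y) = y⁻¹ * (i η' * c) * y := by group
      _ = y⁻¹ * (c * i η') * y := by rw [hc η' hη']
      _ = y⁻¹ * c * y * (y⁻¹ * i η' * y) := by group
  -- the neighbourhoods
  obtain ⟨V0, hV0, hV01⟩ := exists_compact_mem_nhds (1 : G)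
  obtain ⟨V, hVo, hV1, hVV⟩ := exists_open_nhds_one_mul_subset hV01
  set O : Set G := V * (cen i M : Set G) with hO
  have hOo : IsOpen O := hVo.mul_right
  have hcomp : IsCompact (V0 ∩ ((Y : Set G) ∩ Oᶜ)) := hV0.inter_right (hYcl.inter hOo.isClosed_compl)
  obtain ⟨u, hu⟩ := hcomp.elim_finite_subfamily_closed
    (fun η : M => {y : G | i η * y = y * i η}) (fun η => isClosed_eq (by fun_prop) (by fun_prop)) (by
      rw [Set.eq_empty_iff_forall_notMem]
      rintro y ⟨⟨-, -, hyO⟩, hy⟩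
      apply hyO
      refine ⟨1, hV1, y, ?_, one_mul y⟩
      rw [SetLike.mem_coe, mem_cen]
      intro η hη
      exact (Set.mem_iInter.1 hy) ⟨η, hη⟩)
  have hVO : ∀ y ∈ V0, y ∈ Y → (∀ η ∈ u, i η * y = y * i η) → y ∈ O := by
    intro y hy1 hy2 hy3
    by_contra hy4
    have h1 : y ∈ V0 ∩ ((Y : Set G) ∩ Oᶜ) ∩ ⋂ η ∈ u, {y : G | i (η : Γ) * y = y * i η} :=
      ⟨⟨hy1, hy2, hy4⟩, Set.mem_iInter₂.2 hy3⟩
    rw [hu] at h1
    exact h1
  have hU : ∀ᶠ y in 𝓝 (1 : G), ∀ η ∈ u, y ∈ Y → i (η : Γ) * y = y * i η := by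
    rw [Filter.eventually_all_finset]
    intro η _
    have h1 : IsClosed (i '' ((M : Set Γ) ∩ {γ | i γ ≠ i η})) := hloc _
    have h2 : (i '' ((M : Set Γ) ∩ {γ | i γ ≠ i η}))ᶜ ∈ 𝓝 ((1 : G) * i η * (1 : G)⁻¹) := by
      refine h1.isOpen_compl.mem_nhds ?_
      rintro ⟨γ, ⟨-, h3⟩, h4⟩
      apply h3
      rw [h4]
      group
    have h3 : ContinuousAt (fun y : G => y * i (η : Γ) * y⁻¹) 1 := by fun_prop
    filter_upwards [h3 h2] with y hy hyY
    have h4 := (Subgroup.mem_normalizer_iff.1 hyY (i η)).1 (Subgroup.mem_map_of_mem i η.2)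
    obtain ⟨η', hη', h5⟩ := h4
    have h6 : i η' = i η := by
      by_contra h7
      apply hy
      exact ⟨η', ⟨hη', h7⟩, h5⟩
    rw [h6] at h5
    exact (eq_mul_inv_iff_mul_eq.1 h5)
  -- finitely many elements of the lattice are needed
  have hT : {f : Γ | ∃ k ∈ K, i f * k ∈ cen i M}.Finite := by
    by_contra hinf
    have hex : ∀ f : Γ, ∃ k : G, f ∈ {f : Γ | ∃ k ∈ K, i f * k ∈ cen i M} →
        k ∈ K ∧ i f * k ∈ cen i M := by
      intro f
      by_cases hf : f ∈ {f : Γ | ∃ k ∈ K, i f * k ∈ cen i M}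
      · obtain ⟨k, hk⟩ := hf
        exact ⟨k, fun _ => hk⟩
      · exact ⟨1, fun h => absurd h hf⟩
    choose k hk using hex
    obtain ⟨s, hs, t, ht, hst, hw⟩ := exists_near hK (Set.not_finite.1 hinf) k
      (fun f hf => (hk f hf).1) (Filter.inter_mem hV01 hU)
    set w : G := k s * (k t)⁻¹ with hwdef
    have hcs := (hk s hs).2
    have hct := (hk t ht).2
    have hw2 : w = (i s)⁻¹ * ((i s * k s) * (i t * k t)⁻¹) * i t := by rw [hwdef]; group
    have hwY : w ∈ Y := by
      rw [hw2]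
      exact mul_mem (mul_mem (inv_mem (hiY s)) (hCY (mul_mem hcs (inv_mem hct)))) (hiY t)
    have hwu : ∀ η ∈ u, i (η : Γ) * w = w * i η := fun η hη => hw.2 η hη hwY
    set g : Γ := s⁻¹ * t with hg
    have hg1 : g ≠ 1 := by
      intro h
      apply hst
      rw [hg, inv_mul_eq_one] at h
      exact h
    have hact : ∀ η ∈ M, w * i η * w⁻¹ = i (g * η * g⁻¹) := by
      intro η hη
      have h1 := (mem_cen.1 (mul_mem hcs (inv_mem hct))) (t * η * t⁻¹) (hM.normal.conj_mem η hη t)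
      set c : G := (i s * k s) * (i t * k t)⁻¹ with hc
      have h2 : w * i η * w⁻¹ = (i s)⁻¹ * (c * i (t * η * t⁻¹)) * c⁻¹ * i s := by
        rw [hw2]
        simp only [map_mul, map_inv]
        group
      rw [h2, ← h1, hg]
      simp only [map_mul, map_inv]
      group
    -- the powers of `w`
    have hpow : ∀ j : ℕ, ∃ v ∈ V0, ∃ c ∈ cen i M, w ^ j = v * c := by
      intro j
      induction j with
      | zero => exact ⟨1, mem_of_mem_nhds hV01, 1, one_mem _, by simp⟩
      | succ j ih =>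
        obtain ⟨v, hv, c, hc, hvc⟩ := ih
        have hv2 : v = w ^ j * c⁻¹ := by rw [hvc, mul_inv_cancel_right]
        have hvY : v ∈ Y := by
          rw [hv2]
          exact mul_mem (pow_mem hwY j) (inv_mem (hCY hc))
        have hvu : ∀ η ∈ u, i (η : Γ) * v = v * i η := by
          intro η hη
          have h1 : Commute (i (η : Γ)) (w ^ j) := Commute.pow_right (hwu η hη) j
          have h2 : Commute (i (η : Γ)) c⁻¹ := Commute.inv_right ((mem_cen.1 hc) η η.2)
          rw [hv2]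
          exact h1.mul_right h2
        obtain ⟨v1, hv1, c1, hc1, h3⟩ := hVO v hv hvY hvu
        obtain ⟨v2, hv2', c2, hc2, h4⟩ := hVO w hw.1 hwY hwu
        have hv2Y : v2 ∈ Y := by
          have h5 : v2 = w * c2⁻¹ := by rw [← h4, mul_inv_cancel_right]
          rw [h5]
          exact mul_mem hwY (inv_mem (hCY hc2))
        refine ⟨v1 * v2, hVV (Set.mul_mem_mul hv1 hv2'), v2⁻¹ * (c1 * c) * v2 * c2,
          mul_mem (hconj v2 hv2Y _ (mul_mem hc1 hc)) hc2, ?_⟩
        rw [pow_succ, hvc, ← h3]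
        nth_rewrite 1 [← h4]
        group
    obtain ⟨η, hη, hne⟩ := hM.dsp g hg1
    have hact2 : ∀ j : ℕ, w ^ j * i η * (w ^ j)⁻¹ = i (g ^ j * η * (g ^ j)⁻¹) := by
      intro j
      induction j with
      | zero => simp
      | succ j ih =>
        have h1 : w ^ (j + 1) * i η * (w ^ (j + 1))⁻¹ = w * (w ^ j * i η * (w ^ j)⁻¹) * w⁻¹ := by
          rw [pow_succ']; group
        have h2 : g ^ (j + 1) * η * (g ^ (j + 1))⁻¹ = g * (g ^ j * η * (g ^ j)⁻¹) * g⁻¹ := by
          rw [pow_succ']; group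
        rw [h1, ih, h2]
        exact hact _ (hM.normal.conj_mem η hη _)
    have hfin : (i ⁻¹' (V0 * {i η} * V0⁻¹)).Finite :=
      hi.fin _ ((hV0.mul isCompact_singleton).mul hV0.inv)
    have hmaps : Set.MapsTo (fun j : ℕ => g ^ j * η * (g ^ j)⁻¹) Set.univ
        (i ⁻¹' (V0 * {i η} * V0⁻¹)) := by
      intro j _
      obtain ⟨v, hv, c, hc, hvc⟩ := hpow j
      rw [Set.mem_preimage, ← hact2, hvc]
      refine ⟨v * i η, ⟨v, hv, i η, rfl, rfl⟩, v⁻¹, Set.inv_mem_inv.2 hv, ?_⟩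
      have h1 := (mem_cen.1 hc) η hη
      change v * i η * v⁻¹ = v * c * i η * (v * c)⁻¹
      rw [mul_assoc v c, ← h1]
      group
    obtain ⟨j, -, j', -, hjj, heq⟩ := Set.infinite_univ.exists_ne_map_eq_of_mapsTo hmaps hfin
    have key : ∀ a b : ℕ, a < b → g ^ a * η * (g ^ a)⁻¹ = g ^ b * η * (g ^ b)⁻¹ → False := by
      intro a b hab h
      refine hne (b - a) (by omega) ?_
      have h1 : g ^ b = g ^ a * g ^ (b - a) := by rw [← pow_add, Nat.add_sub_cancel' hab.le]
      rw [h1] at h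
      have h2 : η = g ^ (b - a) * η * (g ^ (b - a))⁻¹ := by
        have h3 := congrArg (fun z => (g ^ a)⁻¹ * z * g ^ a) h
        calc η = (g ^ a)⁻¹ * (g ^ a * η * (g ^ a)⁻¹) * g ^ a := by group
          _ = _ := h3
          _ = _ := by group
      exact (mul_inv_eq_iff_eq_mul.1 h2.symm)
    rcases lt_or_gt_of_ne hjj with h | h
    · exact key _ _ h heq
    · exact key _ _ h heq.symm
  refine ⟨⋃ f ∈ {f : Γ | ∃ k ∈ K, i f * k ∈ cen i M}, {i f} * K, ?_, ?_⟩
  · exact hT.isCompact_biUnion fun f _ => isCompact_singleton.mul hK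
  · intro c hc
    obtain ⟨f, k, hk, hfk⟩ := hcoc c
    rw [Set.mem_iUnion₂]
    refine ⟨f, ⟨k, hk, ?_⟩, ?_⟩
    · rw [← hfk]
      exact hc
    · exact ⟨i f, rfl, k, hk, hfk.symm⟩

end Pool.Agent.Lib.MP_3e27e0_al.LC
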