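import Pool.Agent.Lib.MP_3e27e0_al.LC.Def

/-!
# Project LC: a group with a finitely generated uniform lattice is compactly generated
-/

set_option autoImplicit false

open Topology

namespace Pool.Agent.Lib.MP_3e27e0_al.LC

variable {Γ G : Type*} [Group Γ] [Group G] [TopologicalSpace G] {i : Γ →* G}

theorem cg_of_UL (hΓ : Group.FG Γ) (hi : UL i) :
    ∃ S : Set G, IsCompact S ∧ Subgroup.closure S = ⊤ := by
  obtain ⟨T, hT⟩ := hΓ
  obtain ⟨K, hK, hcoc⟩ := hi.coc
  refine ⟨i '' (T : Set Γ) ∪ K, ((T.finite_toSet.image i).isCompact).union hK, ?_⟩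
  rw [eq_top_iff]
  intro g _
  obtain ⟨γ, k, hk, rfl⟩ := hcoc g
  refine mul_mem ?_ (Subgroup.subset_closure (Or.inr hk))
  have h1 : i γ ∈ (Subgroup.closure (T : Set Γ)).map i := by
    rw [hT]
    exact Subgroup.mem_map_of_mem i (Subgroup.mem_top γ)
  rw [MonoidHom.map_closure] at h1
  exact Subgroup.closure_mono Set.subset_union_left h1

end Pool.Agent.Lib.MP_3e27e0_al.LC
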