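import Pool.Agent.Lib.MP_3e27e0_al.LC.Def
import Pool.Agent.Lib.MP_3e27e0_al.PR.PrpF

/-!
# Project LC: small commutators in the subgroups of finite index of F

`exists_eta`: for `0 ≤ p < q ≤ 1` and a subgroup `F1` of finite index of F there are `a, b` in F1 which
are the identity near 0 and 1 and outside `[α, β] ⊆ (p, q)` and do not commute: powers of the bump
functions with supports `(c, c + r)` and `(c + r / 2, c + r)`, `c = j / 2 ^ k`, `r = 1 / 2 ^ k`.
-/

set_option autoImplicit false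

namespace Pool.Agent.Lib.MP_3e27e0_al.LC

open Pool.Agent.Lib.MP_3e27e0_al.CM Pool.Agent.Lib.MP_3e27e0_al.PR

open scoped commutatorElement

private noncomputable def xf (c r t : ℝ) : ℝ :=
  min t (max (c + (t - c) / 2) (max (t - r / 4) (2 * t - c - r)))

private noncomputable def yf (c r s : ℝ) : ℝ :=
  max s (min (2 * s - c) (min (s + r / 4) ((s + c + r) / 2)))

private theorem xf_mono (c r : ℝ) : StrictMono (xf c r) := by
  intro s t h
  unfold xf
  refine min_lt_min h (max_lt_max ?_ (max_lt_max ?_ ?_)) <;> linarith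

private theorem xf1 {c r t : ℝ} (h : t ≤ c) : xf c r t = t := by
  unfold xf
  exact min_eq_left (le_max_of_le_left (by linarith))

private theorem xf2 {c r t : ℝ} (h : c ≤ t) (h' : t ≤ c + r / 2) :
    xf c r t = c + (t - c) / 2 := by
  unfold xf
  have h1 : max (t - r / 4) (2 * t - c - r) ≤ c + (t - c) / 2 := max_le (by linarith) (by linarith)
  rw [max_eq_left h1]
  exact min_eq_right (by linarith)

private theorem xf3 {c r t : ℝ} (hr : 0 < r) (h : c + r / 2 ≤ t) (h' : t ≤ c + 3 * r / 4) :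
    xf c r t = t - r / 4 := by
  unfold xf
  have h1 : 2 * t - c - r ≤ t - r / 4 := by linarith
  have h2 : c + (t - c) / 2 ≤ t - r / 4 := by linarith
  rw [max_eq_left h1, max_eq_right h2]
  exact min_eq_right (by linarith)

private theorem xf4 {c r t : ℝ} (hr : 0 < r) (h : c + 3 * r / 4 ≤ t) (h' : t ≤ c + r) :
    xf c r t = 2 * t - c - r := by
  unfold xf
  have h1 : t - r / 4 ≤ 2 * t - c - r := by linarith
  have h2 : c + (t - c) / 2 ≤ 2 * t - c - r := by linarith
  rw [max_eq_right h1, max_eq_right h2]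
  exact min_eq_right (by linarith)

private theorem xf5 {c r t : ℝ} (h : c + r ≤ t) : xf c r t = t := by
  unfold xf
  exact min_eq_left (le_max_of_le_right (le_max_of_le_right (by linarith)))

private theorem xf_yf {c r : ℝ} (hr : 0 < r) (s : ℝ) : xf c r (yf c r s) = s := by
  rcases le_total s c with h1 | h1
  · have : yf c r s = s := by
      unfold yf
      exact max_eq_left (min_le_of_left_le (by linarith))
    rw [this, xf1 h1]
  rcases le_total s (c + r / 4) with h2 | h2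
  · have : yf c r s = 2 * s - c := by
      unfold yf
      rw [min_eq_left (le_min (by linarith) (by linarith))]
      exact max_eq_right (by linarith)
    rw [this, xf2 (by linarith) (by linarith)]
    ring
  rcases le_total s (c + r / 2) with h3 | h3
  · have : yf c r s = s + r / 4 := by
      unfold yf
      rw [min_eq_left (by linarith : s + r / 4 ≤ (s + c + r) / 2),
        min_eq_right (by linarith : s + r / 4 ≤ 2 * s - c)]
      exact max_eq_right (by linarith)
    rw [this, xf3 hr (by linarith) (by linarith)]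
    ring
  rcases le_total s (c + r) with h4 | h4
  · have : yf c r s = (s + c + r) / 2 := by
      unfold yf
      rw [min_eq_right (by linarith : (s + c + r) / 2 ≤ s + r / 4),
        min_eq_right (by linarith : (s + c + r) / 2 ≤ 2 * s - c)]
      exact max_eq_right (by linarith)
    rw [this, xf4 hr (by linarith) (by linarith)]
    ring
  · have : yf c r s = s := by
      unfold yf
      exact max_eq_left (min_le_of_right_le (min_le_of_right_le (by linarith)))
    rw [this, xf5 h4]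

private theorem xf_mem {c r : ℝ} (hc : 0 ≤ c) (t : UI) : xf c r t ∈ Set.Icc (0 : ℝ) 1 := by
  obtain ⟨t, h0, h1⟩ := t
  refine ⟨le_min h0 (le_max_of_le_left ?_), (min_le_left _ _).trans h1⟩
  simp only
  linarith

private theorem yf_mem {c r : ℝ} (hcr : c + r ≤ 1) (t : UI) : yf c r t ∈ Set.Icc (0 : ℝ) 1 := by
  obtain ⟨t, h0, h1⟩ := t
  refine ⟨h0.trans (le_max_left _ _), max_le h1 (min_le_of_right_le (min_le_of_right_le ?_))⟩
  simp only
  linarith

private noncomputable def bump (c r : ℝ) (hc : 0 ≤ c) (hr : 0 < r) (hcr : c + r ≤ 1) : UI ≃o UI :=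
  StrictMono.orderIsoOfRightInverse (fun t : UI => (⟨xf c r t, xf_mem hc t⟩ : UI))
    (fun _ _ h => Subtype.mk_lt_mk.2 (xf_mono c r h)) (fun t : UI => (⟨yf c r t, yf_mem hcr t⟩ : UI))
    (fun s => Subtype.ext (xf_yf hr s))

private theorem bump_apply {c r : ℝ} (hc : 0 ≤ c) (hr : 0 < r) (hcr : c + r ≤ 1) (t : UI) :
    (bump c r hc hr hcr t : ℝ) = xf c r t := rfl

private theorem bump_isT {c r : ℝ} (hc : 0 ≤ c) (hr : 0 < r) (hcr : c + r ≤ 1) (k : ℕ) (j : ℤ)
    (hc' : c = j / 2 ^ k) (hr' : r = 1 / 2 ^ k) : IsT (bump c r hc hr hcr) := by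
  classical
  have h2 : (2 : ℝ) ^ k ≠ 0 := by positivity
  refine ⟨{c, c + r / 2, c + 3 * r / 4, c + r}, ?_, ?_⟩
  · intro x hx
    simp only [Finset.mem_insert, Finset.mem_singleton] at hx
    rcases hx with rfl | rfl | rfl | rfl
    · exact ⟨j, k, hc'⟩
    · refine ⟨2 * j + 1, k + 1, ?_⟩
      rw [hc', hr', pow_succ]
      push_cast
      field_simp
    · refine ⟨4 * j + 3, k + 2, ?_⟩
      rw [hc', hr', pow_add]
      push_cast
      field_simp
      ring
    · refine ⟨j + 1, k, ?_⟩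
      rw [hc', hr']
      push_cast
      field_simp
  · intro a b hab hs
    have hab' : (a : ℝ) < b := hab
    have s1 := hs c (by simp)
    have s2 := hs (c + r / 2) (by simp)
    have s3 := hs (c + 3 * r / 4) (by simp)
    have s4 := hs (c + r) (by simp)
    simp only [bump_apply]
    rcases le_or_gt (b : ℝ) c with h1 | h1
    · refine ⟨0, fun t h0 h0' => ?_⟩
      have h0 : (a : ℝ) ≤ t := h0
      have h0' : (t : ℝ) ≤ b := h0'
      rw [xf1 (by linarith), xf1 (by linarith)]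
      simp
    have a1 : c ≤ a := s1.resolve_right (not_le.2 h1)
    rcases le_or_gt (b : ℝ) (c + r / 2) with h2 | h2
    · refine ⟨-1, fun t h0 h0' => ?_⟩
      have h0 : (a : ℝ) ≤ t := h0
      have h0' : (t : ℝ) ≤ b := h0'
      rw [xf2 (by linarith) (by linarith), xf2 (by linarith) (by linarith), zpow_neg_one]
      ring
    have a2 : c + r / 2 ≤ a := s2.resolve_right (not_le.2 h2)
    rcases le_or_gt (b : ℝ) (c + 3 * r / 4) with h3 | h3
    · refine ⟨0, fun t h0 h0' => ?_⟩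
      have h0 : (a : ℝ) ≤ t := h0
      have h0' : (t : ℝ) ≤ b := h0'
      rw [xf3 hr (by linarith) (by linarith), xf3 hr (by linarith) (by linarith)]
      simp
    have a3 : c + 3 * r / 4 ≤ a := s3.resolve_right (not_le.2 h3)
    rcases le_or_gt (b : ℝ) (c + r) with h4 | h4
    · refine ⟨1, fun t h0 h0' => ?_⟩
      have h0 : (a : ℝ) ≤ t := h0
      have h0' : (t : ℝ) ≤ b := h0'
      rw [xf4 hr (by linarith) (by linarith), xf4 hr (by linarith) (by linarith), zpow_one]
      ring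
    have a4 : c + r ≤ a := s4.resolve_right (not_le.2 h4)
    refine ⟨0, fun t h0 h0' => ?_⟩
    have h0 : (a : ℝ) ≤ t := h0
    have h0' : (t : ℝ) ≤ b := h0'
    rw [xf5 (by linarith), xf5 (by linarith)]
    simp

private theorem xf_lt {c r t : ℝ} (hr : 0 < r) (h : c < t) (h' : t < c + r) : xf c r t < t := by
  unfold xf
  refine min_lt_of_right_lt (max_lt ?_ (max_lt ?_ ?_)) <;> linarith

/-- Powers of an order isomorphism below the identity at a point. -/
private theorem pow_lt' (f : UI ≃o UI) (t : UI) (h : f t < t) (m : ℕ) : (f ^ (m + 1)) t < t := by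
  induction m with
  | zero => simpa using h
  | succ m ih =>
    rw [pow_succ', RelIso.mul_apply]
    exact (f.lt_iff_lt.2 ih).trans h

private theorem pow_eq' (f : UI ≃o UI) (t : UI) (h : f t = t) (m : ℕ) : (f ^ m) t = t := by
  induction m with
  | zero => simp
  | succ m ih => rw [pow_succ', RelIso.mul_apply, ih, h]

private theorem fix_of_comm (f g : UI ≃o UI) (c d : UI) (hcd : c < d)
    (hfix : ∀ t, f t = t ↔ (t ≤ c ∨ d ≤ t)) (hc : g * f = f * g) : g c = c := by
  have key : ∀ t, (t ≤ c ∨ d ≤ t) ↔ (g t ≤ c ∨ d ≤ g t) := by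
    intro t
    rw [← hfix, ← hfix]
    have h1 : g (f t) = f (g t) := by
      have := congrArg (fun e : UI ≃o UI => e t) hc
      simpa [RelIso.mul_apply] using this
    rw [← h1, g.injective.eq_iff]
  -- a point strictly between
  obtain ⟨t, ht1, ht2⟩ := exists_between hcd
  have hgt : ¬ (g t ≤ c ∨ d ≤ g t) := by
    rw [← key]
    push Not
    exact ⟨ht1, ht2⟩
  push Not at hgt
  rcases lt_trichotomy (g c) c with h | h | h
  · exfalso
    obtain ⟨u, hu⟩ := g.surjective c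
    have hcu : c < u := by
      rw [← g.lt_iff_lt, hu]
      exact h
    have hu2 : u ≤ c ∨ d ≤ u := (key u).2 (Or.inl hu.le)
    have hdu : d ≤ u := hu2.resolve_left (not_le.2 hcu)
    have : g t < g u := g.lt_iff_lt.2 (ht2.trans_le hdu)
    rw [hu] at this
    exact absurd hgt.1 (not_lt.2 this.le)
  · exact h
  · exfalso
    have h1 := (key c).1 (Or.inl le_rfl)
    have h2 : d ≤ g c := h1.resolve_left (not_le.2 h)
    have h3 : g c < g t := g.lt_iff_lt.2 ht1
    exact absurd hgt.2 (not_lt.2 (h2.trans h3.le))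

private theorem exists_dyadic2 {p q : ℝ} (hpq : p < q) :
    ∃ (j : ℤ) (k : ℕ), p < (j : ℝ) / 2 ^ k ∧ (j : ℝ) / 2 ^ k + 1 / 2 ^ k < q := by
  obtain ⟨k, hk⟩ := exists_pow_lt_of_lt_one (half_pos (sub_pos.2 hpq))
    (by norm_num : (1 / 2 : ℝ) < 1)
  have h2 : (0 : ℝ) < 2 ^ k := by positivity
  rw [one_div, inv_pow, ← one_div] at hk
  refine ⟨⌊p * 2 ^ k⌋ + 1, k, ?_, ?_⟩
  · rw [lt_div_iff₀ h2]
    push_cast
    exact Int.lt_floor_add_one _
  · push_cast
    rw [add_div]
    have : (⌊p * 2 ^ k⌋ : ℝ) / 2 ^ k ≤ p := by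
      rw [div_le_iff₀ h2]
      exact Int.floor_le _
    linarith

/-- What is used about the bump functions. -/
private theorem exists_pow_bump (F1 : Subgroup ThompsonF) (h1 : F1.FiniteIndex) (c : ℝ) (r : ℝ)
    (k : ℕ) (j : ℤ) (hc0 : 0 < c) (hr : 0 < r) (hcr : c + r < 1) (hc : c = j / 2 ^ k)
    (hr' : r = 1 / 2 ^ k) :
    ∃ a : F1, ∀ t : UI, ((a : ThompsonF) : UI ≃o UI) t = t ↔ ((t : ℝ) ≤ c ∨ c + r ≤ (t : ℝ)) := by
  set f : UI ≃o UI := bump c r hc0.le hr hcr.le with hf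
  have hfT : IsT f := bump_isT hc0.le hr hcr.le k j hc hr'
  have hfm : f ∈ ThompsonF := hfT
  obtain ⟨m, hm0, -, hm⟩ := Subgroup.exists_pow_mem_of_index_ne_zero h1.index_ne_zero
    (⟨f, hfm⟩ : ThompsonF)
  obtain ⟨m, rfl⟩ : ∃ n, m = n + 1 := ⟨m - 1, by omega⟩
  refine ⟨⟨_, hm⟩, fun t => ?_⟩
  have he : (((⟨_, hm⟩ : F1) : ThompsonF) : UI ≃o UI) t = (f ^ (m + 1)) t := rfl
  rw [he]
  constructor
  · intro ht
    by_contra hcon
    push Not at hcon
    have hlt : f t < t := by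
      rw [← Subtype.coe_lt_coe, hf, bump_apply]
      exact xf_lt hr hcon.1 hcon.2
    exact absurd ht (pow_lt' f t hlt m).ne
  · intro ht
    apply pow_eq'
    apply Subtype.ext
    rw [hf, bump_apply]
    rcases ht with ht | ht
    · exact xf1 ht
    · exact xf5 ht

theorem exists_eta (F1 : Subgroup ThompsonF) (h1 : F1.FiniteIndex) {p q : UI} (hpq : p < q) :
    ∃ (a b : F1) (α β : UI), p < α ∧ α < β ∧ β < q ∧
      Cpt ((a : ThompsonF) : UI ≃o UI) ∧ Cpt ((b : ThompsonF) : UI ≃o UI) ∧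
      (∀ t : UI, t ≤ α ∨ β ≤ t → ((a : ThompsonF) : UI ≃o UI) t = t) ∧
      (∀ t : UI, t ≤ α ∨ β ≤ t → ((b : ThompsonF) : UI ≃o UI) t = t) ∧
      ⁅a, b⁆ ≠ 1 := by
  obtain ⟨j, k, e1, e2⟩ := exists_dyadic2 (Subtype.coe_lt_coe.2 hpq)
  have hr : (0 : ℝ) < 1 / 2 ^ k := by positivity
  have hc0 : (0 : ℝ) < (j : ℝ) / 2 ^ k := p.2.1.trans_lt e1
  have hc1 : (j : ℝ) / 2 ^ k + 1 / 2 ^ k < 1 := e2.trans_le q.2.2
  obtain ⟨a, ha⟩ := exists_pow_bump F1 h1 _ _ k j hc0 hr hc1 rfl rfl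
  have hg : (j : ℝ) / 2 ^ k + (1 / 2 ^ k) / 2 = ((2 * j + 1 : ℤ) : ℝ) / 2 ^ (k + 1) := by
    rw [pow_succ]
    push_cast
    field_simp
  have hr2 : (1 : ℝ) / 2 ^ k / 2 = 1 / 2 ^ (k + 1) := by
    rw [pow_succ]
    field_simp
  obtain ⟨b, hb⟩ := exists_pow_bump F1 h1 ((j : ℝ) / 2 ^ k + (1 / 2 ^ k) / 2) ((1 / 2 ^ k) / 2)
    (k + 1) (2 * j + 1) (by positivity) (by positivity) (by linarith) hg hr2
  have hb2 : (j : ℝ) / 2 ^ k + (1 / 2 ^ k) / 2 + (1 / 2 ^ k) / 2 = (j : ℝ) / 2 ^ k + 1 / 2 ^ k := by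
    ring
  rw [hb2] at hb
  have hcpt : ∀ f : UI ≃o UI, (∀ t : UI, ((t : ℝ) ≤ (j : ℝ) / 2 ^ k ∨
      (j : ℝ) / 2 ^ k + 1 / 2 ^ k ≤ (t : ℝ)) → f t = t) → Cpt f := by
    intro f hf
    refine ⟨min ((j : ℝ) / 2 ^ k) (1 - ((j : ℝ) / 2 ^ k + 1 / 2 ^ k)), lt_min hc0 (by linarith),
      fun t ht => hf t ?_⟩
    rcases ht with ht | ht
    · exact Or.inl (ht.trans (min_le_left _ _))
    · right
      have := min_le_right ((j : ℝ) / 2 ^ k) (1 - ((j : ℝ) / 2 ^ k + 1 / 2 ^ k))
      linarith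
  have hb' : ∀ t : UI, ((t : ℝ) ≤ (j : ℝ) / 2 ^ k ∨
      (j : ℝ) / 2 ^ k + 1 / 2 ^ k ≤ (t : ℝ)) → ((b : ThompsonF) : UI ≃o UI) t = t := by
    intro t ht
    rw [hb]
    rcases ht with ht | ht
    · left
      linarith
    · exact Or.inr ht
  refine ⟨a, b, ⟨(j : ℝ) / 2 ^ k, hc0.le, by linarith⟩,
    ⟨(j : ℝ) / 2 ^ k + 1 / 2 ^ k, by linarith, hc1.le⟩, e1, ?_, e2, hcpt _ (fun t => (ha t).2),
    hcpt _ hb', fun t ht => (ha t).2 ht, fun t ht => hb' t ht, fun hcomm => ?_⟩
  · rw [← Subtype.coe_lt_coe]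
    simp only
    linarith
  · have h3 : a * b = b * a := commutatorElement_eq_one_iff_mul_comm.1 hcomm
    have h4 : ((a : ThompsonF) : UI ≃o UI) * ((b : ThompsonF) : UI ≃o UI) =
        ((b : ThompsonF) : UI ≃o UI) * ((a : ThompsonF) : UI ≃o UI) :=
      congrArg (fun e : F1 => ((e : ThompsonF) : UI ≃o UI)) h3
    have h5 := fix_of_comm ((b : ThompsonF) : UI ≃o UI) ((a : ThompsonF) : UI ≃o UI)
      ⟨(j : ℝ) / 2 ^ k + (1 / 2 ^ k) / 2, by positivity, by linarith⟩
      ⟨(j : ℝ) / 2 ^ k + 1 / 2 ^ k, by linarith, hc1.le⟩ (by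
        rw [← Subtype.coe_lt_coe]
        simp only
        linarith) (fun t => hb t) h4
    rw [ha] at h5
    simp only at h5
    rcases h5 with h5 | h5 <;> linarith

end Pool.Agent.Lib.MP_3e27e0_al.LC
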