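import Pool.Agent.Lib.MP_3e27e0_al.LC.Def
import Pool.Agent.Lib.MP_3e27e0_al.LC.DFa
import Pool.Agent.Lib.MP_3e27e0_al.PR.PrpF

/-!
# Project LC: the properties of the subgroups of finite index of F
-/

set_option autoImplicit false

namespace Pool.Agent.Lib.MP_3e27e0_al.LC

open Pool.Agent.Lib.MP_3e27e0_al.CM Pool.Agent.Lib.MP_3e27e0_al.PR

open scoped commutatorElement

/-- What is used about the group `Γ` (a subgroup of finite index of F). -/
structure PrL {Γ : Type*} [Group Γ] (y : Γ) (C : Subgroup Γ) : Prop where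
  cent : ∃ R : Set Γ, R.Finite ∧ ∀ g, g * y = y * g → ∃ q : ℤ, ∃ r ∈ R, g = y ^ q * r
  disp : ∀ g ∈ C, ∀ h ∈ C, ∃ m0 : ℕ, ∀ m, m0 ≤ m → (y ^ m * h * (y ^ m)⁻¹) * g =
    g * (y ^ m * h * (y ^ m)⁻¹)
  dsp : Dsp ⁅C, C⁆

private theorem cpt_conj {f : UI ≃o UI} (hf : Cpt f) (g : UI ≃o UI) : Cpt (g * f * g⁻¹) := by
  obtain ⟨e, he, hfe⟩ := hf
  have h0 : (0 : ℝ) < min e (1 / 2) := lt_min he (by norm_num)
  have h1 : min e (1 / 2) ≤ (1 / 2 : ℝ) := min_le_right _ _
  set p : UI := ⟨min e (1 / 2), h0.le, by linarith⟩ with hp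
  set q : UI := ⟨1 - min e (1 / 2), by linarith, by linarith⟩ with hq
  have hp0 : (0 : ℝ) < g p := by
    have h2 : (⊥ : UI) < p := Subtype.coe_lt_coe.1 h0
    have h3 := g.lt_iff_lt.2 h2
    rw [map_bot] at h3
    exact Subtype.coe_lt_coe.2 h3
  have hq1 : ((g q : UI) : ℝ) < 1 := by
    have h2 : q < (⊤ : UI) := Subtype.coe_lt_coe.1 (show 1 - min e (1 / 2) < (1 : ℝ) by linarith)
    have h3 := g.lt_iff_lt.2 h2
    rw [map_top] at h3
    exact Subtype.coe_lt_coe.2 h3
  refine ⟨min (g p) (1 - g q), lt_min hp0 (by linarith), fun t ht => ?_⟩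
  have h4 : f (g⁻¹ t) = g⁻¹ t := by
    apply hfe
    have h5 : g (g⁻¹ t) = t := g.apply_symm_apply t
    rcases ht with ht | ht
    · left
      have h6 : t ≤ g p := Subtype.coe_le_coe.1 (ht.trans (min_le_left _ _))
      rw [← h5, g.le_iff_le] at h6
      exact (Subtype.coe_le_coe.2 h6).trans (min_le_left _ _)
    · right
      have h6 : g q ≤ t := by
        have := min_le_right ((g p : UI) : ℝ) (1 - g q)
        exact Subtype.coe_le_coe.1 (by linarith)
      rw [← h5, g.le_iff_le] at h6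
      have h7 : 1 - min e (1 / 2) ≤ ((g⁻¹ t : UI) : ℝ) := Subtype.coe_le_coe.2 h6
      have h8 := min_le_left e (1 / 2)
      linarith
  change g (f (g⁻¹ t)) = t
  rw [h4]
  exact g.apply_symm_apply t

/-- Displacement. -/
private theorem dsp_aux (f η : UI ≃o UI) (α β : UI) (hαβ : α ≤ β)
    (hη : ∀ t, t ≤ α ∨ β ≤ t → η t = t) (hη1 : η ≠ 1) (h : f β ≤ α ∨ β ≤ f α) (j : ℕ) (hj : j ≠ 0) :
    f ^ j * η ≠ η * f ^ j := by
  obtain ⟨t, ht⟩ : ∃ t, η t ≠ t := by
    by_contra hcon
    push Not at hcon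
    exact hη1 (RelIso.ext hcon)
  have h1 : α < t ∧ t < β := by
    by_contra hcon
    rw [not_and_or, not_lt, not_lt] at hcon
    exact ht (hη t hcon)
  obtain ⟨i, rfl⟩ : ∃ i, j = i + 1 := ⟨j - 1, by omega⟩
  have h2 : η ((f ^ (i + 1)) t) = (f ^ (i + 1)) t := by
    apply hη
    rcases h with h | h
    · left
      clear hj
      induction i with
      | zero =>
        rw [zero_add, pow_one]
        exact (f.le_iff_le.2 h1.2.le).trans h
      | succ i ih =>
        rw [pow_succ', RelIso.mul_apply]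
        exact ((f.le_iff_le.2 ih).trans (f.le_iff_le.2 hαβ)).trans h
    · right
      clear hj
      induction i with
      | zero =>
        rw [zero_add, pow_one]
        exact h.trans (f.le_iff_le.2 h1.1.le)
      | succ i ih =>
        rw [pow_succ', RelIso.mul_apply]
        exact h.trans ((f.le_iff_le.2 hαβ).trans (f.le_iff_le.2 ih))
  intro hcomm
  have h3 : (f ^ (i + 1)) (η t) = η ((f ^ (i + 1)) t) := by
    have := congrArg (fun e : UI ≃o UI => e t) hcomm
    simpa [RelIso.mul_apply] using this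
  rw [h2] at h3
  exact ht ((f ^ (i + 1)).injective h3)

/-- `y`, `C`, `cent` and `disp` as in `PR/PrpF.lean` (`C` = the elements which are the identity near 0
and 1). `C` is normal. For `g ≠ 1` choose a dyadic interval `[α, β] ⊂ (0, 1)` with
`g [α, β] ∩ [α, β] = ∅`, `β - α` a power of 2, and powers `a`, `b` in `F1` of two bump functions with
supports `(α, β)` and `(γ, β)`, `α < γ < β`, which do not commute (compare `bump` in `CM/ThompC.lean`);
`η = ⁅a, b⁆ ≠ 1` has support in `[α, β]` and `g ^ j [α, β]` is disjoint from `[α, β]` for all `j ≠ 0` by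
monotonicity. -/
theorem prl_F (F1 : Subgroup ThompsonF) (h1 : F1.FiniteIndex) :
    ∃ (y : F1) (C : Subgroup F1), PrL y C := by
  obtain ⟨x, u, v, hE⟩ := exists_elem
  obtain ⟨M, hM0, -, hM⟩ := Subgroup.exists_pow_mem_of_index_ne_zero h1.index_ne_zero
    (⟨x, hE.xT⟩ : ThompsonF)
  let cf : F1 →* (UI ≃o UI) := ThompsonF.subtype.comp F1.subtype
  have hcf : Function.Injective cf := by
    intro a b hab
    exact Subtype.ext (Subtype.ext hab)
  let y : F1 := ⟨(⟨x, hE.xT⟩ : ThompsonF) ^ M, hM⟩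
  have hy : cf y = x ^ M := rfl
  have hyp : ∀ m : ℕ, cf (y ^ m) = x ^ (M * m) := by
    intro m
    rw [map_pow, hy, ← pow_mul]
  let C : Subgroup F1 :=
    { carrier := {g | Cpt (cf g)}
      one_mem' := by
        change Cpt (cf 1)
        rw [map_one]
        exact Cpt.one
      mul_mem' := by
        intro a b ha hb
        change Cpt (cf (a * b))
        rw [map_mul]
        exact Cpt.mul ha hb
      inv_mem' := by
        intro a ha
        change Cpt (cf a⁻¹)
        rw [map_inv]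
        exact Cpt.inv ha }
  refine ⟨y, C, ⟨?_, ?_, ⟨?_, ?_⟩⟩⟩
  · refine ⟨cf ⁻¹' ((fun j : ℕ => x ^ j) '' (Set.Iio M)),
      (Set.Finite.image _ (Set.finite_Iio M)).preimage hcf.injOn, fun g hg => ?_⟩
    have h2 : cf g * x ^ M = x ^ M * cf g := by
      have h3 := congrArg cf hg
      rwa [map_mul, map_mul, hy] at h3
    obtain ⟨k, hk⟩ := cent_x hE g.1.2 (by omega) h2
    have hk' : cf g = x ^ k := hk
    refine ⟨k / M, y ^ (-(k / M)) * g, ?_, by rw [← mul_assoc, ← zpow_add]; simp⟩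
    have hM1 : (0 : ℤ) < M := by exact_mod_cast hM0
    refine ⟨(k % M).toNat, ?_, ?_⟩
    · have h4 := Int.emod_lt_of_pos k hM1
      have h5 := Int.emod_nonneg k hM1.ne'
      change (k % M).toNat < M
      omega
    · have h5 := Int.emod_nonneg k hM1.ne'
      have h6 : ((k % M).toNat : ℤ) = k % M := Int.toNat_of_nonneg h5
      change x ^ (k % M).toNat = cf (y ^ (-(k / M)) * g)
      rw [map_mul, map_zpow, hy, hk', ← zpow_natCast, h6, ← zpow_natCast x M, ← zpow_mul, ← zpow_add]
      congr 1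
      have h7 := Int.mul_ediv_add_emod k M
      rw [mul_neg]
      omega
  · intro g hg h hh
    obtain ⟨m0, hm0⟩ := disp_x hE (g := cf g) (h := cf h) hg hh
    refine ⟨m0, fun m hm => hcf ?_⟩
    have h2 : m0 ≤ M * m := hm.trans (Nat.le_mul_of_pos_left m hM0)
    simp only [map_mul, map_inv, hyp]
    exact hm0 (M * m) h2
  · have hCn : C.Normal := by
      refine ⟨fun n hn g => ?_⟩
      change Cpt (cf (g * n * g⁻¹))
      rw [map_mul, map_mul, map_inv]
      exact cpt_conj hn _
    exact Subgroup.commutator_normal C C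
  · intro g hg
    have hcg : cf g ≠ 1 := fun h => hg (hcf (by rw [h, map_one]))
    obtain ⟨t, ht⟩ : ∃ t, cf g t ≠ t := by
      by_contra hcon
      push Not at hcon
      exact hcg (RelIso.ext hcon)
    have main : ∀ p q : UI, p < q → (∀ α β : UI, p < α → α < β → β < q →
        cf g β ≤ α ∨ β ≤ cf g α) → ∃ η ∈ ⁅C, C⁆, ∀ j : ℕ, j ≠ 0 → g ^ j * η ≠ η * g ^ j := by
      intro p q hpq hd
      obtain ⟨a, b, α, β, hpa, hab, hbq, ha, hb, ha', hb', hne⟩ := exists_eta F1 h1 hpq
      refine ⟨⁅a, b⁆, Subgroup.commutator_mem_commutator ha hb, fun j hj hcomm => ?_⟩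
      have hinv : ∀ (f : UI ≃o UI) (s : UI), f s = s → f⁻¹ s = s := by
        intro f s hs
        have h2 : f⁻¹ (f s) = s := f.symm_apply_apply s
        rwa [hs] at h2
      refine dsp_aux (cf g) (cf ⁅a, b⁆) α β hab.le (fun s hs => ?_) (fun h => hne (hcf (by
        rw [h, map_one]))) (hd α β hpa hab hbq) j hj ?_
      · have e1 : cf a s = s := ha' s hs
        have e2 : cf b s = s := hb' s hs
        rw [commutatorElement_def, map_mul, map_mul, map_mul, map_inv, map_inv]
        change cf a (cf b ((cf a)⁻¹ ((cf b)⁻¹ s))) = s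
        rw [hinv _ s e2, hinv _ s e1, e2, e1]
      · have h2 := congrArg cf hcomm
        rwa [map_mul, map_mul, map_pow] at h2
    rcases lt_or_gt_of_ne ht with h | h
    · refine main (cf g t) t h fun α β h2 _ h4 => Or.inl ?_
      exact ((cf g).le_iff_le.2 h4.le).trans h2.le
    · refine main t (cf g t) h fun α β h2 _ h4 => Or.inr ?_
      exact h4.le.trans ((cf g).le_iff_le.2 h2.le)

end Pool.Agent.Lib.MP_3e27e0_al.LC
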