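import Mathlib

/-!
# MP_3e27e0_al, project LC (locally compact envelopes of Thompson's group F): definitions (helper45)

* `UL i`: the homomorphism `i : Γ → G` is a uniform lattice embedding (proper, with cocompact image);
* `Dsp M`: `M` is a normal subgroup of `Γ` which is displaced by every nontrivial element;
* `Kc`, `Gen`, `Big`, `A`, `Har`: kernels, a compact generating set, the operator of a kernel and its
  normalised positive eigenfunctions;
* `Sys H`: what is used about a set of normalised positive functions on `G`.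
-/

set_option autoImplicit false

open MeasureTheory Topology

open scoped Pointwise

namespace Pool.Agent.Lib.MP_3e27e0_al.LC

/-- `i : Γ → G` is a uniform lattice embedding: the preimages of compact sets are finite and
`G = i(Γ) K` for a compact set `K`. -/
structure UL {Γ G : Type*} [Group Γ] [Group G] [TopologicalSpace G] (i : Γ →* G) : Prop where
  fin : ∀ C : Set G, IsCompact C → (i ⁻¹' C).Finite
  coc : ∃ K : Set G, IsCompact K ∧ ∀ g : G, ∃ γ : Γ, ∃ k ∈ K, g = i γ * k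

/-- The normal subgroup `M` is displaced by every nontrivial element. -/
structure Dsp {Γ : Type*} [Group Γ] (M : Subgroup Γ) : Prop where
  normal : M.Normal
  dsp : ∀ g : Γ, g ≠ 1 → ∃ η ∈ M, ∀ j : ℕ, j ≠ 0 → g ^ j * η ≠ η * g ^ j

section

variable {G : Type*} [Group G] [TopologicalSpace G]

/-- Kernels: continuous, compactly supported, nonnegative. -/
structure Kc (φ : G → ℝ) : Prop where
  cont : Continuous φ
  supp : HasCompactSupport φ
  nn : ∀ t, 0 ≤ φ t

/-- A compact symmetric generating neighbourhood of 1. -/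
structure Gen (Q : Set G) : Prop where
  cpt : IsCompact Q
  nhd : Q ∈ 𝓝 (1 : G)
  inv : ∀ q ∈ Q, q⁻¹ ∈ Q
  gen : ∀ g : G, ∃ n : ℕ, g ∈ Q ^ n

/-- The kernel is at least 1 on `Q ^ 3`. -/
def Big (φ : G → ℝ) (Q : Set G) : Prop := ∀ t ∈ Q * Q * Q, 1 ≤ φ t

/-- The operator of the kernel `φ`; it commutes with the left translations. -/
noncomputable def A [MeasurableSpace G] (μ : Measure G) (φ : G → ℝ) (h : G → ℝ) (x : G) : ℝ :=
  ∫ t, φ (x⁻¹ * t) * h t ∂μ

/-- The normalised positive eigenfunctions. -/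
structure Har [MeasurableSpace G] (μ : Measure G) (φ : G → ℝ) (lam : ℝ) (h : G → ℝ) : Prop where
  cont : Continuous h
  nn : ∀ x, 0 ≤ h x
  eig : ∀ x, A μ φ h x = lam * h x
  one : h 1 = 1

/-- The functions to which the Harnack inequality applies: `lam v = A u` with `v` not much smaller than
`u` (eigenfunctions and Green functions). -/
def Cls [MeasurableSpace G] (μ : Measure G) (φ : G → ℝ) (N : ℕ) (lam : ℝ) (v : G → ℝ) : Prop :=
  ∃ u : G → ℝ, Continuous u ∧ (∀ x, 0 ≤ u x) ∧ (∀ x, lam * v x = A μ φ u x) ∧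
    ∀ x, ((A μ φ)^[N] u) x ≤ 2 * lam ^ N * v x

/-- Uniform Harnack inequality (multiplicative modulus of continuity `ω`). -/
def Mod (Q : Set G) (ω : G → ℝ) (v : G → ℝ) : Prop :=
  Continuous v ∧ (∀ x, 0 ≤ v x) ∧ ∀ x, ∀ s ∈ Q, |v (x * s) - v x| ≤ ω s * v x

/-- `ω` is a modulus: nonnegative, bounded on `Q`, with limit 0 at 1. -/
structure IsMod (Q : Set G) (ω : G → ℝ) : Prop where
  nn : ∀ s, 0 ≤ ω s
  bdd : ∃ B : ℝ, ∀ s ∈ Q, ω s ≤ B
  lim : Filter.Tendsto ω (𝓝 1) (𝓝 0)

/-- What is used about the set of normalised positive eigenfunctions. -/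
structure Sys (H : Set (G → ℝ)) : Prop where
  pos : ∀ h ∈ H, ∀ x, 0 < h x
  one : ∀ h ∈ H, h 1 = 1
  trans : ∀ h ∈ H, ∀ g, (fun x => (h g)⁻¹ * h (g * x)) ∈ H
  har : ∀ ε : ℝ, 0 < ε → ∃ V ∈ 𝓝 (1 : G), ∀ h ∈ H, ∀ x, ∀ v ∈ V, h (x * v) ≤ (1 + ε) * h x
  bdd : ∀ D : Set G, IsCompact D → ∃ C : ℝ, ∀ h ∈ H, ∀ x, ∀ d ∈ D, h (x * d) ≤ C * h x
  cpt : IsCompact H
  cvx : Convex ℝ H
  sub : ∀ h ∈ H, ∀ k ∈ H, ∀ t : ℝ, 0 < t → t < 1 → (∀ x, t * k x ≤ h x) →
    (fun x => (1 - t)⁻¹ * (h x - t * k x)) ∈ H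
  cont : ∀ h ∈ H, Continuous h

end

end Pool.Agent.Lib.MP_3e27e0_al.LC
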