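import Pool.Agent.Lib.MP_3e27e0_al.LC.FGb

/-!
# Project LC: F is finitely generated, steps 4 and 5
-/

set_option autoImplicit false

namespace Pool.Agent.Lib.MP_3e27e0_al.LC

open Pool.Agent.Lib.MP_3e27e0_al.CM

/-- the point `t` is not in the interior of the standard interval -/
def NInt (t : ℝ) (k n : ℕ) : Prop := t ≤ (k : ℝ) / 2 ^ n ∨ ((k : ℝ) + 1) / 2 ^ n ≤ t

/-- standard intervals without `t` in the interior go to standard intervals -/
def StdA (f : UI ≃o UI) (t : ℝ) : Prop :=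
  ∀ n k : ℕ, k < 2 ^ n → NInt t k n → ∃ l m : ℕ, l < 2 ^ m ∧ Aff f k n l m

theorem fgc_zero (f : UI ≃o UI) (t : UI) (ht : (t : ℝ) = 0) : (f t : ℝ) = 0 := by
  have h1 : t = ⊥ := Subtype.ext ht
  rw [h1, map_bot]
  rfl

theorem fgc_one (f : UI ≃o UI) (t : UI) (ht : (t : ℝ) = 1) : (f t : ℝ) = 1 := by
  have h1 : t = ⊤ := Subtype.ext ht
  rw [h1, map_top]
  rfl

theorem fgc_ne {f : UI ≃o UI} {t : ℝ} (ht0 : 0 < t) (ht1 : t < 1) {k n l m : ℕ} (hk : k < 2 ^ n)
    (hN : NInt t k n) (hl : l < 2 ^ m) (hf : Aff f k n l m) : ∃ m', m = m' + 1 := by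
  rcases m with _ | m
  · exfalso
    have hl0 : l = 0 := by
      rw [pow_zero] at hl
      omega
    subst hl0
    have h2n : (0 : ℝ) < 2 ^ n := by positivity
    rcases hN with hN | hN
    · have h1 := hf ⟨_, fgb_mem hk le_rfl zero_le_one⟩ 0 le_rfl zero_le_one rfl
      have h2 : f ⟨_, fgb_mem hk le_rfl zero_le_one⟩ = ⊥ := Subtype.ext (h1.trans (by
        change _ = (0 : ℝ)
        simp))
      rw [← map_bot f] at h2
      have h3 := congrArg (fun z : UI => (z : ℝ)) (f.injective h2)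
      have h4 : ((k : ℝ) + 0) / 2 ^ n = 0 := h3
      rw [add_zero] at h4
      linarith
    · have h1 := hf ⟨_, fgb_mem hk zero_le_one le_rfl⟩ 1 zero_le_one le_rfl rfl
      have h2 : f ⟨_, fgb_mem hk zero_le_one le_rfl⟩ = ⊤ := Subtype.ext (h1.trans (by
        change _ = (1 : ℝ)
        simp))
      rw [← map_top f] at h2
      have h3 := congrArg (fun z : UI => (z : ℝ)) (f.injective h2)
      have h4 : ((k : ℝ) + 1) / 2 ^ n = 1 := h3
      linarith
  · exact ⟨m, rfl⟩

theorem fgc_split (k n : ℕ) (hk : k < 2 ^ (n + 1)) :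
    k < 2 ^ n ∨ ∃ k', k' < 2 ^ n ∧ k = 2 ^ n + k' := by
  rcases lt_or_ge k (2 ^ n) with h | h
  · exact Or.inl h
  · refine Or.inr ⟨k - 2 ^ n, ?_, by omega⟩
    rw [pow_succ] at hk
    omega

section

variable {osum : (UI ≃o UI) → (UI ≃o UI) → (UI ≃o UI)} {a : UI ≃o UI} (h : OSD osum a)

include h

theorem fgc_step4 (S : Subgroup (UI ≃o UI)) (hS : S = Subgroup.closure {a, osum 1 a}) :
    ∀ (d : ℕ) (t : UI), 0 < (t : ℝ) → (t : ℝ) < 1 → (∃ j : ℕ, (t : ℝ) = j / 2 ^ d) →
      ∃ s ∈ S, (s t : ℝ) = 1 / 2 ∧ StdA s t := by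
  have ha : a ∈ S := by
    rw [hS]
    exact Subgroup.subset_closure (Or.inl rfl)
  intro d
  induction d with
  | zero =>
    rintro t ht0 ht1 ⟨j, hj⟩
    exfalso
    rw [pow_zero, div_one] at hj
    rw [hj] at ht0 ht1
    have h1 : 0 < j := by exact_mod_cast ht0
    have h2 : j < 1 := by exact_mod_cast ht1
    omega
  | succ d ih =>
    rintro t ht0 ht1 ⟨j, hj⟩
    have h2d : (0 : ℝ) < 2 ^ d := by positivity
    rcases lt_trichotomy (t : ℝ) (1 / 2) with hlt | heq | hgt
    · -- t < 1/2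
      have hmem : 2 * (t : ℝ) ∈ Set.Icc (0 : ℝ) 1 := ⟨by linarith, by linarith⟩
      obtain ⟨s', hs'S, hs', hstd⟩ := ih ⟨_, hmem⟩ (by
        change 0 < 2 * (t : ℝ)
        linarith) (by
        change 2 * (t : ℝ) < 1
        linarith) ⟨j, by
        change 2 * (t : ℝ) = _
        rw [hj, pow_succ]
        field_simp⟩
      refine ⟨a⁻¹ * osum s' 1, S.mul_mem (S.inv_mem ha) (fgb_osum_mem h S hS _ _ hs'S S.one_mem),
        ?_, ?_⟩
      · have h1 := h.l s' 1 ⟨_, hmem⟩ t (by
          change (t : ℝ) = 2 * t / 2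
          ring)
        rw [hs'] at h1
        have hmem2 : (1 / 2 : ℝ) ∈ Set.Icc (0 : ℝ) 1 := ⟨by norm_num, by norm_num⟩
        have h2 : a ⟨1 / 2, hmem2⟩ = osum s' 1 t := Subtype.ext (by
          rw [h1]
          exact h.a1 _ le_rfl)
        change ((a⁻¹ (osum s' 1 t) : UI) : ℝ) = 1 / 2
        rw [← h2]
        have h3 : a⁻¹ (a ⟨1 / 2, hmem2⟩) = ⟨1 / 2, hmem2⟩ := a.symm_apply_apply _
        rw [h3]
      · intro n k hk hN
        rcases n with _ | n
        · exfalso
          have hk0 : k = 0 := by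
            rw [pow_zero] at hk
            omega
          subst hk0
          rcases hN with hN | hN
          · rw [Nat.cast_zero, zero_div] at hN
            linarith
          · rw [Nat.cast_zero, pow_zero, zero_add, div_one] at hN
            linarith
        · rcases fgc_split k n hk with hk' | ⟨k', hk', rfl⟩
          · have hN' : NInt (2 * (t : ℝ)) k n := by
              have h2n : (0 : ℝ) < 2 ^ n := by positivity
              rcases hN with hN | hN
              · left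
                rw [pow_succ, ← div_div] at hN
                linarith
              · right
                rw [pow_succ, ← div_div] at hN
                linarith
            obtain ⟨l, m, hl, haff⟩ := hstd n k hk' hN'
            obtain ⟨m, rfl⟩ := fgc_ne (t := 2 * (t : ℝ)) (by linarith) (by linarith) hk' hN' hl haff
            have h1 : Aff (osum s' 1) k (n + 1) l (m + 2) := fgb_aff_osum_l h hk' haff
            rcases fgc_split l m hl with hl' | ⟨l', hl', rfl⟩
            · refine ⟨l, m + 1, hl, fgb_aff_comp h1 ?_⟩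
              exact fgb_aff_inv hl (fgb_aff_a1 h hl')
            · refine ⟨2 ^ (m + 1) + l', m + 2, ?_, fgb_aff_comp h1 ?_⟩
              · rw [pow_succ 2 (m + 1)]
                have : 2 ^ m ≤ 2 ^ (m + 1) := Nat.pow_le_pow_right (by norm_num) (by omega)
                omega
              · refine fgb_aff_inv ?_ (fgb_aff_a2 h hl')
                rw [pow_succ 2 (m + 1)]
                have : 2 ^ m ≤ 2 ^ (m + 1) := Nat.pow_le_pow_right (by norm_num) (by omega)
                omega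
          · have h1 : Aff (osum s' 1) (2 ^ n + k') (n + 1) (2 ^ n + k') (n + 1) :=
              fgb_aff_osum_r h hk' (fgb_aff_one _ _)
            have h2 : 2 ^ (n + 1) + (2 ^ n + k') < 2 ^ (n + 2) := by
              rw [pow_succ 2 (n + 1)]
              rw [pow_succ 2 n] at hk ⊢
              omega
            exact ⟨2 ^ (n + 1) + (2 ^ n + k'), n + 2, h2, fgb_aff_comp h1 (fgb_aff_inv h2 (fgb_aff_a3 h hk'))⟩
    · -- t = 1/2
      exact ⟨1, S.one_mem, heq, fun n k hk _ => ⟨k, n, hk, fgb_aff_one k n⟩⟩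
    · -- t > 1/2
      have hmem : 2 * (t : ℝ) - 1 ∈ Set.Icc (0 : ℝ) 1 := ⟨by linarith, by linarith⟩
      have hj1 : 2 ^ d ≤ j := by
        have h1 : (2 : ℝ) ^ d ≤ j := by
          rw [hj, pow_succ, lt_div_iff₀ (by positivity)] at hgt
          linarith
        exact_mod_cast h1
      obtain ⟨s', hs'S, hs', hstd⟩ := ih ⟨_, hmem⟩ (by
        change 0 < 2 * (t : ℝ) - 1
        linarith) (by
        change 2 * (t : ℝ) - 1 < 1
        linarith) ⟨j - 2 ^ d, by
        change 2 * (t : ℝ) - 1 = _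
        rw [hj, pow_succ, Nat.cast_sub hj1]
        push_cast
        field_simp⟩
      refine ⟨a * osum 1 s', S.mul_mem ha (fgb_osum_mem h S hS _ _ S.one_mem hs'S), ?_, ?_⟩
      · have h1 := h.r 1 s' ⟨_, hmem⟩ t (by
          change (t : ℝ) = (1 + (2 * t - 1)) / 2
          ring)
        rw [hs'] at h1
        change (a (osum 1 s' t) : ℝ) = 1 / 2
        rw [h.a3 _ (by rw [h1]; norm_num), h1]
        norm_num
      · intro n k hk hN
        rcases n with _ | n
        · exfalso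
          have hk0 : k = 0 := by
            rw [pow_zero] at hk
            omega
          subst hk0
          rcases hN with hN | hN
          · rw [Nat.cast_zero, zero_div] at hN
            linarith
          · rw [Nat.cast_zero, pow_zero, zero_add, div_one] at hN
            linarith
        · rcases fgc_split k n hk with hk' | ⟨k', hk', rfl⟩
          · have h1 : Aff (osum 1 s') k (n + 1) k (n + 1) := fgb_aff_osum_l h hk' (fgb_aff_one _ _)
            refine ⟨k, n + 2, ?_, fgb_aff_comp h1 (fgb_aff_a1 h hk')⟩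
            rw [pow_succ 2 (n + 1)]
            omega
          · have h2n : (0 : ℝ) < 2 ^ n := by positivity
            have hN' : NInt (2 * (t : ℝ) - 1) k' n := by
              rcases hN with hN | hN
              · left
                rw [le_div_iff₀ h2n]
                rw [le_div_iff₀ (by positivity)] at hN
                push_cast at hN
                rw [pow_succ] at hN
                linarith
              · right
                rw [div_le_iff₀ h2n]
                rw [div_le_iff₀ (by positivity)] at hN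
                push_cast at hN
                rw [pow_succ] at hN
                linarith
            obtain ⟨l, m, hl, haff⟩ := hstd n k' hk' hN'
            obtain ⟨m, rfl⟩ := fgc_ne (t := 2 * (t : ℝ) - 1) (by linarith) (by linarith) hk' hN' hl
              haff
            have h1 : Aff (osum 1 s') (2 ^ n + k') (n + 1) (2 ^ (m + 1) + l) (m + 2) :=
              fgb_aff_osum_r h hk' haff
            rcases fgc_split l m hl with hl' | ⟨l', hl', rfl⟩
            · refine ⟨2 ^ m + l, m + 2, ?_, fgb_aff_comp h1 (fgb_aff_a2 h hl')⟩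
              rw [pow_succ 2 (m + 1), pow_succ 2 m]
              omega
            · refine ⟨2 ^ m + l', m + 1, hl, fgb_aff_comp h1 (fgb_aff_a3 h hl')⟩

omit h in
theorem fgc_cut (g : UI ≃o UI) (hg : ∀ t : UI, (t : ℝ) = 1 / 2 → (g t : ℝ) = 1 / 2) :
    ∃ g1 g2 : UI ≃o UI, (∀ s t : UI, (t : ℝ) = s / 2 → (g1 s : ℝ) = 2 * g t) ∧
      ∀ s t : UI, (t : ℝ) = (1 + s) / 2 → (g2 s : ℝ) = 2 * g t - 1 := by
  have hmem2 : (1 / 2 : ℝ) ∈ Set.Icc (0 : ℝ) 1 := ⟨by norm_num, by norm_num⟩
  have hgh := hg ⟨_, hmem2⟩ rfl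
  have hle : ∀ t : UI, (t : ℝ) ≤ 1 / 2 ↔ (g t : ℝ) ≤ 1 / 2 := by
    intro t
    have h1 : g t ≤ g ⟨_, hmem2⟩ ↔ t ≤ ⟨_, hmem2⟩ := g.le_iff_le
    have h2 : g t ≤ g ⟨_, hmem2⟩ ↔ (g t : ℝ) ≤ (g ⟨_, hmem2⟩ : ℝ) := Iff.rfl
    rw [h2, hgh] at h1
    exact h1.symm
  have hge : ∀ t : UI, 1 / 2 ≤ (t : ℝ) ↔ 1 / 2 ≤ (g t : ℝ) := by
    intro t
    have h1 : g ⟨_, hmem2⟩ ≤ g t ↔ ⟨_, hmem2⟩ ≤ t := g.le_iff_le
    have h2 : g ⟨_, hmem2⟩ ≤ g t ↔ (g ⟨_, hmem2⟩ : ℝ) ≤ (g t : ℝ) := Iff.rfl
    rw [h2, hgh] at h1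
    exact h1.symm
  have m1 : ∀ s : UI, (s : ℝ) / 2 ∈ Set.Icc (0 : ℝ) 1 := fun s =>
    ⟨by linarith [s.2.1], by linarith [s.2.2]⟩
  have m2 : ∀ s : UI, (1 + (s : ℝ)) / 2 ∈ Set.Icc (0 : ℝ) 1 := fun s =>
    ⟨by linarith [s.2.1], by linarith [s.2.2]⟩
  have n1 : ∀ s : UI, 2 * (g ⟨_, m1 s⟩ : ℝ) ∈ Set.Icc (0 : ℝ) 1 := fun s => by
    have h1 := (hle ⟨_, m1 s⟩).1 (by
      change (s : ℝ) / 2 ≤ 1 / 2
      linarith [s.2.2])
    exact ⟨by linarith [(g ⟨_, m1 s⟩).2.1], by linarith⟩
  have n2 : ∀ s : UI, 2 * (g ⟨_, m2 s⟩ : ℝ) - 1 ∈ Set.Icc (0 : ℝ) 1 := fun s => by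
    have h1 := (hge ⟨_, m2 s⟩).1 (by
      change 1 / 2 ≤ (1 + (s : ℝ)) / 2
      linarith [s.2.1])
    exact ⟨by linarith, by linarith [(g ⟨_, m2 s⟩).2.2]⟩
  have mono1 : StrictMono (fun s : UI => (⟨_, n1 s⟩ : UI)) := by
    intro s s' hs
    have h1 : (⟨_, m1 s⟩ : UI) < ⟨_, m1 s'⟩ := by
      change (s : ℝ) / 2 < s' / 2
      have : (s : ℝ) < s' := hs
      linarith
    have h2 : (g ⟨_, m1 s⟩ : ℝ) < g ⟨_, m1 s'⟩ := g.strictMono h1
    change 2 * (g ⟨_, m1 s⟩ : ℝ) < 2 * (g ⟨_, m1 s'⟩ : ℝ)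
    linarith
  have mono2 : StrictMono (fun s : UI => (⟨_, n2 s⟩ : UI)) := by
    intro s s' hs
    have h1 : (⟨_, m2 s⟩ : UI) < ⟨_, m2 s'⟩ := by
      change (1 + (s : ℝ)) / 2 < (1 + s') / 2
      have : (s : ℝ) < s' := hs
      linarith
    have h2 : (g ⟨_, m2 s⟩ : ℝ) < g ⟨_, m2 s'⟩ := g.strictMono h1
    change 2 * (g ⟨_, m2 s⟩ : ℝ) - 1 < 2 * (g ⟨_, m2 s'⟩ : ℝ) - 1
    linarith
  have surj1 : Function.Surjective (fun s : UI => (⟨_, n1 s⟩ : UI)) := by
    intro y
    obtain ⟨t, ht⟩ := g.surjective ⟨_, m1 y⟩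
    have h1 : (t : ℝ) ≤ 1 / 2 := (hle t).2 (by
      rw [ht]
      change (y : ℝ) / 2 ≤ 1 / 2
      linarith [y.2.2])
    have h2 : 2 * (t : ℝ) ∈ Set.Icc (0 : ℝ) 1 := ⟨by linarith [t.2.1], by linarith⟩
    refine ⟨⟨_, h2⟩, Subtype.ext ?_⟩
    change 2 * (g ⟨2 * (t : ℝ) / 2, _⟩ : ℝ) = y
    have h3 : (⟨2 * (t : ℝ) / 2, m1 ⟨_, h2⟩⟩ : UI) = t := Subtype.ext (by
      change 2 * (t : ℝ) / 2 = t
      ring)
    rw [h3, ht]
    change 2 * ((y : ℝ) / 2) = y
    ring
  have surj2 : Function.Surjective (fun s : UI => (⟨_, n2 s⟩ : UI)) := by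
    intro y
    obtain ⟨t, ht⟩ := g.surjective ⟨_, m2 y⟩
    have h1 : 1 / 2 ≤ (t : ℝ) := (hge t).2 (by
      rw [ht]
      change 1 / 2 ≤ (1 + (y : ℝ)) / 2
      linarith [y.2.1])
    have h2 : 2 * (t : ℝ) - 1 ∈ Set.Icc (0 : ℝ) 1 := ⟨by linarith, by linarith [t.2.2]⟩
    refine ⟨⟨_, h2⟩, Subtype.ext ?_⟩
    change 2 * (g ⟨(1 + (2 * (t : ℝ) - 1)) / 2, _⟩ : ℝ) - 1 = y
    have h3 : (⟨(1 + (2 * (t : ℝ) - 1)) / 2, m2 ⟨_, h2⟩⟩ : UI) = t := Subtype.ext (by
      change (1 + (2 * (t : ℝ) - 1)) / 2 = t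
      ring)
    rw [h3, ht]
    change 2 * ((1 + (y : ℝ)) / 2) - 1 = y
    ring
  refine ⟨mono1.orderIsoOfSurjective _ surj1, mono2.orderIsoOfSurjective _ surj2, ?_, ?_⟩
  · intro s t ht
    have h1 : t = ⟨_, m1 s⟩ := Subtype.ext ht
    rw [h1]
    rfl
  · intro s t ht
    have h1 : t = ⟨_, m2 s⟩ := Subtype.ext ht
    rw [h1]
    rfl

theorem fgc_step5 (S : Subgroup (UI ≃o UI)) (hS : S = Subgroup.closure {a, osum 1 a}) :
    ∀ (N : ℕ) (f : UI ≃o UI), (∀ k : ℕ, k < 2 ^ N → ∃ l m : ℕ, l < 2 ^ m ∧ Aff f k N l m) →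
      f ∈ S := by
  intro N
  induction N with
  | zero =>
    intro f hf
    obtain ⟨l, m, hl, haff⟩ := hf 0 (by norm_num)
    have hm0 : (0 : ℝ) < 2 ^ m := by positivity
    have h0 := haff ⊥ 0 le_rfl zero_le_one (by
      change (0 : ℝ) = _
      simp)
    rw [fgc_zero f ⊥ rfl, add_zero, eq_comm, div_eq_zero_iff] at h0
    have hl0 : (l : ℝ) = 0 := by
      rcases h0 with h0 | h0
      · exact h0
      · exact absurd h0 hm0.ne'
    have h1 := haff ⊤ 1 zero_le_one le_rfl (by
      change (1 : ℝ) = _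
      simp)
    rw [fgc_one f ⊤ rfl, hl0, zero_add] at h1
    have hm1 : (2 : ℝ) ^ m = 1 := by
      rw [eq_div_iff hm0.ne', one_mul] at h1
      exact h1
    have hf1 : f = 1 := by
      refine fgb_ext fun t => ?_
      have h2 := haff t t t.2.1 t.2.2 (by simp)
      rw [hl0, hm1, zero_add, div_one] at h2
      exact h2
    rw [hf1]
    exact S.one_mem
  | succ N ih =>
    intro f hf
    have hmem2 : (1 / 2 : ℝ) ∈ Set.Icc (0 : ℝ) 1 := ⟨by norm_num, by norm_num⟩
    set c : UI := ⟨1 / 2, hmem2⟩ with hc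
    have hcv : (c : ℝ) = 1 / 2 := rfl
    have h2N : (0 : ℝ) < 2 ^ N := by positivity
    -- the value at 1/2
    have hfc0 : 0 < (f c : ℝ) := by
      have h1 : f ⊥ < f c := f.strictMono (by
        change (0 : ℝ) < 1 / 2
        norm_num)
      have h2 : (f ⊥ : ℝ) < f c := h1
      rw [fgc_zero f ⊥ rfl] at h2
      exact h2
    have hfc1 : (f c : ℝ) < 1 := by
      have h1 : f c < f ⊤ := f.strictMono (by
        change (1 / 2 : ℝ) < 1
        norm_num)
      have h2 : (f c : ℝ) < f ⊤ := h1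
      rw [fgc_one f ⊤ rfl] at h2
      exact h2
    obtain ⟨l0, m0, hl0, haff0⟩ := hf (2 ^ N) (Nat.pow_lt_pow_right (by norm_num) (by omega))
    have hfc : (f c : ℝ) = l0 / 2 ^ m0 := by
      have h1 := haff0 c 0 le_rfl zero_le_one (by
        rw [hcv, pow_succ]
        push_cast
        field_simp
        ring)
      rw [add_zero] at h1
      exact h1
    obtain ⟨s, hsS, hsc, hstd⟩ := fgc_step4 h S hS m0 (f c) hfc0 hfc1 ⟨l0, hfc⟩
    -- g = s * f
    have hgc : ((s * f) c : ℝ) = 1 / 2 := hsc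
    have hg : ∀ k : ℕ, k < 2 ^ (N + 1) → ∃ l m : ℕ, l < 2 ^ m ∧ Aff (s * f) k (N + 1) l m := by
      intro k hk
      obtain ⟨l, m, hl, haff⟩ := hf k hk
      have hN : NInt (f c) l m := by
        have hk2 : (0 : ℝ) < 2 ^ (N + 1) := by positivity
        rcases lt_or_ge k (2 ^ N) with hkN | hkN
        · right
          have h1 := haff ⟨_, fgb_mem hk zero_le_one le_rfl⟩ 1 zero_le_one le_rfl rfl
          rw [← h1]
          have h2 : (⟨_, fgb_mem hk zero_le_one le_rfl⟩ : UI) ≤ c := by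
            change ((k : ℝ) + 1) / 2 ^ (N + 1) ≤ 1 / 2
            rw [div_le_iff₀ hk2, pow_succ]
            have : (k : ℝ) + 1 ≤ 2 ^ N := by exact_mod_cast hkN
            linarith
          exact f.monotone h2
        · left
          have h1 := haff ⟨_, fgb_mem hk le_rfl zero_le_one⟩ 0 le_rfl zero_le_one rfl
          have h1' : (f ⟨_, fgb_mem hk le_rfl zero_le_one⟩ : ℝ) = (l : ℝ) / 2 ^ m :=
            h1.trans (by rw [add_zero])
          rw [← h1']
          have h2 : c ≤ (⟨_, fgb_mem hk le_rfl zero_le_one⟩ : UI) := by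
            change 1 / 2 ≤ ((k : ℝ) + 0) / 2 ^ (N + 1)
            rw [le_div_iff₀ hk2, pow_succ]
            have : (2 : ℝ) ^ N ≤ k := by exact_mod_cast hkN
            linarith
          exact f.monotone h2
      obtain ⟨l', m', hl', haff'⟩ := hstd m l hl hN
      exact ⟨l', m', hl', fgb_aff_comp haff haff'⟩
    have hgS : s * f ∈ S := by
      obtain ⟨g1, g2, hg1, hg2⟩ := fgc_cut (s * f) (fun t ht => by
        have : t = c := Subtype.ext ht
        rw [this]
        exact hgc)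
      have hgeq : s * f = osum g1 g2 := by
        refine fgb_ext fun t => ?_
        rcases fgb_half t with ⟨r, hr⟩ | ⟨r, hr⟩
        · rw [h.l g1 g2 r t hr, hg1 r t hr]
          ring
        · rw [h.r g1 g2 r t hr, hg2 r t hr]
          ring
      rw [hgeq]
      refine fgb_osum_mem h S hS _ _ (ih g1 ?_) (ih g2 ?_)
      · intro k hk
        have hk1 : k < 2 ^ (N + 1) := by
          rw [pow_succ]
          omega
        obtain ⟨l, m, hl, haff⟩ := hg k hk1
        have hkR : (k : ℝ) + 1 ≤ 2 ^ N := by exact_mod_cast hk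
        -- the image is in [0, 1/2]
        have h1 := haff ⟨_, fgb_mem hk1 zero_le_one le_rfl⟩ 1 zero_le_one le_rfl rfl
        have h2 : (⟨_, fgb_mem hk1 zero_le_one le_rfl⟩ : UI) ≤ c := by
          change ((k : ℝ) + 1) / 2 ^ (N + 1) ≤ 1 / 2
          rw [div_le_iff₀ (by positivity), pow_succ]
          linarith
        have h3 : ((s * f) ⟨_, fgb_mem hk1 zero_le_one le_rfl⟩ : ℝ) ≤ (s * f) c :=
          (s * f).monotone h2
        rw [h1, hgc] at h3
        have hm2 : (0 : ℝ) < 2 ^ m := by positivity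
        rw [div_le_iff₀ hm2] at h3
        rcases m with _ | m
        · exfalso
          have : (0 : ℝ) ≤ l := Nat.cast_nonneg l
          rw [pow_zero] at h3
          linarith
        · refine ⟨l, m, ?_, ?_⟩
          · rw [pow_succ] at h3
            have h4 : (l : ℝ) + 1 ≤ 2 ^ m := by linarith
            exact_mod_cast h4
          · intro t u hu0 hu1 ht
            have h5 : (t : ℝ) / 2 ∈ Set.Icc (0 : ℝ) 1 := ⟨by linarith [t.2.1], by linarith [t.2.2]⟩
            rw [hg1 t ⟨_, h5⟩ rfl, haff ⟨_, h5⟩ u hu0 hu1 (by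
              change (t : ℝ) / 2 = _
              rw [ht, pow_succ, div_div]), pow_succ]
            field_simp
      · intro k hk
        have hk1 : 2 ^ N + k < 2 ^ (N + 1) := by
          rw [pow_succ]
          omega
        obtain ⟨l, m, hl, haff⟩ := hg (2 ^ N + k) hk1
        -- the image is in [1/2, 1]
        have h1 := haff ⟨_, fgb_mem hk1 le_rfl zero_le_one⟩ 0 le_rfl zero_le_one rfl
        have h2 : c ≤ (⟨_, fgb_mem hk1 le_rfl zero_le_one⟩ : UI) := by
          change 1 / 2 ≤ (((2 ^ N + k : ℕ) : ℝ) + 0) / 2 ^ (N + 1)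
          rw [le_div_iff₀ (by positivity), pow_succ]
          push_cast
          have : (0 : ℝ) ≤ k := Nat.cast_nonneg k
          linarith
        have h3 : ((s * f) c : ℝ) ≤ (s * f) ⟨_, fgb_mem hk1 le_rfl zero_le_one⟩ :=
          (s * f).monotone h2
        rw [h1, hgc, add_zero] at h3
        have hm2 : (0 : ℝ) < 2 ^ m := by positivity
        rw [le_div_iff₀ hm2] at h3
        rcases m with _ | m
        · exfalso
          rw [pow_zero] at hl h3
          have : l = 0 := by omega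
          rw [this, Nat.cast_zero] at h3
          linarith
        · have h4 : 2 ^ m ≤ l := by
            rw [pow_succ] at h3
            have h4 : (2 : ℝ) ^ m ≤ l := by linarith
            exact_mod_cast h4
          refine ⟨l - 2 ^ m, m, ?_, ?_⟩
          · rw [pow_succ] at hl
            omega
          · intro t u hu0 hu1 ht
            have h5 : (1 + (t : ℝ)) / 2 ∈ Set.Icc (0 : ℝ) 1 :=
              ⟨by linarith [t.2.1], by linarith [t.2.2]⟩
            rw [hg2 t ⟨_, h5⟩ rfl, haff ⟨_, h5⟩ u hu0 hu1 (by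
              change (1 + (t : ℝ)) / 2 = _
              rw [ht, pow_succ]
              push_cast
              field_simp
              ring), pow_succ, Nat.cast_sub h4]
            push_cast
            field_simp
            ring
    have h6 : f = s⁻¹ * (s * f) := by rw [inv_mul_cancel_left]
    rw [h6]
    exact S.mul_mem (S.inv_mem hsS) hgS

end

end Pool.Agent.Lib.MP_3e27e0_al.LC
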