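import Pool.Agent.Lib.MP_3e27e0_al.LC.Sum
import Pool.Agent.Lib.MP_3e27e0_al.LC.FGc

/-!
# Project LC: Thompson's group F is finitely generated

Plan (write `x + y` for `osum x y`, `a` as in `Sum.lean`, `b = 1 + a`, `S` the subgroup of `UI ≃o UI`
generated by `a` and `b`; compositions `(f * g) t = f (g t)`):

1. `osum` is multiplicative in both variables, `1 + 1 = 1`; `a * (x + (y + z)) = ((x + y) + z) * a`
   for all `x y z`; `(a + 1) * a * b = a * a`. (Two order isomorphisms are equal if they agree at all
   points; every point is `s / 2` or `(1 + s) / 2`.)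
2. `1 + S ⊆ S`: `1 + a = b` and `1 + b = 1 + (1 + a) = a⁻¹ * ((1 + 1) + a) * a = a⁻¹ * b * a`.
   `S + 1 ⊆ S`: `a + 1 = a * a * b⁻¹ * a⁻¹` and `b + 1 = (1 + a) + 1 = a * (1 + (a + 1)) * a⁻¹`. So
   `x + y = (x + 1) * (1 + y) ∈ S` for `x, y ∈ S`.
3. `Aff f k n l m` (see below). `a` maps a standard interval `[k/2^n, (k+1)/2^n]` which is contained in
   `[0, 1/2]`, `[1/2, 3/4]` or `[3/4, 1]` affinely onto a standard interval, `a⁻¹` the same for
   `[0, 1/4]`, `[1/4, 1/2]`, `[1/2, 1]`.
4. For every dyadic `t` in `(0, 1)` there is `s ∈ S` with `s t = 1/2` which maps every standard interval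
   without `t` in its interior affinely onto a standard interval. Induction on the exponent `d` of the
   denominator `2^d` of `t`: `t = 1/2`: `s = 1`. `t > 1/2`: `s = a * (1 + s')` with `s'` for
   `t' = 2t - 1`; `t < 1/2`: `s = a⁻¹ * (s' + 1)` with `s'` for `t' = 2t`. (A standard interval is
   `[0, 1]` or contained in `[0, 1/2]` or in `[1/2, 1]`.)
5. If `f` maps every standard interval of level `N` affinely onto a standard interval then `f ∈ S`:
   induction on `N`. `N = 0`: `f = 1`. `N + 1`: `t = f (1/2)` is dyadic, take `s` of step 4; `s * f` has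
   the same property and fixes `1/2`; so `s * f = f1 + f2` and `f1`, `f2` have the property for `N`.
6. Every `f` with `IsT f` has the property of step 5 for large `N`: all points of the finite set are
   `j / 2^M`; on `[j/2^M, (j+1)/2^M]` the map is `2^e t + c` with `c` dyadic with denominator `2^d`; take
   `N ≥ M, e + d` for all pieces.
-/

set_option autoImplicit false

namespace Pool.Agent.Lib.MP_3e27e0_al.LC

open Pool.Agent.Lib.MP_3e27e0_al.CM

/-- Steps 1 - 5. -/
theorem fg_TF : Group.FG TF := by
  obtain ⟨osum, a, hl, hr, h1, h2, h3, haT, hoT⟩ := exists_osum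
  have h : OSD osum a := ⟨hl, hr, h1, h2, h3⟩
  have hS : ThompsonF = Subgroup.closure {a, osum 1 a} := by
    apply le_antisymm
    · intro f hf
      obtain ⟨N, hN⟩ := aff_of_isT (f := f) hf
      exact fgc_step5 h _ rfl N f hN
    · rw [Subgroup.closure_le]
      rintro f (rfl | rfl)
      · exact haT
      · exact hoT 1 a IsT.one haT
  have h4 : (ThompsonF : Subgroup (UI ≃o UI)).FG := by
    classical
    exact ⟨{a, osum 1 a}, by rw [hS, Finset.coe_insert, Finset.coe_singleton]⟩
  exact (Group.fg_iff_subgroup_fg ThompsonF).2 h4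

end Pool.Agent.Lib.MP_3e27e0_al.LC
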