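import Pool.Agent.Lib.MP_3e27e0_al.CM.Stmt

/-!
# Project LC: elements of F map small standard intervals affinely onto standard intervals
-/

set_option autoImplicit false

namespace Pool.Agent.Lib.MP_3e27e0_al.LC

open Pool.Agent.Lib.MP_3e27e0_al.CM

/-- `f` maps the standard interval `[k/2^n, (k+1)/2^n]` affinely onto `[l/2^m, (l+1)/2^m]`. -/
def Aff (f : UI ≃o UI) (k n l m : ℕ) : Prop :=
  ∀ t : UI, ∀ u : ℝ, 0 ≤ u → u ≤ 1 → (t : ℝ) = (k + u) / 2 ^ n → (f t : ℝ) = (l + u) / 2 ^ m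

private theorem fga_denom (s : Finset ℝ) (hs : ∀ x ∈ s, Dyadic x) :
    ∃ M : ℕ, ∀ x ∈ s, ∃ j : ℤ, x = (j : ℝ) / 2 ^ M := by
  classical
  induction s using Finset.induction_on with
  | empty => exact ⟨0, fun x hx => absurd hx (Finset.notMem_empty x)⟩
  | insert x s _ ih =>
    obtain ⟨M, hM⟩ := ih (fun y hy => hs y (Finset.mem_insert_of_mem hy))
    obtain ⟨m, k, hx⟩ := hs x (Finset.mem_insert_self _ _)
    refine ⟨M + k, fun y hy => ?_⟩
    rcases Finset.mem_insert.1 hy with rfl | hy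
    · refine ⟨m * 2 ^ M, ?_⟩
      rw [hx]
      push_cast
      rw [pow_add]
      field_simp
    · obtain ⟨j, hj⟩ := hM y hy
      refine ⟨j * 2 ^ k, ?_⟩
      rw [hj]
      push_cast
      rw [pow_add]
      field_simp

/-- Step 6. -/
theorem aff_of_isT {f : UI ≃o UI} (hf : IsT f) : ∃ N : ℕ, ∀ k : ℕ, k < 2 ^ N →
    ∃ l m : ℕ, l < 2 ^ m ∧ Aff f k N l m := by
  classical
  have hfd := hf.dyadic
  obtain ⟨s, hs, h⟩ := hf
  obtain ⟨M, hM⟩ := fga_denom s hs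
  have h2M : (0 : ℝ) < 2 ^ M := by positivity
  -- the pieces
  have hpiece : ∀ j : ℕ, j < 2 ^ M → ∃ (e : ℤ) (d : ℕ) (p : ℤ), ∀ t : UI, (j : ℝ) / 2 ^ M ≤ t →
      (t : ℝ) ≤ (j + 1) / 2 ^ M → (f t : ℝ) = p / 2 ^ d + 2 ^ e * (t - j / 2 ^ M) := by
    intro j hj
    have hj' : (j : ℝ) + 1 ≤ 2 ^ M := by exact_mod_cast hj
    have hj0 : (0 : ℝ) ≤ j := Nat.cast_nonneg j
    have ha : (j : ℝ) / 2 ^ M ∈ Set.Icc (0 : ℝ) 1 :=
      ⟨by positivity, by rw [div_le_one h2M]; linarith⟩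
    have hb : ((j : ℝ) + 1) / 2 ^ M ∈ Set.Icc (0 : ℝ) 1 :=
      ⟨by positivity, by rw [div_le_one h2M]; linarith⟩
    have hab : (⟨_, ha⟩ : UI) < ⟨_, hb⟩ := by
      change (j : ℝ) / 2 ^ M < (j + 1) / 2 ^ M
      exact div_lt_div_of_pos_right (by linarith) h2M
    obtain ⟨e, he⟩ := h ⟨_, ha⟩ ⟨_, hb⟩ hab (by
      intro x hx
      obtain ⟨i, rfl⟩ := hM x hx
      rcases le_or_gt i (j : ℤ) with hi | hi
      · left
        change (i : ℝ) / 2 ^ M ≤ j / 2 ^ M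
        apply div_le_div_of_nonneg_right _ h2M.le
        exact_mod_cast hi
      · right
        change ((j : ℝ) + 1) / 2 ^ M ≤ i / 2 ^ M
        apply div_le_div_of_nonneg_right _ h2M.le
        exact_mod_cast hi)
    obtain ⟨p, d, hpd⟩ := (hfd ⟨_, ha⟩).2 ⟨j, M, by push_cast; rfl⟩
    refine ⟨e, d, p, fun t ht1 ht2 => ?_⟩
    have h1 := he t ht1 ht2
    rw [hpd] at h1
    have h2 : ((⟨_, ha⟩ : UI) : ℝ) = (j : ℝ) / 2 ^ M := rfl
    rw [h2] at h1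
    linarith
  choose e d p hp using hpiece
  obtain ⟨B, hB⟩ : ∃ B : ℕ, ∀ j (hj : j < 2 ^ M), (e j hj).natAbs + d j hj ≤ B :=
    ⟨Finset.univ.sup (fun j : Fin (2 ^ M) => (e j j.2).natAbs + d j j.2), fun j hj =>
      Finset.le_sup (f := fun j : Fin (2 ^ M) => (e j j.2).natAbs + d j j.2)
        (Finset.mem_univ ⟨j, hj⟩)⟩
  refine ⟨M + B, fun k hk => ?_⟩
  have hj : k / 2 ^ B < 2 ^ M := by
    rw [pow_add, mul_comm] at hk
    exact Nat.div_lt_of_lt_mul hk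
  set j := k / 2 ^ B with hjdef
  have hdm := Nat.div_add_mod k (2 ^ B)
  have hmod : k % 2 ^ B < 2 ^ B := Nat.mod_lt _ (by positivity)
  rw [← hjdef] at hdm
  have hBj := hB j hj
  have hpj := hp j hj
  set e' := e j hj
  set d' := d j hj
  set p' := p j hj
  obtain ⟨m, hm⟩ : ∃ m : ℕ, (m : ℤ) = (M + B : ℕ) - e' := ⟨((M + B : ℕ) - e').toNat, by
    rw [Int.toNat_of_nonneg]
    omega⟩
  have hdm' : d' ≤ m := by omega
  have h2m : (0 : ℝ) < 2 ^ m := by positivity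
  have h2e : (2 : ℝ) ^ e' = 2 ^ (M + B) / 2 ^ m := by
    rw [eq_div_iff h2m.ne', ← zpow_natCast, ← zpow_natCast, ← zpow_add₀ (by norm_num)]
    congr 1
    omega
  have hkey : ∀ t : UI, ∀ u : ℝ, 0 ≤ u → u ≤ 1 → (t : ℝ) = (k + u) / 2 ^ (M + B) →
      (f t : ℝ) = (((p' * 2 ^ (m - d') + (k - j * 2 ^ B) : ℤ) : ℝ) + u) / 2 ^ m := by
    intro t u hu0 hu1 ht
    have hk1 : (2 : ℝ) ^ B * j ≤ k := by
      have : 2 ^ B * j ≤ k := by omega
      exact_mod_cast this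
    have hk2 : (k : ℝ) + 1 ≤ 2 ^ B * (j + 1) := by
      have : k + 1 ≤ 2 ^ B * (j + 1) := by
        rw [mul_add, mul_one]
        omega
      exact_mod_cast this
    have h2B : (0 : ℝ) < 2 ^ B := by positivity
    have ht1 : (j : ℝ) / 2 ^ M ≤ t := by
      rw [ht, pow_add, div_le_div_iff₀ h2M (by positivity)]
      nlinarith
    have ht2 : (t : ℝ) ≤ (j + 1) / 2 ^ M := by
      rw [ht, pow_add, div_le_div_iff₀ (by positivity) h2M]
      nlinarith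
    rw [hpj t ht1 ht2, h2e, ht]
    have h3 : (2 : ℝ) ^ m = 2 ^ d' * 2 ^ (m - d') := by
      rw [← pow_add]
      congr 1
      omega
    push_cast
    rw [h3, pow_add]
    have h4 : (0 : ℝ) < 2 ^ d' := by positivity
    have h5 : (0 : ℝ) < 2 ^ (m - d') := by positivity
    field_simp
    ring
  have hkN : (k : ℝ) + 1 ≤ 2 ^ (M + B) := by exact_mod_cast hk
  have hk0 : (0 : ℝ) ≤ k := Nat.cast_nonneg k
  have h2N : (0 : ℝ) < 2 ^ (M + B) := by positivity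
  set L : ℤ := p' * 2 ^ (m - d') + (k - j * 2 ^ B) with hL
  have hL0 : 0 ≤ L := by
    have ha : ((k : ℝ) + 0) / 2 ^ (M + B) ∈ Set.Icc (0 : ℝ) 1 :=
      ⟨by positivity, by rw [div_le_one h2N]; linarith⟩
    have h1 := hkey ⟨_, ha⟩ 0 le_rfl zero_le_one rfl
    have h2 := (f ⟨_, ha⟩).2.1
    rw [h1, add_zero] at h2
    have h3 := (le_div_iff₀ h2m).1 h2
    rw [zero_mul] at h3
    exact_mod_cast h3
  have hL1 : L + 1 ≤ 2 ^ m := by
    have ha : ((k : ℝ) + 1) / 2 ^ (M + B) ∈ Set.Icc (0 : ℝ) 1 :=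
      ⟨by positivity, by rw [div_le_one h2N]; linarith⟩
    have h1 := hkey ⟨_, ha⟩ 1 zero_le_one le_rfl rfl
    have h2 := (f ⟨_, ha⟩).2.2
    rw [h1, div_le_one h2m] at h2
    exact_mod_cast h2
  refine ⟨L.toNat, m, ?_, fun t u hu0 hu1 ht => ?_⟩
  · have h1 : ((L.toNat : ℕ) : ℤ) < ((2 ^ m : ℕ) : ℤ) := by
      rw [Int.toNat_of_nonneg hL0]
      push_cast
      omega
    exact_mod_cast h1
  · rw [hkey t u hu0 hu1 ht]
    have h1 : ((L.toNat : ℕ) : ℝ) = (L : ℝ) := by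
      have h2 : ((L.toNat : ℕ) : ℤ) = L := Int.toNat_of_nonneg hL0
      exact_mod_cast h2
    rw [h1]

end Pool.Agent.Lib.MP_3e27e0_al.LC
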