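import Pool.Agent.Lib.MP_3e27e0_al.LC.FGa

/-!
# Project LC: F is finitely generated, steps 1 - 5
-/

set_option autoImplicit false

namespace Pool.Agent.Lib.MP_3e27e0_al.LC

open Pool.Agent.Lib.MP_3e27e0_al.CM

/-- The data of `exists_osum`. -/
structure OSD (osum : (UI ≃o UI) → (UI ≃o UI) → (UI ≃o UI)) (a : UI ≃o UI) : Prop where
  l : ∀ f g, ∀ s t : UI, (t : ℝ) = s / 2 → (osum f g t : ℝ) = f s / 2
  r : ∀ f g, ∀ s t : UI, (t : ℝ) = (1 + s) / 2 → (osum f g t : ℝ) = (1 + g s) / 2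
  a1 : ∀ t : UI, (t : ℝ) ≤ 1 / 2 → (a t : ℝ) = t / 2
  a2 : ∀ t : UI, 1 / 2 ≤ (t : ℝ) → (t : ℝ) ≤ 3 / 4 → (a t : ℝ) = t - 1 / 4
  a3 : ∀ t : UI, 3 / 4 ≤ (t : ℝ) → (a t : ℝ) = 2 * t - 1

theorem fgb_half (t : UI) : (∃ s : UI, (t : ℝ) = s / 2) ∨ ∃ s : UI, (t : ℝ) = (1 + s) / 2 := by
  have h0 := t.2.1
  have h1 := t.2.2
  rcases le_total (t : ℝ) (1 / 2) with h | h
  · exact Or.inl ⟨⟨2 * t, by linarith, by linarith⟩, by
      change (t : ℝ) = (2 * t) / 2
      ring⟩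
  · exact Or.inr ⟨⟨2 * t - 1, by linarith, by linarith⟩, by
      change (t : ℝ) = (1 + (2 * t - 1)) / 2
      ring⟩

theorem fgb_ext {f g : UI ≃o UI} (h : ∀ t, (f t : ℝ) = g t) : f = g :=
  DFunLike.ext _ _ fun t => Subtype.ext (h t)

section

variable {osum : (UI ≃o UI) → (UI ≃o UI) → (UI ≃o UI)} {a : UI ≃o UI} (h : OSD osum a)

include h

theorem fgb_osum_mul (f f' g g' : UI ≃o UI) :
    osum (f * f') (g * g') = osum f g * osum f' g' := by
  refine fgb_ext fun t => ?_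
  change (osum (f * f') (g * g') t : ℝ) = osum f g (osum f' g' t)
  rcases fgb_half t with ⟨s, hs⟩ | ⟨s, hs⟩
  · rw [h.l _ _ s t hs, h.l f g (f' s) _ (h.l f' g' s t hs)]
    rfl
  · rw [h.r _ _ s t hs, h.r f g (g' s) _ (h.r f' g' s t hs)]
    rfl

theorem fgb_osum_one : osum 1 1 = 1 := by
  refine fgb_ext fun t => ?_
  rcases fgb_half t with ⟨s, hs⟩ | ⟨s, hs⟩
  · rw [h.l _ _ s t hs]
    change (s : ℝ) / 2 = t
    exact hs.symm
  · rw [h.r _ _ s t hs]
    change (1 + (s : ℝ)) / 2 = t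
    exact hs.symm

theorem fgb_osum_conj (x y z : UI ≃o UI) :
    a * osum x (osum y z) = osum (osum x y) z * a := by
  refine fgb_ext fun t => ?_
  change (a (osum x (osum y z) t) : ℝ) = osum (osum x y) z (a t)
  rcases fgb_half t with ⟨s, hs⟩ | ⟨s, hs⟩
  · have h1 := h.l x (osum y z) s t hs
    have h2 := (x s).2.2
    have h3 := s.2.2
    rw [h.a1 _ (by rw [h1]; linarith), h1, h.l (osum x y) z t (a t) (h.a1 t (by linarith)),
      h.l x y s t hs]
  · have h1 := h.r x (osum y z) s t hs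
    rcases fgb_half s with ⟨r, hr⟩ | ⟨r, hr⟩
    · have h2 := h.l y z r s hr
      have h3 := (y r).2
      have h4 := r.2
      rw [h2] at h1
      have h5 : (a t : ℝ) = t - 1 / 4 := h.a2 t (by linarith [h4.1]) (by linarith [h4.2])
      have h6 : (1 + (r : ℝ)) / 2 ∈ Set.Icc (0 : ℝ) 1 := ⟨by linarith [h4.1], by linarith [h4.2]⟩
      have h7 : (a t : ℝ) = ((⟨_, h6⟩ : UI) : ℝ) / 2 := by
        rw [h5, hs, hr]
        change _ = (1 + (r : ℝ)) / 2 / 2
        ring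
      rw [h.a2 _ (by rw [h1]; linarith [h3.1]) (by rw [h1]; linarith [h3.2]), h1,
        h.l (osum x y) z _ _ h7, h.r x y r ⟨_, h6⟩ rfl]
      ring
    · have h2 := h.r y z r s hr
      have h3 := (z r).2
      have h4 := r.2
      rw [h2] at h1
      have h5 : (a t : ℝ) = 2 * t - 1 := h.a3 t (by linarith [h4.1])
      have h7 : (a t : ℝ) = (1 + (r : ℝ)) / 2 := by
        rw [h5, hs, hr]
        ring
      rw [h.a3 _ (by rw [h1]; linarith [h3.1]), h1, h.r (osum x y) z r _ h7]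
      ring

theorem fgb_osum_rel : osum a 1 * a * osum 1 a = a * a := by
  refine fgb_ext fun t => ?_
  change (osum a 1 (a (osum 1 a t)) : ℝ) = a (a t)
  rcases fgb_half t with ⟨s, hs⟩ | ⟨s, hs⟩
  · have h1 : (osum 1 a t : ℝ) = s / 2 := h.l 1 a s t hs
    have hs2 := s.2.2
    have hs1 := s.2.1
    have h2 : (a (osum 1 a t) : ℝ) = t / 2 := by
      rw [h.a1 _ (by rw [h1]; linarith), h1, hs]
    have h3 : (a t : ℝ) = t / 2 := h.a1 t (by linarith)
    rw [h.l a 1 t _ h2, h.a1 (a t) (by rw [h3]; linarith)]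
  · have h1 : (osum 1 a t : ℝ) = (1 + a s) / 2 := h.r 1 a s t hs
    have hs2 := s.2.2
    have hs1 := s.2.1
    rcases le_total (s : ℝ) (1 / 2) with hc | hc
    · have h2 : (a s : ℝ) = s / 2 := h.a1 s hc
      rw [h2] at h1
      have h3 : (a (osum 1 a t) : ℝ) = t / 2 := by
        rw [h.a2 _ (by rw [h1]; linarith) (by rw [h1]; linarith), h1, hs]
        ring
      have h4 : (a t : ℝ) = t - 1 / 4 := h.a2 t (by linarith) (by linarith)
      rw [h.l a 1 t _ h3, h.a1 (a t) (by rw [h4]; linarith)]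
    · rcases le_total (s : ℝ) (3 / 4) with hc' | hc'
      · have h2 : (a s : ℝ) = s - 1 / 4 := h.a2 s hc hc'
        rw [h2] at h1
        have h6 : 1 / 4 + (s : ℝ) ∈ Set.Icc (0 : ℝ) 1 := ⟨by linarith, by linarith⟩
        have h3 : (a (osum 1 a t) : ℝ) = ((⟨_, h6⟩ : UI) : ℝ) / 2 := by
          rw [h.a2 _ (by rw [h1]; linarith) (by rw [h1]; linarith), h1]
          change _ = (1 / 4 + (s : ℝ)) / 2
          ring
        have h4 : (a t : ℝ) = 2 * t - 1 := h.a3 t (by linarith)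
        have h5 : (a ⟨_, h6⟩ : ℝ) = 2 * (1 / 4 + (s : ℝ)) - 1 := h.a3 ⟨_, h6⟩ (by
          change 3 / 4 ≤ 1 / 4 + (s : ℝ)
          linarith)
        rw [h.l a 1 _ _ h3, h5, h.a2 (a t) (by rw [h4]; linarith) (by rw [h4]; linarith), h4, hs]
        ring
      · have h2 : (a s : ℝ) = 2 * s - 1 := h.a3 s hc'
        rw [h2] at h1
        have h6 : 4 * (s : ℝ) - 3 ∈ Set.Icc (0 : ℝ) 1 := ⟨by linarith, by linarith⟩
        have h3 : (a (osum 1 a t) : ℝ) = (1 + ((⟨_, h6⟩ : UI) : ℝ)) / 2 := by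
          rw [h.a3 _ (by rw [h1]; linarith), h1]
          change _ = (1 + (4 * (s : ℝ) - 3)) / 2
          ring
        have h4 : (a t : ℝ) = 2 * t - 1 := h.a3 t (by linarith)
        rw [h.r a 1 _ _ h3, h.a3 (a t) (by rw [h4]; linarith), h4, hs]
        change (1 + (4 * (s : ℝ) - 3)) / 2 = _
        ring

/-- the subgroup generated by the two generators -/
theorem fgb_osum_mem (S : Subgroup (UI ≃o UI)) (hS : S = Subgroup.closure {a, osum 1 a})
    (x y : UI ≃o UI) (hx : x ∈ S) (hy : y ∈ S) : osum x y ∈ S := by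
  have ha : a ∈ S := by
    rw [hS]
    exact Subgroup.subset_closure (Or.inl rfl)
  have hb : osum 1 a ∈ S := by
    rw [hS]
    exact Subgroup.subset_closure (Or.inr rfl)
  have h1b : osum 1 (osum 1 a) ∈ S := by
    have h1 := fgb_osum_conj h 1 1 a
    rw [fgb_osum_one h] at h1
    have h2 : osum 1 (osum 1 a) = a⁻¹ * (osum 1 a * a) := by
      rw [← h1, inv_mul_cancel_left]
    rw [h2]
    exact S.mul_mem (S.inv_mem ha) (S.mul_mem hb ha)
  have hone : ∀ y ∈ S, osum 1 y ∈ S := by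
    intro y hy
    rw [hS] at hy
    induction hy using Subgroup.closure_induction with
    | mem z hz =>
      rcases hz with rfl | rfl
      · exact hb
      · exact h1b
    | one =>
      rw [fgb_osum_one h]
      exact S.one_mem
    | mul z w _ _ hz hw =>
      have h1 := fgb_osum_mul h 1 1 z w
      rw [one_mul] at h1
      rw [h1]
      exact S.mul_mem hz hw
    | inv z _ hz =>
      have h1 := fgb_osum_mul h 1 1 z⁻¹ z
      rw [one_mul, inv_mul_cancel, fgb_osum_one h] at h1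
      rw [eq_inv_of_mul_eq_one_left h1.symm]
      exact S.inv_mem hz
  have ha1 : osum a 1 ∈ S := by
    have h1 := fgb_osum_rel h
    have h2 : osum a 1 = a * a * (osum 1 a)⁻¹ * a⁻¹ := by
      rw [← h1]
      group
    rw [h2]
    exact S.mul_mem (S.mul_mem (S.mul_mem ha ha) (S.inv_mem hb)) (S.inv_mem ha)
  have hb1 : osum (osum 1 a) 1 ∈ S := by
    have h1 := fgb_osum_conj h 1 a 1
    have h2 : osum (osum 1 a) 1 = a * osum 1 (osum a 1) * a⁻¹ := by
      rw [h1, mul_inv_cancel_right]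
    rw [h2]
    exact S.mul_mem (S.mul_mem ha (hone _ ha1)) (S.inv_mem ha)
  have hone' : ∀ x ∈ S, osum x 1 ∈ S := by
    intro y hy
    rw [hS] at hy
    induction hy using Subgroup.closure_induction with
    | mem z hz =>
      rcases hz with rfl | rfl
      · exact ha1
      · exact hb1
    | one =>
      rw [fgb_osum_one h]
      exact S.one_mem
    | mul z w _ _ hz hw =>
      have h1 := fgb_osum_mul h z w 1 1
      rw [one_mul] at h1
      rw [h1]
      exact S.mul_mem hz hw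
    | inv z _ hz =>
      have h1 := fgb_osum_mul h z⁻¹ z 1 1
      rw [one_mul, inv_mul_cancel, fgb_osum_one h] at h1
      rw [eq_inv_of_mul_eq_one_left h1.symm]
      exact S.inv_mem hz
  have h1 := fgb_osum_mul h x 1 1 y
  rw [one_mul, mul_one] at h1
  rw [h1]
  exact S.mul_mem (hone' x hx) (hone y hy)

/-! ## Affine pieces -/

omit h in
theorem fgb_aff_comp {f g : UI ≃o UI} {k n l m p q : ℕ} (hf : Aff f k n l m) (hg : Aff g l m p q) :
    Aff (g * f) k n p q := fun t u hu0 hu1 ht => hg (f t) u hu0 hu1 (hf t u hu0 hu1 ht)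

omit h in
theorem fgb_aff_one (k n : ℕ) : Aff 1 k n k n := fun _ _ _ _ ht => ht

omit h in
theorem fgb_mem {k n : ℕ} (hk : k < 2 ^ n) {u : ℝ} (hu0 : 0 ≤ u) (hu1 : u ≤ 1) :
    ((k : ℝ) + u) / 2 ^ n ∈ Set.Icc (0 : ℝ) 1 := by
  have h1 : (k : ℝ) + 1 ≤ 2 ^ n := by exact_mod_cast hk
  have h2 : (0 : ℝ) < 2 ^ n := by positivity
  refine ⟨by positivity, ?_⟩
  rw [div_le_one h2]
  linarith

omit h in
theorem fgb_aff_inv {f : UI ≃o UI} {k n l m : ℕ} (hk : k < 2 ^ n) (hf : Aff f k n l m) :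
    Aff f⁻¹ l m k n := by
  intro t u hu0 hu1 ht
  have h1 := hf ⟨_, fgb_mem hk hu0 hu1⟩ u hu0 hu1 rfl
  have h2 : f ⟨_, fgb_mem hk hu0 hu1⟩ = t := Subtype.ext (h1.trans ht.symm)
  have h3 : f⁻¹ t = ⟨_, fgb_mem hk hu0 hu1⟩ := by
    rw [← h2]
    exact f.symm_apply_apply _
  rw [h3]

theorem fgb_aff_osum_l {f g : UI ≃o UI} {k n l m : ℕ} (hk : k < 2 ^ n) (hf : Aff f k n l m) :
    Aff (osum f g) k (n + 1) l (m + 1) := by
  intro t u hu0 hu1 ht
  have h1 := h.l f g ⟨_, fgb_mem hk hu0 hu1⟩ t (by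
    rw [ht, pow_succ]
    change _ = ((k : ℝ) + u) / 2 ^ n / 2
    rw [div_div])
  rw [h1, hf ⟨_, fgb_mem hk hu0 hu1⟩ u hu0 hu1 rfl, pow_succ, div_div]

theorem fgb_aff_osum_r {f g : UI ≃o UI} {k n l m : ℕ} (hk : k < 2 ^ n) (hg : Aff g k n l m) :
    Aff (osum f g) (2 ^ n + k) (n + 1) (2 ^ m + l) (m + 1) := by
  intro t u hu0 hu1 ht
  have h2n : (0 : ℝ) < 2 ^ n := by positivity
  have h2m : (0 : ℝ) < 2 ^ m := by positivity
  have h1 := h.r f g ⟨_, fgb_mem hk hu0 hu1⟩ t (by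
    rw [ht, pow_succ]
    change _ = (1 + ((k : ℝ) + u) / 2 ^ n) / 2
    push_cast
    field_simp
    ring)
  rw [h1, hg ⟨_, fgb_mem hk hu0 hu1⟩ u hu0 hu1 rfl, pow_succ]
  push_cast
  field_simp
  ring

theorem fgb_aff_a1 {k n : ℕ} (hk : k < 2 ^ n) : Aff a k (n + 1) k (n + 2) := by
  intro t u hu0 hu1 ht
  have h1 := fgb_mem hk hu0 hu1
  have h2n : (0 : ℝ) < 2 ^ n := by positivity
  have h3 : (t : ℝ) = ((k : ℝ) + u) / 2 ^ n / 2 := by rw [ht, pow_succ, div_div]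
  rw [h.a1 t (by rw [h3]; linarith [h1.2]), ht]
  rw [pow_succ 2 (n + 1), div_div]

theorem fgb_aff_a2 {k n : ℕ} (hk : k < 2 ^ n) :
    Aff a (2 ^ (n + 1) + k) (n + 2) (2 ^ n + k) (n + 2) := by
  intro t u hu0 hu1 ht
  have h1 := fgb_mem hk hu0 hu1
  have h2n : (0 : ℝ) < 2 ^ n := by positivity
  have h3 : (t : ℝ) = 1 / 2 + ((k : ℝ) + u) / 2 ^ n / 4 := by
    rw [ht, pow_succ, pow_succ]
    push_cast
    rw [pow_succ]
    field_simp
    ring
  rw [h.a2 t (by rw [h3]; linarith [h1.1]) (by rw [h3]; linarith [h1.2]), h3, pow_succ, pow_succ]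
  push_cast
  field_simp
  ring

theorem fgb_aff_a3 {k n : ℕ} (hk : k < 2 ^ n) :
    Aff a (2 ^ (n + 1) + (2 ^ n + k)) (n + 2) (2 ^ n + k) (n + 1) := by
  intro t u hu0 hu1 ht
  have h1 := fgb_mem hk hu0 hu1
  have h2n : (0 : ℝ) < 2 ^ n := by positivity
  have h3 : (t : ℝ) = 3 / 4 + ((k : ℝ) + u) / 2 ^ n / 4 := by
    rw [ht, pow_succ, pow_succ]
    push_cast
    rw [pow_succ]
    field_simp
    ring
  rw [h.a3 t (by rw [h3]; linarith [h1.1]), h3, pow_succ]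
  push_cast
  field_simp
  ring

end

end Pool.Agent.Lib.MP_3e27e0_al.LC
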