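import Pool.Agent.Lib.MP_3e27e0_al.LC.Op

/-!
# Project LC: the Green function

`u = φ + v`, `v = Σ_{k ≥ 1} lam^(-k) A^k φ`.
-/

set_option autoImplicit false

open MeasureTheory Topology

open scoped Pointwise

namespace Pool.Agent.Lib.MP_3e27e0_al.LC

variable {G : Type*} [Group G] [TopologicalSpace G] [IsTopologicalGroup G] [LocallyCompactSpace G]
  [T2Space G] [MeasurableSpace G] [BorelSpace G] {μ : Measure G} [μ.IsHaarMeasure] {φ : G → ℝ}
  {Q : Set G}

private theorem it_cont (hφ : Kc φ) {h : G → ℝ} (hh : Continuous h) (k : ℕ) :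
    Continuous ((A μ φ)^[k] h) := by
  induction k with
  | zero => exact hh
  | succ k ih =>
    rw [Function.iterate_succ_apply']
    exact A_cont hφ ih

private theorem it_nn (hφ : Kc φ) {h : G → ℝ} (hh : ∀ x, 0 ≤ h x) (k : ℕ) (x : G) :
    0 ≤ ((A μ φ)^[k] h) x := by
  induction k generalizing x with
  | zero => exact hh x
  | succ k ih =>
    rw [Function.iterate_succ_apply']
    exact A_nn hφ ih x

private theorem it_bd (hφ : Kc φ) {M : ℝ} (hM : ∀ x, φ x ≤ M) (k : ℕ) (x : G) :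
    ((A μ φ)^[k] φ) x ≤ (∫ t, φ t ∂μ) ^ k * M := by
  induction k generalizing x with
  | zero => rw [pow_zero, one_mul]; exact hM x
  | succ k ih =>
    rw [Function.iterate_succ_apply']
    refine (A_mono hφ (it_cont hφ hφ.cont k) continuous_const ih x).trans ?_
    rw [A_const, pow_succ]
    exact le_of_eq (by ring)

/-- the compact set -/
private def RR (φ : G → ℝ) : Set G := tsupport φ ∪ (tsupport φ)⁻¹ ∪ {1}

omit [LocallyCompactSpace G] [T2Space G] [MeasurableSpace G] [BorelSpace G] in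
private theorem RR_cpt (hφ : Kc φ) : IsCompact (RR φ) := by
  have h1 : IsCompact (tsupport φ) := hφ.supp
  exact (h1.union h1.inv).union isCompact_singleton

omit [IsTopologicalGroup G] [LocallyCompactSpace G] [T2Space G] [MeasurableSpace G]
  [BorelSpace G] in
private theorem RR_one : (1 : G) ∈ RR φ := Or.inr rfl

private theorem it_supp (k : ℕ) (x : G) (hx : ((A μ φ)^[k] φ) x ≠ 0) : x ∈ (RR φ) ^ (k + 1) := by
  induction k generalizing x with
  | zero =>
    rw [zero_add, pow_one]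
    exact Or.inl (Or.inl (subset_tsupport φ hx))
  | succ k ih =>
    rw [Function.iterate_succ_apply'] at hx
    obtain ⟨t, ht⟩ : ∃ t, φ (x⁻¹ * t) * ((A μ φ)^[k] φ) t ≠ 0 := by
      by_contra hcon
      push Not at hcon
      apply hx
      change ∫ t, φ (x⁻¹ * t) * ((A μ φ)^[k] φ) t ∂μ = 0
      simp only [hcon, integral_zero]
    have h1 : φ (x⁻¹ * t) ≠ 0 := left_ne_zero_of_mul ht
    have h2 := ih t (right_ne_zero_of_mul ht)
    have h3 : (x⁻¹ * t)⁻¹ ∈ RR φ := by
      refine Or.inl (Or.inr ?_)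
      rw [Set.mem_inv, inv_inv]
      exact subset_tsupport φ h1
    rw [pow_succ]
    refine ⟨t, h2, (x⁻¹ * t)⁻¹, h3, ?_⟩
    simp

private theorem it_zero {n k : ℕ} (hk : k + 1 ≤ n) {x : G} (hx : x ∉ (RR φ) ^ n) :
    ((A μ φ)^[k] φ) x = 0 := by
  by_contra h
  exact hx (Set.pow_subset_pow_right RR_one hk (it_supp k x h))

/-- The Green function: in the class `Cls` for every `N ≥ 1`, an eigenfunction outside a compact set, with
exponential decay. (`v = Σ_{k ≥ 1} lam^(-k) A^k φ`, `u = φ + v`; `A^k φ ≤ (∫ φ)^k sup φ`; `A^k φ` has its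
support in `(tsupport φ) * ((tsupport φ)⁻¹)^k ⊆ R^(k+1)`, `R = tsupport φ ∪ (tsupport φ)⁻¹ ∪ {1}`.) -/
theorem green (hφ : Kc φ) (hφ1 : 1 ≤ φ 1) (lam : ℝ) (hlam : (∫ t, φ t ∂μ) < lam) (hl0 : 0 < lam) :
    ∃ v : G → ℝ, Continuous v ∧ (∀ x, 0 ≤ v x) ∧ 0 < v 1 ∧ (∀ N, 1 ≤ N → Cls μ φ N lam v) ∧
      (∃ B : Set G, IsCompact B ∧ ∀ x, x ∉ B → A μ φ v x = lam * v x) ∧
      ∃ (R : Set G) (C θ : ℝ), IsCompact R ∧ 0 < θ ∧ θ < 1 ∧ ∀ (n : ℕ) (x : G), x ∉ R ^ n →
        v x ≤ C * θ ^ n := by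
  have hφ0 : φ 1 ≠ 0 := by
    intro h
    rw [h] at hφ1
    linarith
  have hI0 : 0 < ∫ t, φ t ∂μ :=
    hφ.cont.integral_pos_of_hasCompactSupport_nonneg_nonzero hφ.supp hφ.nn hφ0
  obtain ⟨M, hM⟩ := hφ.cont.bddAbove_range_of_hasCompactSupport hφ.supp
  have hM' : ∀ x, φ x ≤ M := fun x => hM ⟨x, rfl⟩
  have hM0 : 0 ≤ M := (hφ.nn 1).trans (hM' 1)
  set q : ℝ := (∫ t, φ t ∂μ) / lam with hq
  have hq0 : 0 < q := div_pos hI0 hl0
  have hq1 : q < 1 := (div_lt_one hl0).2 hlam
  -- the terms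
  set a : ℕ → G → ℝ := fun k => (A μ φ)^[k] φ with ha
  have ha_succ : ∀ k, a (k + 1) = A μ φ (a k) := fun k => Function.iterate_succ_apply' _ _ _
  have ha_nn : ∀ k x, 0 ≤ a k x := fun k x => it_nn hφ hφ.nn k x
  have ha_cont : ∀ k, Continuous (a k) := fun k => it_cont hφ hφ.cont k
  set f : ℕ → G → ℝ := fun k x => lam⁻¹ ^ (k + 1) * a (k + 1) x with hf
  have hli : 0 < lam⁻¹ := inv_pos.2 hl0
  have hf_nn : ∀ k x, 0 ≤ f k x := fun k x => mul_nonneg (pow_nonneg hli.le _) (ha_nn _ _)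
  have hf_cont : ∀ k, Continuous (f k) := fun k => continuous_const.mul (ha_cont _)
  have hf_bd : ∀ k x, f k x ≤ M * q ^ (k + 1) := by
    intro k x
    have h1 := it_bd (μ := μ) hφ hM' (k + 1) x
    calc f k x ≤ lam⁻¹ ^ (k + 1) * ((∫ t, φ t ∂μ) ^ (k + 1) * M) :=
          mul_le_mul_of_nonneg_left h1 (pow_nonneg hli.le _)
      _ = M * q ^ (k + 1) := by
          rw [hq, div_pow, inv_pow]
          field_simp
  have hsum : Summable (fun k : ℕ => M * q ^ (k + 1)) := by
    have h1 := (summable_geometric_of_lt_one hq0.le hq1).mul_left (M * q)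
    refine h1.congr fun k => ?_
    rw [pow_succ]
    ring
  have hfs : ∀ x, Summable (fun k => f k x) := fun x =>
    Summable.of_nonneg_of_le (fun k => hf_nn k x) (fun k => hf_bd k x) hsum
  set v : G → ℝ := fun x => ∑' k, f k x with hv
  have hv_cont : Continuous v := by
    refine continuous_tsum hf_cont hsum fun k x => ?_
    rw [Real.norm_of_nonneg (hf_nn k x)]
    exact hf_bd k x
  have hv_nn : ∀ x, 0 ≤ v x := fun x => tsum_nonneg fun k => hf_nn k x
  -- the operator
  have hAv : ∀ x, A μ φ v x = lam * v x - a 1 x := by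
    intro x
    have hF : ∀ k, Integrable (fun t => φ (x⁻¹ * t) * f k t) μ := fun k =>
      A_int hφ (hf_cont k) x
    have hFe : ∀ k, ∫ t, φ (x⁻¹ * t) * f k t ∂μ = lam * f (k + 1) x := by
      intro k
      have h1 : A μ φ (fun y => lam⁻¹ ^ (k + 1) * a (k + 1) y) x =
          lam⁻¹ ^ (k + 1) * A μ φ (a (k + 1)) x := A_smul _ _ _
      have h2 : ∫ t, φ (x⁻¹ * t) * f k t ∂μ = A μ φ (fun y => lam⁻¹ ^ (k + 1) * a (k + 1) y) x :=
        rfl
      rw [h2, h1, ← ha_succ]
      simp only [hf]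
      rw [pow_succ lam⁻¹ (k + 1)]
      field_simp
    have hnorm : Summable (fun k => ∫ t, ‖φ (x⁻¹ * t) * f k t‖ ∂μ) := by
      have h1 : ∀ k, ∫ t, ‖φ (x⁻¹ * t) * f k t‖ ∂μ = lam * f (k + 1) x := by
        intro k
        rw [← hFe k]
        congr 1
        funext t
        rw [Real.norm_of_nonneg (mul_nonneg (hφ.nn _) (hf_nn k t))]
      simp only [h1]
      exact ((summable_nat_add_iff 1).2 (hfs x)).mul_left lam
    have h1 := (hasSum_integral_of_summable_integral_norm hF hnorm).tsum_eq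
    have h2 : ∀ t, ∑' k, φ (x⁻¹ * t) * f k t = φ (x⁻¹ * t) * v t := fun t => tsum_mul_left
    simp only [h2, hFe] at h1
    have h3 : A μ φ v x = ∑' k, lam * f (k + 1) x := h1.symm
    rw [h3, tsum_mul_left]
    have h4 := (hfs x).tsum_eq_zero_add
    have h5 : f 0 x = lam⁻¹ * a 1 x := by
      simp only [hf, zero_add, pow_one]
    have h6 : v x = f 0 x + ∑' k, f (k + 1) x := h4
    rw [h6, h5]
    field_simp
    ring
  have hAle : ∀ x, A μ φ v x ≤ lam * v x := fun x => by
    rw [hAv x]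
    linarith [ha_nn 1 x]
  refine ⟨v, hv_cont, hv_nn, ?_, ?_, ⟨(RR φ) ^ 2, ?_, ?_⟩, RR φ, M * ∑' k : ℕ, √q ^ (k + 1), √q,
    RR_cpt hφ, Real.sqrt_pos.2 hq0, ?_, ?_⟩
  · -- positivity at 1
    have h1 : f 0 1 ≤ v 1 := (hfs 1).le_tsum 0 fun k _ => hf_nn k 1
    refine lt_of_lt_of_le ?_ h1
    have h2 : f 0 1 = lam⁻¹ * A μ φ φ 1 := by
      simp only [hf, zero_add, pow_one]
      rfl
    rw [h2]
    refine mul_pos hli ?_
    have h3 : A μ φ φ 1 = ∫ t, φ t * φ t ∂μ := by
      unfold A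
      simp only [inv_one, one_mul]
    rw [h3]
    refine (hφ.cont.mul hφ.cont).integral_pos_of_hasCompactSupport_nonneg_nonzero
      (x := 1) hφ.supp.mul_right (fun t => mul_nonneg (hφ.nn t) (hφ.nn t)) ?_
    exact mul_ne_zero hφ0 hφ0
  · -- the class
    intro N hN
    refine ⟨fun x => φ x + v x, hφ.cont.add hv_cont, fun x => add_nonneg (hφ.nn x) (hv_nn x),
      fun x => ?_, fun x => ?_⟩
    · rw [A_add hφ hφ.cont hv_cont, hAv x]
      have h1 : a 1 x = A μ φ φ x := rfl
      rw [h1]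
      ring
    · obtain ⟨m, rfl⟩ : ∃ m, N = m + 1 := ⟨N - 1, by omega⟩
      have hAu : A μ φ (fun x => φ x + v x) = fun x => lam * v x := by
        funext y
        rw [A_add hφ hφ.cont hv_cont, hAv y]
        have h1 : a 1 y = A μ φ φ y := rfl
        rw [h1]
        ring
      rw [Function.iterate_succ_apply, hAu]
      have key : ∀ (m : ℕ) (x : G), ((A μ φ)^[m] (fun x => lam * v x)) x ≤ lam ^ (m + 1) * v x := by
        intro m
        induction m with
        | zero =>
          intro x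
          rw [zero_add, pow_one]
          exact le_refl _
        | succ m ih =>
          intro x
          rw [Function.iterate_succ_apply']
          have h0 : A μ φ ((A μ φ)^[m] fun x => lam * v x) x ≤
              A μ φ (fun y => lam ^ (m + 1) * v y) x :=
            A_mono hφ (it_cont hφ (continuous_const.mul hv_cont) m)
              (continuous_const.mul hv_cont) ih x
          refine h0.trans ?_
          have h1 : A μ φ (fun y => lam ^ (m + 1) * v y) x = lam ^ (m + 1) * A μ φ v x :=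
            A_smul _ _ _
          rw [h1, pow_succ lam (m + 1), mul_assoc]
          exact mul_le_mul_of_nonneg_left (hAle x) (pow_nonneg hl0.le _)
      refine (key m x).trans ?_
      have h2 : 0 ≤ lam ^ (m + 1) * v x := mul_nonneg (pow_nonneg hl0.le _) (hv_nn x)
      linarith
  · rw [pow_two]
    exact (RR_cpt hφ).mul (RR_cpt hφ)
  · intro x hx
    rw [hAv x]
    have h1 : a 1 x = 0 := it_zero (by omega) hx
    rw [h1, sub_zero]
  · rw [Real.sqrt_lt' one_pos, one_pow]
    exact hq1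
  · intro n x hx
    have hs0 : 0 ≤ √q := Real.sqrt_nonneg q
    have hs1 : √q < 1 := by
      rw [Real.sqrt_lt' one_pos, one_pow]
      exact hq1
    have hss : Summable (fun k : ℕ => √q ^ (k + 1)) :=
      (summable_nat_add_iff 1).2 (summable_geometric_of_lt_one hs0 hs1)
    have hterm : ∀ k, f k x ≤ M * √q ^ n * √q ^ (k + 1) := by
      intro k
      rcases Nat.lt_or_ge n (k + 2) with hk | hk
      · refine (hf_bd k x).trans ?_
        have h1 : q ^ (k + 1) = √q ^ (k + 1) * √q ^ (k + 1) := by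
          rw [← mul_pow, Real.mul_self_sqrt hq0.le]
        rw [h1, mul_assoc]
        refine mul_le_mul_of_nonneg_left ?_ hM0
        refine mul_le_mul_of_nonneg_right ?_ (pow_nonneg hs0 _)
        exact pow_le_pow_of_le_one hs0 hs1.le (by omega)
      · have h1 : f k x = 0 := by
          have h2 : a (k + 1) x = 0 := it_zero (by omega) hx
          simp only [hf, h2, mul_zero]
        rw [h1]
        exact mul_nonneg (mul_nonneg hM0 (pow_nonneg hs0 _)) (pow_nonneg hs0 _)
    have h1 : v x ≤ ∑' k : ℕ, M * √q ^ n * √q ^ (k + 1) :=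
      (hfs x).tsum_le_tsum hterm (hss.mul_left _)
    rw [tsum_mul_left] at h1
    refine h1.trans (le_of_eq ?_)
    ring

end Pool.Agent.Lib.MP_3e27e0_al.LC
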