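import Pool.Agent.Lib.MP_3e27e0_al.LC.Op

/-!
# Project LC: pointwise limits of functions with a common modulus
-/

set_option autoImplicit false

open MeasureTheory Topology Filter

open scoped Pointwise

namespace Pool.Agent.Lib.MP_3e27e0_al.LC

variable {G : Type*} [Group G] [TopologicalSpace G] [IsTopologicalGroup G] [LocallyCompactSpace G]
  [T2Space G] [MeasurableSpace G] [BorelSpace G] {μ : Measure G} [μ.IsHaarMeasure] {φ : G → ℝ}
  {Q : Set G} {ω : G → ℝ}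

private theorem tendsto_inv_mul (x : G) : Tendsto (fun y => x⁻¹ * y) (𝓝 x) (𝓝 (1 : G)) := by
  have h1 : Continuous (fun y : G => x⁻¹ * y) := continuous_const.mul continuous_id
  have h2 := h1.tendsto x
  rwa [inv_mul_cancel] at h2

/-- A pointwise limit has the same modulus (and is continuous). -/
theorem mod_lim (hω : IsMod Q ω) (hQ : Q ∈ 𝓝 (1 : G)) {ι : Type*} (U : Filter ι) [U.NeBot]
    (v : ι → G → ℝ) (hv : ∀ᶠ j in U, Mod Q ω (v j)) (h : G → ℝ)
    (hlim : ∀ x, Tendsto (fun j => v j x) U (𝓝 (h x))) : Mod Q ω h := by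
  have hnn : ∀ x, 0 ≤ h x := fun x =>
    ge_of_tendsto (hlim x) (hv.mono fun j hj => hj.2.1 x)
  have hmod : ∀ x, ∀ s ∈ Q, |h (x * s) - h x| ≤ ω s * h x := by
    intro x s hs
    refine le_of_tendsto_of_tendsto ((hlim (x * s)).sub (hlim x)).abs
      ((hlim x).const_mul (ω s)) (hv.mono fun j hj => hj.2.2 x s hs)
  refine ⟨?_, hnn, hmod⟩
  rw [continuous_iff_continuousAt]
  intro x
  have h1 : Tendsto (fun y => ω (x⁻¹ * y) * h x) (𝓝 x) (𝓝 0) := by
    have h2 := (hω.lim.comp (tendsto_inv_mul x)).mul_const (h x)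
    rwa [zero_mul] at h2
  have h2 : ∀ᶠ y in 𝓝 x, |h y - h x| ≤ ω (x⁻¹ * y) * h x := by
    filter_upwards [(tendsto_inv_mul x).eventually_mem hQ] with y hy
    have h3 := hmod x (x⁻¹ * y) hy
    rwa [mul_inv_cancel_left] at h3
  have h3 : Tendsto (fun y => h y - h x) (𝓝 x) (𝓝 0) := squeeze_zero_norm' h2 h1
  have h4 := h3.add_const (h x)
  simpa [ContinuousAt] using h4

/-- The operator passes to the limit (uniform convergence on compact sets by the modulus). -/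
theorem A_lim (hφ : Kc φ) (hω : IsMod Q ω) (hQ : Q ∈ 𝓝 (1 : G)) {ι : Type*} (U : Filter ι) [U.NeBot]
    (v : ι → G → ℝ) (hv : ∀ᶠ j in U, Mod Q ω (v j)) (h : G → ℝ)
    (hlim : ∀ x, Tendsto (fun j => v j x) U (𝓝 (h x))) (x : G) :
    Tendsto (fun j => A μ φ (v j) x) U (𝓝 (A μ φ h x)) := by
  have hm : Mod Q ω h := mod_lim hω hQ U v hv h hlim
  set K : Set G := (fun t => x * t) '' tsupport φ with hKdef
  have hK : IsCompact K := hφ.supp.isCompact.image (continuous_const.mul continuous_id)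
  have hout : ∀ t, t ∉ K → φ (x⁻¹ * t) = 0 := by
    intro t ht
    by_contra h0
    refine ht ⟨x⁻¹ * t, subset_tsupport φ h0, ?_⟩
    simp
  obtain ⟨M, hM⟩ : ∃ M : ℝ, ∀ t ∈ K, h t ≤ M := by
    obtain ⟨M, hM⟩ := hK.bddAbove_image hm.1.continuousOn
    exact ⟨M, fun t ht => hM ⟨t, ht, rfl⟩⟩
  set M' : ℝ := max M 0 with hM'
  have hM'0 : 0 ≤ M' := le_max_right _ _
  have hM'1 : ∀ t ∈ K, h t ≤ M' := fun t ht => (hM t ht).trans (le_max_left _ _)
  set I : ℝ := ∫ t, φ t ∂μ with hI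
  have hI0 : 0 ≤ I := integral_nonneg hφ.nn
  rw [Metric.tendsto_nhds]
  intro ε hε
  set δ : ℝ := min 1 (ε / ((I + 1) * (2 * M' + 2))) with hδ
  have hδ0 : 0 < δ := lt_min one_pos (by positivity)
  have hδ1 : δ ≤ 1 := min_le_left _ _
  have hδ2 : δ * ((I + 1) * (2 * M' + 2)) ≤ ε := by
    have h1 : δ ≤ ε / ((I + 1) * (2 * M' + 2)) := min_le_right _ _
    rwa [le_div_iff₀ (by positivity)] at h1
  have hV : {s | s ∈ Q ∧ ω s < δ} ∈ 𝓝 (1 : G) :=
    Filter.inter_mem hQ (hω.lim.eventually_lt_const hδ0)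
  obtain ⟨F, hFK, hF⟩ := hK.elim_nhds_subcover (fun k => {t | k⁻¹ * t ∈ {s | s ∈ Q ∧ ω s < δ}})
    (fun k _ => (tendsto_inv_mul k).eventually_mem hV)
  have hFev : ∀ᶠ j in U, ∀ k ∈ F, |v j k - h k| < δ := by
    rw [Filter.eventually_all_finset]
    intro k _
    have h1 := (Metric.tendsto_nhds.1 (hlim k)) δ hδ0
    exact h1.mono fun j hj => by rwa [Real.dist_eq] at hj
  filter_upwards [hv, hFev] with j hj hFj
  have hkey : ∀ t ∈ K, |v j t - h t| ≤ δ * (2 * M' + 2) := by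
    intro t ht
    obtain ⟨k, hk, hkt⟩ := Set.mem_iUnion₂.1 (hF ht)
    obtain ⟨hsQ, hsω⟩ : k⁻¹ * t ∈ Q ∧ ω (k⁻¹ * t) < δ := hkt
    have h1 := hj.2.2 k (k⁻¹ * t) hsQ
    have h2 := hm.2.2 k (k⁻¹ * t) hsQ
    rw [mul_inv_cancel_left] at h1 h2
    have h3 := hFj k hk
    have h4 := hM'1 k (hFK k hk)
    have h5 := hj.2.1 k
    have h6 := hm.2.1 k
    have h7 := hω.nn (k⁻¹ * t)
    have h8 : v j k ≤ M' + 1 := by
      have := (abs_lt.1 h3).2
      linarith
    have h9 : ω (k⁻¹ * t) * v j k ≤ δ * (M' + 1) :=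
      mul_le_mul hsω.le h8 h5 hδ0.le
    have h10 : ω (k⁻¹ * t) * h k ≤ δ * M' := mul_le_mul hsω.le h4 h6 hδ0.le
    have h11 := abs_le.1 (h1.trans h9)
    have h12 := abs_le.1 (h2.trans h10)
    have h13 := abs_lt.1 h3
    rw [abs_le]
    constructor <;> nlinarith [h11.1, h11.2, h12.1, h12.2, h13.1, h13.2]
  have hc : Continuous (fun _ : G => δ * (2 * M' + 2)) := continuous_const
  have hdiff : A μ φ (v j) x - A μ φ h x = ∫ t, φ (x⁻¹ * t) * (v j t - h t) ∂μ := by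
    unfold A
    rw [← integral_sub (A_int hφ hj.1 x) (A_int hφ hm.1 x)]
    refine integral_congr_ae (Filter.Eventually.of_forall fun t => ?_)
    show φ (x⁻¹ * t) * v j t - φ (x⁻¹ * t) * h t = φ (x⁻¹ * t) * (v j t - h t)
    ring
  have hle : ‖∫ t, φ (x⁻¹ * t) * (v j t - h t) ∂μ‖ ≤ A μ φ (fun _ => δ * (2 * M' + 2)) x := by
    unfold A
    refine norm_integral_le_of_norm_le (A_int hφ hc x) (Filter.Eventually.of_forall fun t => ?_)
    rw [norm_mul, Real.norm_eq_abs, Real.norm_eq_abs, abs_of_nonneg (hφ.nn _)]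
    by_cases ht : t ∈ K
    · exact mul_le_mul_of_nonneg_left (hkey t ht) (hφ.nn _)
    · rw [hout t ht, zero_mul, zero_mul]
  rw [A_const] at hle
  rw [Real.dist_eq, hdiff, ← Real.norm_eq_abs]
  refine lt_of_le_of_lt hle ?_
  have h1 : 0 < δ * (2 * M' + 2) := by positivity
  calc I * (δ * (2 * M' + 2)) < (I + 1) * (δ * (2 * M' + 2)) := by nlinarith
    _ = δ * ((I + 1) * (2 * M' + 2)) := by ring
    _ ≤ ε := hδ2

end Pool.Agent.Lib.MP_3e27e0_al.LC
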