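import Pool.Agent.Lib.MP_3e27e0_al.LC.Hk
import Pool.Agent.Lib.MP_3e27e0_al.LC.Lim

/-!
# Project LC: the normalised positive eigenfunctions form a system
-/

set_option autoImplicit false

open MeasureTheory Topology

open scoped Pointwise

namespace Pool.Agent.Lib.MP_3e27e0_al.LC

variable {G : Type*} [Group G] [TopologicalSpace G] [IsTopologicalGroup G] [LocallyCompactSpace G]
  [T2Space G] [MeasurableSpace G] [BorelSpace G] {μ : Measure G} [μ.IsHaarMeasure] {φ : G → ℝ}
  {Q : Set G}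

/-- A linear combination of two continuous functions. -/
private theorem A_comb (hφ : Kc φ) {h k : G → ℝ} (hh : Continuous h) (hk : Continuous k)
    (s t : ℝ) (x : G) :
    A μ φ (fun y => s * h y + t * k y) x = s * A μ φ h x + t * A μ φ k x := by
  have h1 := A_add (μ := μ) hφ (h := fun y => s * h y) (k := fun y => t * k y) (by fun_prop)
    (by fun_prop) x
  rw [A_smul, A_smul] at h1
  exact h1

private theorem har_comb (hφ : Kc φ) {lam : ℝ} {h k : G → ℝ} (hh : Har μ φ lam h)
    (hk : Har μ φ lam k) (s t : ℝ) (hst : s + t = 1) (hnn : ∀ x, 0 ≤ s * h x + t * k x) :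
    Har μ φ lam (fun y => s * h y + t * k y) := by
  refine ⟨(continuous_const.mul hh.cont).add (continuous_const.mul hk.cont), hnn, fun x => ?_, ?_⟩
  · rw [A_comb hφ hh.cont hk.cont, hh.eig, hk.eig]
    ring
  · rw [hh.one, hk.one, mul_one, mul_one, hst]

/-- The normalised translate. -/
private theorem har_trans {lam : ℝ} {h : G → ℝ} (hh : Har μ φ lam h) (g : G) (hg : 0 < h g) :
    Har μ φ lam (fun x => (h g)⁻¹ * h (g * x)) := by
  refine ⟨continuous_const.mul (hh.cont.comp (continuous_const.mul continuous_id)), fun x =>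
    mul_nonneg (inv_nonneg.2 hg.le) (hh.nn _), fun x => ?_, ?_⟩
  · rw [A_smul, A_trans, hh.eig]
    ring
  · rw [mul_one, inv_mul_cancel₀ hg.ne']

/-- Compare `CM/Har.lean` (graphs). -/
theorem har_sys (hφ : Kc φ) (hQ : Gen Q) (hB : Big φ Q) (lam : ℝ) (hlam : 0 < lam) :
    Sys {h : G → ℝ | Har μ φ lam h} := by
  obtain ⟨N, ω, -, hω, hcls⟩ := cls_mod (μ := μ) hφ hQ hB lam hlam
  obtain ⟨B, hωB⟩ := hω.bdd
  have hmod : ∀ h : G → ℝ, Har μ φ lam h → Mod Q ω h := fun h hh => hcls h (hh.cls hlam N)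
  have hpow : ∀ h : G → ℝ, Har μ φ lam h → ∀ (n : ℕ) (x s : G), s ∈ Q ^ n →
      h (x * s) ≤ (1 + B) ^ n * h x := fun h hh n x s hs => (hmod h hh).pow hω hωB n x s hs
  have hpos : ∀ h : G → ℝ, Har μ φ lam h → ∀ x, 0 < h x := by
    intro h hh x
    obtain ⟨n, hn⟩ := hQ.gen x⁻¹
    have h1 := hpow h hh n x x⁻¹ hn
    rw [mul_inv_cancel, hh.one] at h1
    refine lt_of_le_of_ne (hh.nn x) fun h0 => ?_
    rw [← h0, mul_zero] at h1
    linarith
  refine ⟨hpos, fun h hh => hh.one, fun h hh g => har_trans hh g (hpos h hh g), ?_, ?_, ?_, ?_,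
    ?_, fun h hh => hh.cont⟩
  · intro ε hε
    have h1 : ∀ᶠ s in 𝓝 (1 : G), ω s < ε := hω.lim.eventually (gt_mem_nhds hε)
    refine ⟨{s | s ∈ Q ∧ ω s < ε}, Filter.inter_mem hQ.nhd h1, fun h hh x v hv => ?_⟩
    have h2 := (hmod h hh).2.2 x v hv.1
    have h3 := le_abs_self (h (x * v) - h x)
    have h4 : ω v * h x ≤ ε * h x := mul_le_mul_of_nonneg_right hv.2.le (hh.nn x)
    linarith
  · intro D hD
    obtain ⟨n, hn⟩ := hQ.subset D hD
    exact ⟨(1 + B) ^ n, fun h hh x d hd => hpow h hh n x d (hn hd)⟩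
  · choose n hn using hQ.gen
    have hcpt : IsCompact (Set.pi Set.univ fun x : G => Set.Icc (0 : ℝ) ((1 + B) ^ n x)) :=
      isCompact_univ_pi fun x => isCompact_Icc
    refine hcpt.of_isClosed_subset ?_ fun h hh x _ => ?_
    · rw [← closure_subset_iff_isClosed]
      intro h hh
      obtain ⟨U, hUs, hU⟩ := mem_closure_iff_ultrafilter.1 hh
      have hlim : ∀ x, Filter.Tendsto (fun j : G → ℝ => j x) (U : Filter (G → ℝ)) (𝓝 (h x)) :=
        fun x => ((continuous_apply x).tendsto h).mono_left hU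
      have hev : ∀ᶠ j in (U : Filter (G → ℝ)), Har μ φ lam j := hUs
      have hevm : ∀ᶠ j in (U : Filter (G → ℝ)), Mod Q ω j := hev.mono fun j hj => hmod j hj
      have hm := mod_lim hω hQ.nhd (U : Filter (G → ℝ)) (fun j => j) hevm h hlim
      refine ⟨hm.1, hm.2.1, fun x => ?_, ?_⟩
      · have h1 := A_lim (μ := μ) hφ hω hQ.nhd (U : Filter (G → ℝ)) (fun j => j) hevm h hlim x
        have h2 : Filter.Tendsto (fun j : G → ℝ => lam * j x) (U : Filter (G → ℝ))
            (𝓝 (lam * h x)) := (hlim x).const_mul lam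
        refine tendsto_nhds_unique h1 (h2.congr' ?_)
        exact hev.mono fun j hj => (hj.eig x).symm
      · refine tendsto_nhds_unique (hlim 1) (tendsto_const_nhds.congr' ?_)
        exact hev.mono fun j hj => hj.one.symm
    · have h1 := hpow h hh (n x) 1 x (hn x)
      rw [one_mul, hh.one, mul_one] at h1
      exact ⟨hh.nn x, h1⟩
  · intro h hh k hk s t hs ht hst
    exact har_comb hφ hh hk s t hst fun x =>
      add_nonneg (mul_nonneg hs (hh.nn x)) (mul_nonneg ht (hk.nn x))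
  · intro h hh k hk t ht0 ht1 hle
    have h1t : 0 < 1 - t := by linarith
    have hne : (1 - t) ≠ 0 := h1t.ne'
    have h2 := har_comb hφ hh hk (1 - t)⁻¹ (-((1 - t)⁻¹ * t)) (by field_simp; ring) (fun x => by
      have h3 : 0 ≤ (1 - t)⁻¹ * (h x - t * k x) :=
        mul_nonneg (inv_nonneg.2 h1t.le) (by linarith [hle x])
      linarith)
    have e : (fun x => (1 - t)⁻¹ * (h x - t * k x)) =
        fun y => (1 - t)⁻¹ * h y + -((1 - t)⁻¹ * t) * k y := by
      funext y
      ring
    change Har μ φ lam (fun x => (1 - t)⁻¹ * (h x - t * k x))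
    rw [e]
    exact h2

end Pool.Agent.Lib.MP_3e27e0_al.LC
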