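import Pool.Agent.Lib.MP_3e27e0_al.LC.Def

/-!
# Project LC: existence of a generating set and of a kernel
-/

set_option autoImplicit false

open MeasureTheory Topology

open scoped Pointwise

namespace Pool.Agent.Lib.MP_3e27e0_al.LC

variable {G : Type*} [Group G] [TopologicalSpace G] [IsTopologicalGroup G] [LocallyCompactSpace G]
  [T2Space G]

/-- Take `Q = S ∪ S⁻¹ ∪ V ∪ V⁻¹` with `V` a compact neighbourhood of 1. -/
theorem exists_gen (S : Set G) (hS : IsCompact S) (hg : Subgroup.closure S = ⊤) :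
    ∃ Q : Set G, Gen Q := by
  obtain ⟨V, hV, hV1⟩ := exists_compact_mem_nhds (1 : G)
  obtain ⟨Q, hQ⟩ : ∃ Q : Set G, Q = (S ∪ S⁻¹) ∪ (V ∪ V⁻¹) := ⟨_, rfl⟩
  have hinv : ∀ q ∈ Q, q⁻¹ ∈ Q := by
    intro q hq
    rw [hQ] at hq ⊢
    rcases hq with (h | h) | (h | h)
    · exact Or.inl (Or.inr (by rwa [Set.mem_inv, inv_inv]))
    · exact Or.inl (Or.inl h)
    · exact Or.inr (Or.inr (by rwa [Set.mem_inv, inv_inv]))
    · exact Or.inr (Or.inl h)
  have hQi : Q⁻¹ = Q := by
    ext q
    constructor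
    · intro h
      have h1 := hinv _ h
      rwa [inv_inv] at h1
    · intro h
      exact hinv q h
  refine ⟨Q, ?_, ?_, hinv, ?_⟩
  · rw [hQ]
    exact (hS.union hS.inv).union (hV.union hV.inv)
  · refine Filter.mem_of_superset hV1 ?_
    rw [hQ]
    exact fun v hv => Or.inr (Or.inl hv)
  · intro g
    have h1 : g ∈ Subgroup.closure S := by
      rw [hg]
      trivial
    induction h1 using Subgroup.closure_induction with
    | mem x hx =>
      refine ⟨1, ?_⟩
      rw [pow_one, hQ]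
      exact Or.inl (Or.inl hx)
    | one =>
      refine ⟨0, ?_⟩
      rw [pow_zero]
      exact Set.mem_one.2 rfl
    | mul x y _ _ hx hy =>
      obtain ⟨n, hn⟩ := hx
      obtain ⟨m, hm⟩ := hy
      refine ⟨n + m, ?_⟩
      rw [pow_add]
      exact Set.mul_mem_mul hn hm
    | inv x _ hx =>
      obtain ⟨n, hn⟩ := hx
      refine ⟨n, ?_⟩
      rw [← hQi, inv_pow, Set.mem_inv, inv_inv]
      exact hn

/-- A continuous function with compact support which is 1 on a given compact set. -/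
theorem exists_kc (T : Set G) (hT : IsCompact T) : ∃ φ : G → ℝ, Kc φ ∧ (∀ t ∈ T, 1 ≤ φ t) ∧
    ∀ t, φ t ≤ 1 := by
  obtain ⟨f, h1, -, h3, h4⟩ := exists_continuous_one_zero_of_isCompact hT
    (isClosed_empty (X := G)) (Set.disjoint_empty T)
  exact ⟨f, ⟨f.continuous, h3, fun t => (h4 t).1⟩, fun t ht => (h1 ht).ge, fun t => (h4 t).2⟩

end Pool.Agent.Lib.MP_3e27e0_al.LC
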