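import Pool.Agent.Lib.MP_3e27e0_al.LC.Low
import Pool.Agent.Lib.MP_3e27e0_al.LC.Kex

/-!
# Project LC: the Harnack inequality
-/

set_option autoImplicit false

open MeasureTheory Topology

open scoped Pointwise

namespace Pool.Agent.Lib.MP_3e27e0_al.LC

variable {G : Type*} [Group G] [TopologicalSpace G] [IsTopologicalGroup G] [LocallyCompactSpace G]
  [T2Space G] [MeasurableSpace G] [BorelSpace G] {μ : Measure G} [μ.IsHaarMeasure] {φ : G → ℝ}
  {Q : Set G}

/-- The supremum of the differences of a kernel. -/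
private noncomputable def hkE (φ : G → ℝ) (s : G) : ℝ :=
  sSup (Set.range fun t => |φ (s⁻¹ * t) - φ t|)

omit [IsTopologicalGroup G] [LocallyCompactSpace G] [T2Space G] [MeasurableSpace G] [BorelSpace G]
  [TopologicalSpace G] in
private theorem hkE_nn (φ : G → ℝ) (s : G) : 0 ≤ hkE φ s := by
  refine Real.sSup_nonneg ?_
  rintro _ ⟨t, rfl⟩
  exact abs_nonneg _

omit [IsTopologicalGroup G] [LocallyCompactSpace G] [T2Space G] [MeasurableSpace G] [BorelSpace G]
  [TopologicalSpace G] in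
private theorem hkE_le (φ : G → ℝ) (s : G) {e : ℝ} (h : ∀ t, |φ (s⁻¹ * t) - φ t| ≤ e) :
    hkE φ s ≤ e := by
  refine csSup_le (Set.range_nonempty _) ?_
  rintro _ ⟨t, rfl⟩
  exact h t

/-- Use `exists_kc` with `T = Q * tsupport φ`, `low`, `A_diff`, `kc_unif` (with
`ω s = (2 lam^N / (c lam)) * sup_t |φ (s⁻¹ t) - φ t|`). -/
theorem cls_mod (hφ : Kc φ) (hQ : Gen Q) (hB : Big φ Q) (lam : ℝ) (hlam : 0 < lam) :
    ∃ (N : ℕ) (ω : G → ℝ), 1 ≤ N ∧ IsMod Q ω ∧ ∀ v, Cls μ φ N lam v → Mod Q ω v := by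
  obtain ⟨ψ, hψ, hψ1, _⟩ := exists_kc (Q * tsupport φ) (hQ.cpt.mul hφ.supp)
  obtain ⟨N, c, hN1, hc, hlow⟩ := low (μ := μ) hφ hψ hQ hB
  obtain ⟨⟨B, hBd⟩, hlim⟩ := kc_unif hφ
  have hκ : 0 ≤ 2 * lam ^ N / (c * lam) := by positivity
  have hle : ∀ s t, |φ (s⁻¹ * t) - φ t| ≤ hkE φ s := fun s t =>
    le_csSup ⟨B, by rintro _ ⟨t, rfl⟩; exact hBd s t⟩ ⟨t, rfl⟩
  refine ⟨N, fun s => 2 * lam ^ N / (c * lam) * hkE φ s, hN1, ⟨fun s => mul_nonneg hκ (hkE_nn φ s),
    ⟨2 * lam ^ N / (c * lam) * B, fun s _ => mul_le_mul_of_nonneg_left (hkE_le φ s (hBd s)) hκ⟩,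
    ?_⟩, ?_⟩
  · have h1 : Filter.Tendsto (hkE φ) (𝓝 1) (𝓝 0) := by
      rw [Metric.tendsto_nhds]
      intro e he
      filter_upwards [hlim (e / 2) (by linarith)] with s hs
      rw [Real.dist_eq, sub_zero, abs_of_nonneg (hkE_nn φ s)]
      have := hkE_le φ s hs
      linarith
    have h2 := h1.const_mul (2 * lam ^ N / (c * lam))
    rwa [mul_zero] at h2
  · rintro v ⟨u, hu, hu0, huv, hN⟩
    have hv : v = fun x => lam⁻¹ * A μ φ u x := by
      funext x
      rw [← huv x, ← mul_assoc, inv_mul_cancel₀ hlam.ne', one_mul]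
    refine ⟨?_, ?_, ?_⟩
    · rw [hv]
      exact continuous_const.mul (A_cont hφ hu)
    · intro x
      rw [hv]
      exact mul_nonneg (inv_nonneg.2 hlam.le) (A_nn hφ hu0 x)
    · intro x s hs
      have h1 := A_diff (μ := μ) hφ hψ hψ1 (mem_of_mem_nhds hQ.nhd) hu hu0 x s hs (hkE φ s) (hle s)
      have h2 := hlow u hu hu0 x
      have h3 := hN x
      have h4 : lam * |v (x * s) - v x| = |A μ φ u (x * s) - A μ φ u x| := by
        rw [← huv, ← huv, ← mul_sub, abs_mul, abs_of_pos hlam]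
      have h5 : A μ ψ u x ≤ 2 * lam ^ N * v x / c := by
        rw [le_div_iff₀ hc]
        linarith
      have h6 : lam * |v (x * s) - v x| ≤ hkE φ s * (2 * lam ^ N * v x / c) := by
        rw [h4]
        exact h1.trans (mul_le_mul_of_nonneg_left h5 (hkE_nn φ s))
      have h7 : |v (x * s) - v x| ≤ lam⁻¹ * (hkE φ s * (2 * lam ^ N * v x / c)) := by
        rw [← div_eq_inv_mul, le_div_iff₀ hlam]
        linarith
      refine h7.trans (le_of_eq ?_)
      field_simp

/-- Eigenfunctions are in the class. -/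
theorem Har.cls {lam : ℝ} (hlam : 0 < lam) {h : G → ℝ} (hh : Har μ φ lam h) (N : ℕ) :
    Cls μ φ N lam h := by
  refine ⟨h, hh.cont, hh.nn, fun x => (hh.eig x).symm, fun x => ?_⟩
  have h1 : ∀ n : ℕ, (A μ φ)^[n] h = fun x => lam ^ n * h x := by
    intro n
    induction n with
    | zero =>
      funext x
      simp
    | succ n ih =>
      rw [Function.iterate_succ_apply', ih]
      funext x
      rw [A_smul, hh.eig]
      ring
  rw [h1]
  have h2 : 0 ≤ lam ^ N * h x := mul_nonneg (pow_nonneg hlam.le N) (hh.nn x)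
  change lam ^ N * h x ≤ 2 * lam ^ N * h x
  linarith

theorem Mod.pow {ω : G → ℝ} (hω : IsMod Q ω) {B : ℝ} (hB : ∀ s ∈ Q, ω s ≤ B) {v : G → ℝ}
    (hv : Mod Q ω v) (n : ℕ) (x s : G) (hs : s ∈ Q ^ n) : v (x * s) ≤ (1 + B) ^ n * v x := by
  induction n generalizing s with
  | zero =>
    rw [pow_zero, Set.mem_one] at hs
    subst hs
    simp
  | succ n ih =>
    rw [pow_succ, Set.mem_mul] at hs
    obtain ⟨s1, hs1, s2, hs2, rfl⟩ := hs
    have h1 := hv.2.2 (x * s1) s2 hs2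
    have h2 := ih s1 hs1
    have h3 := hB s2 hs2
    have h4 := hω.nn s2
    have h5 := hv.2.1 (x * s1)
    have h6 := (le_abs_self _).trans h1
    have h7 : ω s2 * v (x * s1) ≤ B * v (x * s1) := mul_le_mul_of_nonneg_right h3 h5
    rw [← mul_assoc]
    calc v (x * s1 * s2) ≤ (1 + B) * v (x * s1) := by linarith
      _ ≤ (1 + B) * ((1 + B) ^ n * v x) := mul_le_mul_of_nonneg_left h2 (by linarith)
      _ = (1 + B) ^ (n + 1) * v x := by ring

/-- A compact set is contained in a power of `Q`. -/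
theorem Gen.subset (hQ : Gen Q) (D : Set G) (hD : IsCompact D) : ∃ n : ℕ, D ⊆ Q ^ n := by
  have h1 : (1 : G) ∈ Q := mem_of_mem_nhds hQ.nhd
  have hmono : Monotone fun n : ℕ => Q ^ n := by
    refine monotone_nat_of_le_succ fun n => ?_
    rw [pow_succ]
    intro g hg
    exact ⟨g, hg, 1, h1, mul_one g⟩
  have hcov : D ⊆ ⋃ n : ℕ, interior (Q ^ n) := by
    intro g _
    obtain ⟨n, hn⟩ := hQ.gen g
    rw [Set.mem_iUnion]
    refine ⟨n + 1, ?_⟩
    rw [mem_interior_iff_mem_nhds, pow_succ]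
    have h2 : (fun x => g * x) '' Q ∈ 𝓝 g := by
      have h3 := (Homeomorph.mulLeft g).isOpenMap.image_mem_nhds hQ.nhd
      simpa only [Homeomorph.coe_mulLeft, mul_one] using h3
    refine Filter.mem_of_superset h2 ?_
    rintro _ ⟨q, hq, rfl⟩
    exact ⟨g, hn, q, hq, rfl⟩
  obtain ⟨n, hn⟩ := hD.elim_directed_cover (fun n : ℕ => interior (Q ^ n))
    (fun _ => isOpen_interior) hcov (Monotone.directed_le fun a b hab =>
      interior_mono (hmono hab))
  exact ⟨n, hn.trans interior_subset⟩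

end Pool.Agent.Lib.MP_3e27e0_al.LC
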