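import Pool.Agent.Lib.MP_3e27e0_al.LC.Hk
import Pool.Agent.Lib.MP_3e27e0_al.LC.Lim
import Pool.Agent.Lib.MP_3e27e0_al.LC.Green

/-!
# Project LC: eigenfunctions which grow along an element, uniformly
-/

set_option autoImplicit false

open MeasureTheory Topology

open scoped Pointwise

namespace Pool.Agent.Lib.MP_3e27e0_al.LC

variable {G : Type*} [Group G] [TopologicalSpace G] [IsTopologicalGroup G] [LocallyCompactSpace G]
  [T2Space G] [MeasurableSpace G] [BorelSpace G] {μ : Measure G} [μ.IsHaarMeasure] {φ : G → ℝ}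
  {Q : Set G}

/-- A sequence with geometric decay decreases infinitely often by a factor which depends only on the
rate. -/
private theorem lm_seq (θ : ℝ) (hθ : 0 < θ) (hθ1 : θ < 1) (K : ℕ) (hK : 0 < K) :
    ∃ c : ℝ, 0 < c ∧ c < 1 ∧ ∀ (g : ℕ → ℝ), (∀ n, 0 < g n) → ∀ C : ℝ,
      (∀ m : ℕ, g (K * m) ≤ C * θ ^ m) → ∃ᶠ n in Filter.atTop, g (n + 1) ≤ c * g n := by
  have hKr : (1 : ℝ) ≤ K := by exact_mod_cast hK
  set a : ℝ := (1 - θ) / (2 * K) with ha
  have ha0 : 0 < a := by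
    apply div_pos <;> linarith
  have ha1 : a < 1 / 2 := by
    rw [ha, div_lt_iff₀ (by linarith)]
    nlinarith
  have hKa : (K : ℝ) * a = (1 - θ) / 2 := by
    rw [ha]
    field_simp
  refine ⟨1 - a, by linarith, by linarith, ?_⟩
  intro g hg C hb
  by_contra hcon
  rw [Filter.not_frequently] at hcon
  obtain ⟨N, hN⟩ := Filter.eventually_atTop.1 hcon
  have hlow : ∀ k : ℕ, (1 - a) ^ k * g N ≤ g (N + k) := by
    intro k
    induction k with
    | zero => simp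
    | succ k ih =>
      have h1 := hN (N + k) (by omega)
      rw [not_le] at h1
      have h2 : (0 : ℝ) ≤ 1 - a := by linarith
      calc (1 - a) ^ (k + 1) * g N = (1 - a) * ((1 - a) ^ k * g N) := by ring
        _ ≤ (1 - a) * g (N + k) := mul_le_mul_of_nonneg_left ih h2
        _ ≤ g (N + (k + 1)) := h1.le
  have hbern : (1 + θ) / 2 ≤ (1 - a) ^ K := by
    have h1 := one_add_mul_le_pow (a := -a) (by linarith) K
    have h2 : (1 : ℝ) + K * (-a) = (1 + θ) / 2 := by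
      rw [mul_neg, hKa]
      ring
    rw [h2] at h1
    have h3 : (1 : ℝ) + -a = 1 - a := by ring
    rwa [h3] at h1
  set q : ℝ := ((1 + θ) / 2) / θ with hq
  have hq1 : 1 < q := by
    rw [hq, lt_div_iff₀ hθ]
    linarith
  have hbd : ∀ m : ℕ, N ≤ m → q ^ m * g N ≤ C := by
    intro m hm
    have h1 : N ≤ K * m := hm.trans (Nat.le_mul_of_pos_left m hK)
    obtain ⟨k, hk⟩ := Nat.exists_eq_add_of_le h1
    have h2 := hlow k
    rw [← hk] at h2
    have h3 : (1 - a) ^ (K * m) ≤ (1 - a) ^ k :=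
      pow_le_pow_of_le_one (by linarith) (by linarith) (by omega)
    have h4 : ((1 + θ) / 2) ^ m ≤ (1 - a) ^ (K * m) := by
      rw [pow_mul]
      exact pow_le_pow_left₀ (by linarith) hbern m
    have h5 : ((1 + θ) / 2) ^ m * g N ≤ C * θ ^ m :=
      ((mul_le_mul_of_nonneg_right (h4.trans h3) (hg N).le).trans h2).trans (hb m)
    have h6 : q ^ m * g N = (((1 + θ) / 2) ^ m * g N) / θ ^ m := by
      rw [hq, div_pow]
      ring
    rw [h6, div_le_iff₀ (by positivity)]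
    exact h5
  have ht := (tendsto_pow_atTop_atTop_of_one_lt hq1).atTop_mul_const (hg N)
  obtain ⟨m, hm, hm2⟩ :=
    ((ht.eventually_gt_atTop C).and (Filter.eventually_ge_atTop N)).exists
  exact absurd (hbd m hm2) (not_le.2 hm)

omit [LocallyCompactSpace G] [T2Space G] [MeasurableSpace G] [BorelSpace G] in
/-- Translates and multiples of functions with a modulus. -/
private theorem lm_mod {ω : G → ℝ} {v : G → ℝ} (hv : Mod Q ω v) (c : ℝ) (hc : 0 ≤ c) (g : G) :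
    Mod Q ω (fun y => c * v (g * y)) := by
  obtain ⟨h1, h2, h3⟩ := hv
  refine ⟨continuous_const.mul (h1.comp (continuous_const.mul continuous_id)),
    fun x => mul_nonneg hc (h2 _), fun x s hs => ?_⟩
  have h4 := h3 (g * x) s hs
  rw [mul_assoc] at h4
  rw [← mul_sub, abs_mul, abs_of_nonneg hc]
  calc c * |v (g * (x * s)) - v (g * x)| ≤ c * (ω s * v (g * x)) :=
        mul_le_mul_of_nonneg_left h4 hc
    _ = ω s * (c * v (g * x)) := by ring

/-- Compare `CM/LemM.lean` (graphs). With the Green function `v` and `g n = v (f^(-n))` one has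
`g (K m) ≤ C θ^m` where `K` and `θ` do not depend on `f`, so `g (n + 1) ≤ c g n` for infinitely many `n`
with `c < 1` independent of `f`; the functions `y ↦ v (f^(-(n+1)) y) / v (f^(-(n+1)))` over these `n` have
a pointwise limit `h` along an ultrafilter, which is in `Har` (`mod_lim`, `A_lim`; the points `f^(n+1)`
leave every compact set, by the growth condition and `Gen.subset`), and `h f = lim g n / g (n+1) ≥ 1/c`.
Take for `R` the union of the set of `green` and of `Q`; `v > 0` everywhere by `Mod.pow` and `0 < v 1`. -/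
theorem lemM (hφ : Kc φ) (hQ : Gen Q) (hB : Big φ Q) (lam : ℝ) (hlam : (∫ t, φ t ∂μ) < lam)
    (hl0 : 0 < lam) :
    ∃ R : Set G, IsCompact R ∧ ∀ M : ℕ, ∃ κ : ℝ, 1 < κ ∧ ∀ f : G,
      (∀ n k : ℕ, f ^ n ∈ R ^ k → n ≤ M * (k + 1)) → ∃ h, Har μ φ lam h ∧ κ ≤ h f := by
  have h1Q : (1 : G) ∈ Q := mem_of_mem_nhds hQ.nhd
  have hφ1 : 1 ≤ φ 1 := by
    refine hB 1 ?_
    have := Set.mul_mem_mul (Set.mul_mem_mul h1Q h1Q) h1Q
    simpa using this
  obtain ⟨v, v1, v2, v3, v4, ⟨B, hBc, hBe⟩, R0, C, θ, hR0, hθ, hθ1, hdec⟩ :=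
    green (μ := μ) hφ hφ1 lam hlam hl0
  obtain ⟨N, ω, hN1, hω, hcls⟩ := cls_mod (μ := μ) hφ hQ hB lam hl0
  have hmod : Mod Q ω v := hcls v (v4 N hN1)
  obtain ⟨b, hb⟩ := hω.bdd
  have hb1 : 0 < 1 + b := by
    have := hb 1 h1Q
    have := hω.nn 1
    linarith
  have hpow := fun (u : G → ℝ) (hu : Mod Q ω u) => Mod.pow hω hb hu
  have vpos : ∀ x, 0 < v x := by
    intro x
    obtain ⟨n, hn⟩ := hQ.gen x⁻¹
    have h1 := hpow v hmod n x x⁻¹ hn
    rw [mul_inv_cancel] at h1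
    by_contra h2
    have h3 : v x = 0 := le_antisymm (not_lt.1 h2) (v2 x)
    rw [h3, mul_zero] at h1
    linarith
  have hsym : ∀ (k : ℕ) (x : G), x⁻¹ ∈ Q ^ k → x ∈ Q ^ k := by
    intro k x hx
    have h1 : Q⁻¹ ⊆ Q := by
      intro q hq
      have := hQ.inv q⁻¹ (Set.mem_inv.1 hq)
      rwa [inv_inv] at this
    have h2 : x ∈ (Q ^ k)⁻¹ := Set.mem_inv.2 hx
    rw [← inv_pow] at h2
    exact Set.pow_subset_pow_left h1 h2
  refine ⟨R0 ∪ R0⁻¹ ∪ Q, (hR0.union hR0.inv).union hQ.cpt, fun M => ?_⟩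
  obtain ⟨c, hc0, hc1, hfr⟩ := lm_seq θ hθ hθ1 (M + 1) (Nat.succ_pos M)
  refine ⟨c⁻¹, (one_lt_inv₀ hc0).2 hc1, fun f hf => ?_⟩
  have hfr1 : ∃ᶠ n in Filter.atTop, v ((f ^ (n + 1))⁻¹) ≤ c * v ((f ^ n)⁻¹) := by
    refine hfr (fun n => v ((f ^ n)⁻¹)) (fun n => vpos _) (max (v 1) (C * θ⁻¹)) ?_
    intro m
    rcases Nat.eq_zero_or_pos m with hm | hm
    · subst hm
      simp
    · obtain ⟨k, rfl⟩ := Nat.exists_eq_succ_of_ne_zero hm.ne'
      have h1 : (f ^ ((M + 1) * (k + 1)))⁻¹ ∉ R0 ^ k := by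
        intro h2
        have h3 : f ^ ((M + 1) * (k + 1)) ∈ (R0⁻¹) ^ k := by
          rw [inv_pow]
          exact Set.mem_inv.2 h2
        have h4 : R0⁻¹ ⊆ R0 ∪ R0⁻¹ ∪ Q := fun y hy => Or.inl (Or.inr hy)
        have h5 := hf _ k (Set.pow_subset_pow_left h4 h3)
        have h6 : (M + 1) * (k + 1) = M * (k + 1) + (k + 1) := by ring
        omega
      have h2 := hdec k _ h1
      calc v ((f ^ ((M + 1) * (k + 1)))⁻¹) ≤ C * θ ^ k := h2
        _ = (C * θ⁻¹) * θ ^ (k + 1) := by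
            rw [pow_succ]
            field_simp
        _ ≤ _ := mul_le_mul_of_nonneg_right (le_max_right _ _) (by positivity)
  -- the ultrafilter
  have hne : (Filter.atTop ⊓ Filter.principal
      {n : ℕ | v ((f ^ (n + 1))⁻¹) ≤ c * v ((f ^ n)⁻¹)}).NeBot :=
    Filter.frequently_mem_iff_neBot.1 hfr1
  set U : Ultrafilter ℕ := Ultrafilter.of (Filter.atTop ⊓ Filter.principal
      {n : ℕ | v ((f ^ (n + 1))⁻¹) ≤ c * v ((f ^ n)⁻¹)}) with hU
  have hUle : (U : Filter ℕ) ≤ Filter.atTop ⊓ Filter.principal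
      {n : ℕ | v ((f ^ (n + 1))⁻¹) ≤ c * v ((f ^ n)⁻¹)} := Ultrafilter.of_le _
  have hUat : (U : Filter ℕ) ≤ Filter.atTop := hUle.trans inf_le_left
  have hUs : ∀ᶠ n in (U : Filter ℕ), v ((f ^ (n + 1))⁻¹) ≤ c * v ((f ^ n)⁻¹) :=
    (hUle.trans inf_le_right) (Filter.mem_principal_self _)
  set w : ℕ → G → ℝ := fun n y => (v ((f ^ (n + 1))⁻¹))⁻¹ * v ((f ^ (n + 1))⁻¹ * y) with hw
  have hwm : ∀ n, Mod Q ω (w n) := fun n => lm_mod hmod _ (inv_nonneg.2 (v2 _)) _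
  have hw1 : ∀ n, w n 1 = 1 := by
    intro n
    rw [hw]
    simp only [mul_one]
    exact inv_mul_cancel₀ (vpos _).ne'
  choose p hp using hQ.gen
  have hcomp : IsCompact (Set.pi Set.univ fun y : G => Set.Icc (0 : ℝ) ((1 + b) ^ (p y))) :=
    isCompact_univ_pi fun y => isCompact_Icc
  have hmem : ∀ n, w n ∈ Set.pi Set.univ fun y : G => Set.Icc (0 : ℝ) ((1 + b) ^ (p y)) := by
    intro n y _
    refine ⟨(hwm n).2.1 y, ?_⟩
    have h1 := hpow (w n) (hwm n) (p y) 1 y (hp y)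
    rw [one_mul, hw1, mul_one] at h1
    exact h1
  obtain ⟨h, _, hlim⟩ := hcomp.ultrafilter_le_nhds (U.map w) (by
    rw [Ultrafilter.coe_map, Filter.le_principal_iff]
    exact Filter.mem_map.2 (Filter.univ_mem' hmem))
  have hten : Filter.Tendsto w (U : Filter ℕ) (𝓝 h) := hlim
  have hpt : ∀ y, Filter.Tendsto (fun n => w n y) (U : Filter ℕ) (𝓝 (h y)) := fun y =>
    (tendsto_pi_nhds.1 hten) y
  have hmh : Mod Q ω h :=
    mod_lim hω hQ.nhd (U : Filter ℕ) w (Filter.Eventually.of_forall hwm) h hpt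
  refine ⟨h, ⟨hmh.1, hmh.2.1, fun x => ?_, ?_⟩, ?_⟩
  · have t1 := A_lim (μ := μ) hφ hω hQ.nhd (U : Filter ℕ) w (Filter.Eventually.of_forall hwm) h hpt x
    have t2 : Filter.Tendsto (fun n => lam * w n x) (U : Filter ℕ) (𝓝 (lam * h x)) :=
      (hpt x).const_mul lam
    refine tendsto_nhds_unique_of_eventuallyEq t1 t2 ?_
    have h1 : ∀ᶠ n : ℕ in Filter.atTop, (f ^ (n + 1))⁻¹ * x ∉ B := by
      obtain ⟨k, hk⟩ := hQ.subset (B * {x⁻¹}) (hBc.mul isCompact_singleton)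
      rw [Filter.eventually_atTop]
      refine ⟨M * (k + 1), fun n hn hy => ?_⟩
      have h2 : (f ^ (n + 1))⁻¹ ∈ Q ^ k := by
        refine hk ?_
        have h3 := Set.mul_mem_mul hy (Set.mem_singleton x⁻¹)
        rwa [mul_inv_cancel_right] at h3
      have h3 : f ^ (n + 1) ∈ Q ^ k := hsym k _ h2
      have h4 : Q ⊆ R0 ∪ R0⁻¹ ∪ Q := fun y hy => Or.inr hy
      have h5 := hf _ k (Set.pow_subset_pow_left h4 h3)
      omega
    filter_upwards [hUat h1] with n hn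
    have h2 := hBe _ hn
    rw [hw]
    simp only
    rw [A_smul, A_trans, h2]
    ring
  · have h1 : Filter.Tendsto (fun _ : ℕ => (1 : ℝ)) (U : Filter ℕ) (𝓝 (h 1)) :=
      (hpt 1).congr fun n => hw1 n
    exact (tendsto_nhds_unique h1 tendsto_const_nhds)
  · refine ge_of_tendsto (hpt f) ?_
    filter_upwards [hUs] with n hn
    have h1 : (f ^ (n + 1))⁻¹ * f = (f ^ n)⁻¹ := by
      rw [pow_succ', mul_inv_rev, inv_mul_cancel_right]
    change c⁻¹ ≤ (v ((f ^ (n + 1))⁻¹))⁻¹ * v ((f ^ (n + 1))⁻¹ * f)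
    rw [h1, inv_mul_eq_div, le_div_iff₀ (vpos _), inv_mul_le_iff₀ hc0]
    exact hn

end Pool.Agent.Lib.MP_3e27e0_al.LC
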