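import Pool.Agent.Lib.MP_3e27e0_al.LC.Op

/-!
# Project LC: lower bounds for the powers of the operator
-/

set_option autoImplicit false

open MeasureTheory Topology

open scoped Pointwise

namespace Pool.Agent.Lib.MP_3e27e0_al.LC

variable {G : Type*} [Group G] [TopologicalSpace G] [IsTopologicalGroup G] [LocallyCompactSpace G]
  [T2Space G] [MeasurableSpace G] [BorelSpace G] {μ : Measure G} [μ.IsHaarMeasure] {φ ψ : G → ℝ}
  {Q : Set G}

/-- The translate `z Q`. -/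
private def lowD (Q : Set G) (z : G) : Set G := (fun t => z⁻¹ * t) ⁻¹' Q

omit [LocallyCompactSpace G] [T2Space G] [MeasurableSpace G] [BorelSpace G] in
private theorem lowD_cpt (hQ : IsCompact Q) (z : G) : IsCompact (lowD Q z) :=
  (Homeomorph.mulLeft z⁻¹).isCompact_preimage.2 hQ

private theorem lowD_real (z : G) : μ.real (lowD Q z) = μ.real Q := by
  rw [Measure.real, Measure.real, lowD, measure_preimage_mul]

omit [LocallyCompactSpace G] in
private theorem lowD_meas (hQ : IsCompact Q) (z : G) : MeasurableSet (lowD Q z) :=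
  (lowD_cpt hQ z).isClosed.measurableSet

private theorem low_set (hφ : Kc φ) {v : G → ℝ} (hv : Continuous v) (hv0 : ∀ x, 0 ≤ v x)
    (hQ : IsCompact Q) {z y : G} (h : ∀ t ∈ lowD Q z, 1 ≤ φ (y⁻¹ * t)) :
    ∫ t in lowD Q z, v t ∂μ ≤ A μ φ v y := by
  have hi := A_int (μ := μ) hφ hv y
  have h1 : ∫ t in lowD Q z, v t ∂μ ≤ ∫ t in lowD Q z, φ (y⁻¹ * t) * v t ∂μ := by
    refine setIntegral_mono_on (hv.continuousOn.integrableOn_compact (lowD_cpt hQ z))
      hi.integrableOn (lowD_meas hQ z) fun t ht => ?_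
    have h2 := h t ht
    have h3 := hv0 t
    nlinarith
  refine h1.trans (setIntegral_le_integral hi (Filter.Eventually.of_forall fun t => ?_))
  exact mul_nonneg (hφ.nn _) (hv0 t)

omit [LocallyCompactSpace G] in
private theorem iter_cont_nn (hcont : ∀ h : G → ℝ, Continuous h → Continuous (A μ φ h))
    (hnn : ∀ h : G → ℝ, (∀ x, 0 ≤ h x) → ∀ x, 0 ≤ A μ φ h x) {u : G → ℝ} (hu : Continuous u)
    (hu0 : ∀ x, 0 ≤ u x) (k : ℕ) :
    Continuous ((A μ φ)^[k] u) ∧ ∀ x, 0 ≤ ((A μ φ)^[k] u) x := by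
  induction k with
  | zero => exact ⟨hu, hu0⟩
  | succ k ih =>
    rw [Function.iterate_succ_apply']
    exact ⟨hcont _ ih.1, hnn _ ih.2⟩

private theorem low_iter (hφ : Kc φ) (hQ : Gen Q) (hB : Big φ Q) {u : G → ℝ} (hu : Continuous u)
    (hu0 : ∀ x, 0 ≤ u x) (z : G) (k : ℕ) : ∀ r ∈ Q ^ (k + 1),
      μ.real Q ^ k * ∫ t in lowD Q z, u t ∂μ ≤ ((A μ φ)^[k + 1] u) (z * r) := by
  have h1Q : (1 : G) ∈ Q := mem_of_mem_nhds hQ.nhd
  have hit : ∀ k, Continuous ((A μ φ)^[k] u) ∧ ∀ x, 0 ≤ ((A μ φ)^[k] u) x := fun k =>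
    iter_cont_nn (fun h hh => A_cont hφ hh) (fun h hh => A_nn hφ hh) hu hu0 k
  induction k with
  | zero =>
    intro r hr
    rw [zero_add, pow_one] at hr
    rw [pow_zero, one_mul, zero_add, Function.iterate_one]
    refine low_set hφ hu hu0 hQ.cpt fun t ht => hB _ ?_
    refine Set.mem_mul.2 ⟨r⁻¹ * (z⁻¹ * t), Set.mul_mem_mul (hQ.inv r hr) ht, 1, h1Q, ?_⟩
    group
  | succ k ih =>
    intro r hr
    rw [pow_succ, pow_succ] at hr
    obtain ⟨r', hr', q, hq, rfl⟩ := Set.mem_mul.1 hr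
    obtain ⟨r'', hr'', s, hs, rfl⟩ := Set.mem_mul.1 hr'
    rw [Function.iterate_succ_apply']
    refine le_trans ?_ (low_set (z := z * r'') hφ (hit (k + 1)).1 (hit (k + 1)).2 hQ.cpt
      fun t ht => hB _ ?_)
    · have h2 : ∀ t ∈ lowD Q (z * r''), μ.real Q ^ k * ∫ t in lowD Q z, u t ∂μ ≤
          ((A μ φ)^[k + 1] u) t := by
        intro t ht
        have h3 := ih (r'' * ((z * r'')⁻¹ * t)) (by
          rw [pow_succ]
          exact Set.mul_mem_mul hr'' ht)
        have e : z * (r'' * ((z * r'')⁻¹ * t)) = t := by group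
        rwa [e] at h3
      have h4 : ∫ _ in lowD Q (z * r''), (μ.real Q ^ k * ∫ t in lowD Q z, u t ∂μ) ∂μ ≤
          ∫ t in lowD Q (z * r''), ((A μ φ)^[k + 1] u) t ∂μ := by
        refine setIntegral_mono_on ?_
          ((hit (k + 1)).1.continuousOn.integrableOn_compact (lowD_cpt hQ.cpt _))
          (lowD_meas hQ.cpt _) h2
        exact continuousOn_const.integrableOn_compact (lowD_cpt hQ.cpt _)
      rw [setIntegral_const, lowD_real, smul_eq_mul] at h4
      rwa [pow_succ', mul_assoc]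
    · refine Set.mem_mul.2 ⟨q⁻¹ * s⁻¹, Set.mul_mem_mul (hQ.inv q hq) (hQ.inv s hs),
        (z * r'')⁻¹ * t, ht, ?_⟩
      group

/-- The powers of the operator dominate the operator of any kernel. Cover the support of `ψ` by
finitely many `t_j Q`, `t_j⁻¹ ∈ Q ^ (N + 1)` for all `j`. Put `I_j = ∫ u` over `x t_j Q`. For `y` in
`x t_j Q` one has `A u y ≥ I_j`, as `y⁻¹ (x t_j Q) ⊆ Q Q` and `φ ≥ 1` there. If a continuous `v ≥ 0` has
`v ≥ I` on `z Q` then `A v ≥ μ(Q) I` on `z Q Q`. So `A^(k+1) u ≥ μ(Q)^k I_j` on `x t_j Q^(k+1)`, which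
contains `x` for `k = N`. Finally `A μ ψ u x ≤ sup ψ * Σ I_j`. -/
theorem low (hφ : Kc φ) (hψ : Kc ψ) (hQ : Gen Q) (hB : Big φ Q) : ∃ (N : ℕ) (c : ℝ), 1 ≤ N ∧ 0 < c ∧
    ∀ u : G → ℝ, Continuous u → (∀ x, 0 ≤ u x) → ∀ x, c * A μ ψ u x ≤ ((A μ φ)^[N] u) x := by
  classical
  have h1Q : (1 : G) ∈ Q := mem_of_mem_nhds hQ.nhd
  obtain ⟨F, hF1, hF2⟩ := hψ.supp.isCompact.elim_nhds_subcover (fun z => lowD Q z) fun z _ => by
    have hc : ContinuousAt (fun t : G => z⁻¹ * t) z := (continuous_const_mul _).continuousAt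
    refine hc.preimage_mem_nhds ?_
    rw [inv_mul_cancel]
    exact hQ.nhd
  choose m hm using hQ.gen
  obtain ⟨B, hBψ⟩ := hψ.cont.bounded_above_of_compact_support hψ.supp
  have hB0 : 0 ≤ B := (norm_nonneg _).trans (hBψ 1)
  have hμ : 0 < μ.real Q := by
    rw [Measure.real, ENNReal.toReal_pos_iff]
    exact ⟨Measure.measure_pos_of_mem_nhds μ hQ.nhd, hQ.cpt.measure_lt_top⟩
  let K : ℕ := F.sup fun z => m z⁻¹
  have hK : ∀ z ∈ F, z⁻¹ ∈ Q ^ (K + 1) := fun z hz =>
    Set.pow_subset_pow_right h1Q ((Finset.le_sup (f := fun z => m z⁻¹) hz).trans (Nat.le_succ _))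
      (hm z⁻¹)
  refine ⟨K + 1, μ.real Q ^ K / (F.card * B + 1), by omega, by positivity, fun u hu hu0 x => ?_⟩
  have hit : 0 ≤ ((A μ φ)^[K + 1] u) x :=
    (iter_cont_nn (fun h hh => A_cont hφ hh) (fun h hh => A_nn hφ hh) hu hu0 (K + 1)).2 x
  -- the upper bound for the operator of the kernel
  have h1 : A μ ψ u x ≤ ∑ z ∈ F, B * ∫ t in lowD Q (x * z), u t ∂μ := by
    have hint : ∀ z ∈ F, Integrable ((lowD Q (x * z)).indicator fun t => B * u t) μ := by
      intro z _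
      refine IntegrableOn.integrable_indicator ?_ (lowD_meas hQ.cpt _)
      exact (continuous_const.mul hu).continuousOn.integrableOn_compact (lowD_cpt hQ.cpt _)
    have h2 : ∀ z ∈ F, B * ∫ t in lowD Q (x * z), u t ∂μ =
        ∫ t, (lowD Q (x * z)).indicator (fun t => B * u t) t ∂μ := by
      intro z _
      rw [integral_indicator (lowD_meas hQ.cpt _), integral_const_mul]
    rw [Finset.sum_congr rfl h2, ← integral_finsetSum _ hint, A]
    refine integral_mono (A_int hψ hu x) (integrable_finsetSum _ hint) fun t => ?_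
    show ψ (x⁻¹ * t) * u t ≤ ∑ z ∈ F, (lowD Q (x * z)).indicator (fun t => B * u t) t
    have hnn : ∀ z ∈ F, 0 ≤ (lowD Q (x * z)).indicator (fun t => B * u t) t := fun z _ =>
      Set.indicator_nonneg (fun t _ => mul_nonneg hB0 (hu0 t)) t
    by_cases h0 : ψ (x⁻¹ * t) = 0
    · rw [h0, zero_mul]
      exact Finset.sum_nonneg hnn
    · have h3 : x⁻¹ * t ∈ tsupport ψ := subset_tsupport _ h0
      have h4 := hF2 h3
      simp only [Set.mem_iUnion] at h4
      obtain ⟨z, hz, hzt⟩ := h4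
      have h5 : t ∈ lowD Q (x * z) := by
        show (x * z)⁻¹ * t ∈ Q
        have e : (x * z)⁻¹ * t = z⁻¹ * (x⁻¹ * t) := by group
        rw [e]
        exact hzt
      refine le_trans ?_ (Finset.single_le_sum hnn hz)
      rw [Set.indicator_of_mem h5]
      refine mul_le_mul_of_nonneg_right ?_ (hu0 t)
      exact (le_abs_self _).trans (hBψ _)
  have h2 : ∀ z ∈ F, μ.real Q ^ K * (B * ∫ t in lowD Q (x * z), u t ∂μ) ≤
      B * ((A μ φ)^[K + 1] u) x := by
    intro z hz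
    have h3 := low_iter (μ := μ) hφ hQ hB hu hu0 (x * z) K z⁻¹ (hK z hz)
    rw [mul_inv_cancel_right] at h3
    calc μ.real Q ^ K * (B * ∫ t in lowD Q (x * z), u t ∂μ) =
        B * (μ.real Q ^ K * ∫ t in lowD Q (x * z), u t ∂μ) := by ring
      _ ≤ _ := mul_le_mul_of_nonneg_left h3 hB0
  have h3 : μ.real Q ^ K * A μ ψ u x ≤ F.card * B * ((A μ φ)^[K + 1] u) x := by
    calc μ.real Q ^ K * A μ ψ u x ≤
        μ.real Q ^ K * ∑ z ∈ F, B * ∫ t in lowD Q (x * z), u t ∂μ :=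
          mul_le_mul_of_nonneg_left h1 (by positivity)
      _ = ∑ z ∈ F, μ.real Q ^ K * (B * ∫ t in lowD Q (x * z), u t ∂μ) := Finset.mul_sum _ _ _
      _ ≤ ∑ z ∈ F, B * ((A μ φ)^[K + 1] u) x := Finset.sum_le_sum h2
      _ = _ := by rw [Finset.sum_const, nsmul_eq_mul, mul_assoc]
  rw [div_mul_eq_mul_div, div_le_iff₀ (by positivity)]
  linarith

end Pool.Agent.Lib.MP_3e27e0_al.LC
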