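import Pool.Agent.Lib.MP_3e27e0_al.LC.Def

/-!
# Project LC: comparison of a length on the lattice with word lengths in the group
-/

set_option autoImplicit false

open MeasureTheory Topology

open scoped Pointwise

namespace Pool.Agent.Lib.MP_3e27e0_al.LC

variable {Γ G : Type*} [Group Γ] [Group G] [TopologicalSpace G] [IsTopologicalGroup G]
  {i : Γ →* G}

/-- Induction on `k`: if `x ∈ R ^ k` and `x = i γ * κ` with `κ ∈ K ∪ {1}` then `L γ ≤ M (k + 1)`, where
`M` bounds `L` on the finite sets `i ⁻¹' ((K ∪ {1})⁻¹)` and `i ⁻¹' ((K ∪ {1}) * R * (K ∪ {1})⁻¹)`. -/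
theorem mil (hi : UL i) (L : Γ → ℕ) (hL : ∀ g h, L (g * h) ≤ L g + L h) (R : Set G)
    (hR : IsCompact R) : ∃ M : ℕ, ∀ (γ : Γ) (k : ℕ), i γ ∈ R ^ k → L γ ≤ M * (k + 1) := by
  obtain ⟨K, hK, hcoc⟩ := hi.coc
  have hK1 : IsCompact (insert 1 K) := hK.insert 1
  have hF1 : (i ⁻¹' (insert 1 K)⁻¹).Finite := hi.fin _ hK1.inv
  have hF2 : (i ⁻¹' (insert 1 K * R * (insert 1 K)⁻¹)).Finite :=
    hi.fin _ ((hK1.mul hR).mul hK1.inv)
  have hle : ∀ γ, (i γ ∈ (insert 1 K)⁻¹ ∨ i γ ∈ insert 1 K * R * (insert 1 K)⁻¹) →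
      L γ ≤ (hF1.union hF2).toFinset.sup L := by
    intro γ h
    refine Finset.le_sup (f := L) ?_
    rw [Set.Finite.mem_toFinset]
    exact h
  generalize (hF1.union hF2).toFinset.sup L = M at hle
  refine ⟨M, ?_⟩
  have key : ∀ k : ℕ, ∀ x ∈ R ^ k, ∀ γ : Γ, ∀ κ ∈ insert 1 K, x = i γ * κ →
      L γ ≤ M * (k + 1) := by
    intro k
    induction k with
    | zero =>
      intro x hx γ κ hκ h
      rw [pow_zero, Set.mem_one] at hx
      rw [zero_add, mul_one]
      refine hle γ (Or.inl ?_)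
      rw [Set.mem_inv]
      have h1 : i γ * κ = 1 := by rw [← h, hx]
      rwa [inv_eq_of_mul_eq_one_right h1]
    | succ k ih =>
      intro x hx γ κ hκ h
      rw [pow_succ] at hx
      obtain ⟨y, hy, r, hr, hyr⟩ := Set.mem_mul.1 hx
      obtain ⟨γ', κ', hκ', h'⟩ := hcoc y
      have h2 := ih y hy γ' κ' (Set.mem_insert_of_mem _ hκ') h'
      have h3 : L (γ'⁻¹ * γ) ≤ M := by
        refine hle _ (Or.inr ?_)
        have h4 : i (γ'⁻¹ * γ) = κ' * r * κ⁻¹ := by
          have h5 : i γ = x * κ⁻¹ := by rw [h]; group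
          have h6 : i γ' = y * κ'⁻¹ := by rw [h']; group
          rw [map_mul, map_inv, h5, h6, ← hyr]
          group
        rw [h4]
        exact Set.mul_mem_mul (Set.mul_mem_mul (Set.mem_insert_of_mem _ hκ') hr)
          (Set.inv_mem_inv.2 hκ)
      have h7 := hL γ' (γ'⁻¹ * γ)
      rw [mul_inv_cancel_left] at h7
      calc L γ ≤ L γ' + L (γ'⁻¹ * γ) := h7
        _ ≤ M * (k + 1) + M := add_le_add h2 h3
        _ = M * (k + 1 + 1) := by ring
  intro γ k hγ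
  exact key k (i γ) hγ γ 1 (Set.mem_insert _ _) (by rw [mul_one])

end Pool.Agent.Lib.MP_3e27e0_al.LC
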