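import Pool.Agent.Lib.MP_3e27e0_al.LC.Abs2
import Pool.Agent.Lib.MP_3e27e0_al.LC.LemM
import Pool.Agent.Lib.MP_3e27e0_al.LC.HSys
import Pool.Agent.Lib.MP_3e27e0_al.LC.Mil

/-!
# Project LC: envelopes of groups like F: the bounded elements are in a compact set
-/

set_option autoImplicit false

open Topology MeasureTheory

open scoped Pointwise

namespace Pool.Agent.Lib.MP_3e27e0_al.LC

variable {Γ G : Type*} [Group Γ] [Group G] [TopologicalSpace G] [IsTopologicalGroup G]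
  [LocallyCompactSpace G] [T2Space G] {i : Γ →* G}

/-- The system of positive eigenfunctions, with uniform growth along the lattice. -/
theorem exists_sys (hG : ∃ S : Set G, IsCompact S ∧ Subgroup.closure S = ⊤) (hi : UL i)
    (hL : ∃ L : Γ → ℕ, (∀ g h, L (g * h) ≤ L g + L h) ∧ ∀ g, g ≠ 1 → ∀ n : ℕ, n ≤ L (g ^ n)) :
    ∃ H : Set (G → ℝ), Sys H ∧ ∃ κ : ℝ, 1 < κ ∧ ∀ γ : Γ, γ ≠ 1 → ∃ h ∈ H, κ ≤ h (i γ) := by
  obtain ⟨S, hS, hSc⟩ := hG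
  obtain ⟨Q, hQ⟩ := exists_gen S hS hSc
  obtain ⟨φ, hφ, hφ1, -⟩ := exists_kc (Q * Q * Q) ((hQ.cpt.mul hQ.cpt).mul hQ.cpt)
  letI : MeasurableSpace G := borel G
  haveI : BorelSpace G := ⟨rfl⟩
  set μ : Measure G := Measure.haar with hμ
  set lam : ℝ := (∫ t, φ t ∂μ) + 1 with hlam
  have hint : 0 ≤ ∫ t, φ t ∂μ := integral_nonneg hφ.nn
  have hl0 : 0 < lam := by linarith
  refine ⟨{h : G → ℝ | Har μ φ lam h}, har_sys hφ hQ hφ1 lam hl0, ?_⟩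
  obtain ⟨R, hR, hlem⟩ := lemM (μ := μ) hφ hQ hφ1 lam (by linarith) hl0
  obtain ⟨L, hL1, hL2⟩ := hL
  obtain ⟨M, hM⟩ := mil hi L hL1 R hR
  obtain ⟨κ, hκ, h⟩ := hlem M
  refine ⟨κ, hκ, fun γ hγ => h (i γ) fun n k hnk => ?_⟩
  rw [← map_pow] at hnk
  exact (hL2 γ hγ n).trans (hM _ _ hnk)

/-- Elements of a uniform lattice with finite conjugacy class are bounded. -/
theorem bd_of_fc {Λ : Type*} [Group Λ] {j : Λ →* G} (hj : UL j) {l : Λ}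
    (hl : {c : Λ | ∃ m : Λ, c = m * l * m⁻¹}.Finite) : Bd (j l) := by
  obtain ⟨K, hK, hcoc⟩ := hj.coc
  refine ⟨K⁻¹ * (j '' {c : Λ | ∃ m : Λ, c = m * l * m⁻¹}) * K,
    (hK.inv.mul (hl.image j).isCompact).mul hK, fun g => ?_⟩
  obtain ⟨γ, k, hk, hgk⟩ := hcoc g⁻¹
  have hg : g = k⁻¹ * (j γ)⁻¹ := by rw [← mul_inv_rev, ← hgk, inv_inv]
  refine ⟨k⁻¹ * j (γ⁻¹ * l * γ⁻¹⁻¹), ⟨k⁻¹, Set.inv_mem_inv.2 hk, _, ⟨_, ⟨γ⁻¹, rfl⟩, rfl⟩, rfl⟩,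
    k, hk, ?_⟩
  change k⁻¹ * j (γ⁻¹ * l * γ⁻¹⁻¹) * k = g * j l * g⁻¹
  rw [hg]
  simp only [map_mul, map_inv]
  group

/-- The FC-centre of every uniform lattice is finite. -/
theorem fc_fin {Λ : Type*} [Group Λ] {j : Λ →* G} (hj : UL j) {D : Set G} (hD : IsCompact D)
    (hbd : ∀ b : G, Bd b → b ∈ D) : {l : Λ | {c : Λ | ∃ m : Λ, c = m * l * m⁻¹}.Finite}.Finite :=
  (hj.fin D hD).subset fun _ hl => hbd _ (bd_of_fc hj hl)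

end Pool.Agent.Lib.MP_3e27e0_al.LC
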