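import Pool.Agent.Lib.MP_3e27e0_al.LC.Def

/-!
# Project LC: elementary properties of the operator of a kernel
-/

set_option autoImplicit false

open MeasureTheory Topology

open scoped Pointwise

namespace Pool.Agent.Lib.MP_3e27e0_al.LC

variable {G : Type*} [Group G] [TopologicalSpace G] [IsTopologicalGroup G] [LocallyCompactSpace G]
  [T2Space G] [MeasurableSpace G] [BorelSpace G] {μ : Measure G} [μ.IsHaarMeasure] {φ ψ : G → ℝ}

theorem A_int (hφ : Kc φ) {h : G → ℝ} (hh : Continuous h) (x : G) :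
    Integrable (fun t => φ (x⁻¹ * t) * h t) μ := by
  have h1 : Continuous fun t => φ (x⁻¹ * t) := hφ.cont.comp (continuous_const_mul x⁻¹)
  have h2 : HasCompactSupport fun t => φ (x⁻¹ * t) :=
    hφ.supp.comp_homeomorph (Homeomorph.mulLeft x⁻¹)
  exact (h1.mul hh).integrable_of_hasCompactSupport h2.mul_right

theorem A_mono (hφ : Kc φ) {h k : G → ℝ} (hh : Continuous h) (hk : Continuous k)
    (hhk : ∀ x, h x ≤ k x) (x : G) : A μ φ h x ≤ A μ φ k x :=
  integral_mono (A_int hφ hh x) (A_int hφ hk x) fun t =>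
    mul_le_mul_of_nonneg_left (hhk t) (hφ.nn _)

theorem A_nn (hφ : Kc φ) {h : G → ℝ} (hh : ∀ x, 0 ≤ h x) (x : G) : 0 ≤ A μ φ h x :=
  integral_nonneg fun t => mul_nonneg (hφ.nn _) (hh t)

theorem A_smul (c : ℝ) (h : G → ℝ) (x : G) : A μ φ (fun y => c * h y) x = c * A μ φ h x := by
  unfold A
  rw [← integral_const_mul]
  refine integral_congr_ae (Filter.Eventually.of_forall fun t => ?_)
  change φ (x⁻¹ * t) * (c * h t) = c * (φ (x⁻¹ * t) * h t)
  ring

theorem A_add (hφ : Kc φ) {h k : G → ℝ} (hh : Continuous h) (hk : Continuous k) (x : G) :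
    A μ φ (fun y => h y + k y) x = A μ φ h x + A μ φ k x := by
  unfold A
  rw [← integral_add (A_int hφ hh x) (A_int hφ hk x)]
  refine integral_congr_ae (Filter.Eventually.of_forall fun t => ?_)
  exact mul_add _ _ _

/-- The operator commutes with the left translations. -/
theorem A_trans (g : G) (h : G → ℝ) (x : G) : A μ φ (fun y => h (g * y)) x = A μ φ h (g * x) := by
  unfold A
  rw [← integral_mul_left_eq_self (fun t => φ ((g * x)⁻¹ * t) * h t) g]
  refine integral_congr_ae (Filter.Eventually.of_forall fun t => ?_)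
  change φ (x⁻¹ * t) * h (g * t) = φ ((g * x)⁻¹ * (g * t)) * h (g * t)
  congr 2
  group

theorem A_const (c : ℝ) (x : G) : A μ φ (fun _ => c) x = (∫ t, φ t ∂μ) * c := by
  unfold A
  rw [integral_mul_const, integral_mul_left_eq_self (fun t => φ t) x⁻¹]

private theorem A_diff' (hφ : Kc φ) (hψ : Kc ψ) {Q : Set G} (hψ1 : ∀ t ∈ Q * tsupport φ, 1 ≤ ψ t)
    (hQ1 : (1 : G) ∈ Q) {h : G → ℝ} (hh : Continuous h) (x s : G) (hs : s ∈ Q)
    (e : ℝ) (he : ∀ t, |φ (s⁻¹ * t) - φ t| ≤ e) :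
    |A μ φ h (x * s) - A μ φ h x| ≤ e * A μ ψ (fun y => |h y|) x := by
  have he0 : 0 ≤ e := (abs_nonneg _).trans (he 1)
  have hpt : ∀ u, |φ (s⁻¹ * u) - φ u| ≤ e * ψ u := by
    intro u
    by_cases hu : u ∈ Q * tsupport φ
    · calc |φ (s⁻¹ * u) - φ u| ≤ e := he u
        _ = e * 1 := (mul_one e).symm
        _ ≤ e * ψ u := mul_le_mul_of_nonneg_left (hψ1 u hu) he0
    · have h1 : φ (s⁻¹ * u) = 0 := by
        apply image_eq_zero_of_notMem_tsupport
        intro hc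
        apply hu
        exact ⟨s, hs, s⁻¹ * u, hc, mul_inv_cancel_left s u⟩
      have h2 : φ u = 0 := by
        apply image_eq_zero_of_notMem_tsupport
        intro hc
        apply hu
        exact ⟨1, hQ1, u, hc, one_mul u⟩
      rw [h1, h2, sub_zero, abs_zero]
      exact mul_nonneg he0 (hψ.nn u)
  have e1 : A μ φ h (x * s) - A μ φ h x =
      ∫ t, (φ (s⁻¹ * (x⁻¹ * t)) - φ (x⁻¹ * t)) * h t ∂μ := by
    unfold A
    rw [← integral_sub (A_int hφ hh (x * s)) (A_int hφ hh x)]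
    refine integral_congr_ae (Filter.Eventually.of_forall fun t => ?_)
    change φ ((x * s)⁻¹ * t) * h t - φ (x⁻¹ * t) * h t =
      (φ (s⁻¹ * (x⁻¹ * t)) - φ (x⁻¹ * t)) * h t
    rw [mul_inv_rev, mul_assoc s⁻¹ x⁻¹ t, sub_mul]
  have e2 : e * A μ ψ (fun y => |h y|) x = ∫ t, e * (ψ (x⁻¹ * t) * |h t|) ∂μ := by
    unfold A
    rw [integral_const_mul]
  rw [e1, e2]
  refine (abs_integral_le_integral_abs).trans ?_
  refine integral_mono_of_nonneg (Filter.Eventually.of_forall fun t => abs_nonneg _)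
    ((A_int hψ hh.abs x).const_mul e) (Filter.Eventually.of_forall fun t => ?_)
  change |(φ (s⁻¹ * (x⁻¹ * t)) - φ (x⁻¹ * t)) * h t| ≤ e * (ψ (x⁻¹ * t) * |h t|)
  rw [abs_mul, ← mul_assoc e]
  exact mul_le_mul_of_nonneg_right (hpt _) (abs_nonneg _)

/-- The difference of two values is controlled by the operator of a kernel which is at least 1 on
`Q * tsupport φ`. -/
theorem A_diff (hφ : Kc φ) (hψ : Kc ψ) {Q : Set G} (hψ1 : ∀ t ∈ Q * tsupport φ, 1 ≤ ψ t)
    (hQ1 : (1 : G) ∈ Q) {h : G → ℝ} (hh : Continuous h) (h0 : ∀ x, 0 ≤ h x) (x s : G) (hs : s ∈ Q)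
    (e : ℝ) (he : ∀ t, |φ (s⁻¹ * t) - φ t| ≤ e) : |A μ φ h (x * s) - A μ φ h x| ≤ e * A μ ψ h x := by
  have h1 := A_diff' (μ := μ) hφ hψ hψ1 hQ1 hh x s hs e he
  have h2 : (fun y => |h y|) = h := by
    funext y
    exact abs_of_nonneg (h0 y)
  rwa [h2] at h1

/-- Uniform continuity of a kernel. -/
theorem kc_unif (hφ : Kc φ) : (∃ B : ℝ, ∀ s t, |φ (s⁻¹ * t) - φ t| ≤ B) ∧
    ∀ e : ℝ, 0 < e → ∀ᶠ s in 𝓝 (1 : G), ∀ t, |φ (s⁻¹ * t) - φ t| ≤ e := by
  constructor
  · obtain ⟨C, hC⟩ := hφ.cont.bounded_above_of_compact_support hφ.supp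
    refine ⟨C + C, fun s t => ?_⟩
    refine (abs_sub _ _).trans ?_
    exact add_le_add (hC _) (hC _)
  · intro e he
    obtain ⟨V, hV, hV1⟩ := exists_compact_mem_nhds (1 : G)
    have hK : IsCompact (V * tsupport φ ∪ tsupport φ) := (hV.mul hφ.supp).union hφ.supp
    have h1 : ∀ᶠ s in 𝓝 (1 : G), ∀ t ∈ V * tsupport φ ∪ tsupport φ, |φ (s⁻¹ * t) - φ t| < e := by
      refine hK.eventually_forall_of_forall_eventually fun t _ => ?_
      have hc : Continuous fun z : G × G => |φ (z.1⁻¹ * z.2) - φ z.2| :=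
        ((hφ.cont.comp (continuous_fst.inv.mul continuous_snd)).sub
          (hφ.cont.comp continuous_snd)).abs
      have h2 : Filter.Tendsto (fun z : G × G => |φ (z.1⁻¹ * z.2) - φ z.2|) (𝓝 (1, t)) (𝓝 0) := by
        have h3 := hc.tendsto (1, t)
        simpa using h3
      exact h2.eventually (gt_mem_nhds he)
    filter_upwards [h1, hV1] with s hs hsV t
    by_cases ht : t ∈ V * tsupport φ ∪ tsupport φ
    · exact (hs t ht).le
    · rw [Set.mem_union, not_or] at ht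
      have h4 : φ (s⁻¹ * t) = 0 := by
        apply image_eq_zero_of_notMem_tsupport
        intro hc
        exact ht.1 ⟨s, hsV, s⁻¹ * t, hc, mul_inv_cancel_left s t⟩
      have h5 : φ t = 0 := image_eq_zero_of_notMem_tsupport ht.2
      rw [h4, h5, sub_zero, abs_zero]
      exact he.le

theorem A_cont (hφ : Kc φ) {h : G → ℝ} (hh : Continuous h) : Continuous (A μ φ h) := by
  obtain ⟨V, hV, hV1⟩ := exists_compact_mem_nhds (1 : G)
  obtain ⟨f, hf1, -, hf2, hf3⟩ := exists_continuous_one_zero_of_isCompact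
    (hV.mul hφ.supp) isClosed_empty (Set.disjoint_empty _)
  have hψ : Kc (f : G → ℝ) := ⟨f.continuous, hf2, fun t => (hf3 t).1⟩
  have hψ1 : ∀ t ∈ V * tsupport φ, 1 ≤ f t := fun t ht => (hf1 ht).ge
  rw [continuous_iff_continuousAt]
  intro x
  change Filter.Tendsto (A μ φ h) (𝓝 x) (𝓝 (A μ φ h x))
  rw [← map_mul_left_nhds_one x, Filter.tendsto_map'_iff, Metric.tendsto_nhds]
  intro ε hε
  obtain ⟨C, hC⟩ : ∃ C, C = A μ (f : G → ℝ) (fun y => |h y|) x := ⟨_, rfl⟩
  have hC0 : 0 ≤ C := by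
    rw [hC]
    exact A_nn hψ (fun y => abs_nonneg _) x
  have h1 := (kc_unif hφ).2 (ε / (2 * (C + 1))) (by positivity)
  filter_upwards [h1, hV1] with s hs hsV
  have h2 := A_diff' (μ := μ) hφ hψ hψ1 (mem_of_mem_nhds hV1) hh x s hsV _ hs
  rw [← hC] at h2
  rw [Real.dist_eq]
  refine lt_of_le_of_lt h2 ?_
  rw [div_mul_eq_mul_div, div_lt_iff₀ (by positivity)]
  nlinarith

end Pool.Agent.Lib.MP_3e27e0_al.LC
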