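import Pool.Agent.Lib.MP_3e27e0_al.LC.Cen
import Pool.Agent.Lib.MP_3e27e0_al.LC.DF

/-!
# Project LC: a uniform lattice like F is not in a product of two non-compact groups
-/

set_option autoImplicit false

open Topology

open scoped Pointwise

namespace Pool.Agent.Lib.MP_3e27e0_al.LC

/-- The powers of `a` come back to 1. -/
def Rec {H : Type*} [Group H] [TopologicalSpace H] (a : H) : Prop :=
  ∀ V ∈ 𝓝 (1 : H), ∀ m0 : ℕ, ∃ m, m0 ≤ m ∧ a ^ m ∈ V

theorem rec_of_inf {H : Type*} [Group H] [TopologicalSpace H] [IsTopologicalGroup H] {a : H}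
    {Z : Set ℤ} (hZ : Z.Infinite) {K : Set H} (hK : IsCompact K) (h : ∀ z ∈ Z, a ^ z ∈ K) :
    Rec a := by
  intro V hV m0
  have hVi : V ∩ V⁻¹ ∈ 𝓝 (1 : H) := by
    refine Filter.inter_mem hV ?_
    have h1 : V ∈ 𝓝 ((1 : H)⁻¹) := by rwa [inv_one]
    exact continuous_inv.continuousAt h1
  have : Infinite Z := hZ.to_subtype
  obtain ⟨r, hr⟩ := Finite.exists_infinite_fiber (fun z : Z => ((z : ℤ) : ZMod (m0 + 1)))
  obtain ⟨s, hs, t, ht, hst, hV2⟩ := exists_near hK (Set.infinite_coe_iff.1 hr)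
    (fun z : Z => a ^ (z : ℤ)) (fun z _ => h z z.2) hVi
  have h1 : (((s : ℤ) - (t : ℤ) : ℤ) : ZMod (m0 + 1)) = 0 := by
    have h2 : ((s : ℤ) : ZMod (m0 + 1)) = r := hs
    have h3 : ((t : ℤ) : ZMod (m0 + 1)) = r := ht
    rw [Int.cast_sub, h2, h3, sub_self]
  rw [ZMod.intCast_zmod_eq_zero_iff_dvd] at h1
  have h2 : (s : ℤ) - t ≠ 0 := by
    intro h3
    exact hst (Subtype.ext (sub_eq_zero.1 h3))
  have h3 : a ^ ((s : ℤ) - t) ∈ V ∩ V⁻¹ := by
    rw [zpow_sub]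
    exact hV2
  rcases lt_or_gt_of_ne h2 with h4 | h4
  · have h5 : ((m0 + 1 : ℕ) : ℤ) ≤ -((s : ℤ) - t) :=
      Int.le_of_dvd (by omega) ((dvd_neg).2 h1)
    refine ⟨(-((s : ℤ) - t)).toNat, by omega, ?_⟩
    rw [← zpow_natCast, Int.toNat_of_nonneg (by omega), zpow_neg]
    exact h3.2
  · have h5 : ((m0 + 1 : ℕ) : ℤ) ≤ (s : ℤ) - t := Int.le_of_dvd h4 h1
    refine ⟨((s : ℤ) - t).toNat, by omega, ?_⟩
    rw [← zpow_natCast, Int.toNat_of_nonneg (by omega)]
    exact h3.1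

section

variable {Γ G H : Type*} [Group Γ] [Group G] [Group H] [TopologicalSpace H] [IsTopologicalGroup H]
  [T2Space H] {y : Γ} {C : Subgroup Γ}

/-- The commutators of `C` are trivial in a quotient where `y` comes back to 1. -/
theorem map_comm (hP : PrL y C) (p : Γ →* H) (hr : Rec (p y)) {η : Γ} (hη : η ∈ ⁅C, C⁆) :
    p η = 1 := by
  have h0 : ⁅C, C⁆ ≤ p.ker := by
    rw [Subgroup.commutator_le]
    intro g hg h hh
    obtain ⟨m0, hm0⟩ := hP.disp g hg h hh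
    have hcl : IsClosed {v : H | v * p h * v⁻¹ * p g = p g * (v * p h * v⁻¹)} :=
      isClosed_eq (by fun_prop) (by fun_prop)
    have h1 : (1 : H) ∈ {v : H | v * p h * v⁻¹ * p g = p g * (v * p h * v⁻¹)} := by
      rw [← hcl.closure_eq, mem_closure_iff_nhds]
      intro V hV
      obtain ⟨m, hm, hmV⟩ := hr V hV m0
      refine ⟨p y ^ m, hmV, ?_⟩
      have h2 := congrArg p (hm0 m hm)
      simp only [map_mul, map_inv, map_pow] at h2
      exact h2
    have h2 : p h * p g = p g * p h := by simpa using h1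
    rw [MonoidHom.mem_ker, commutatorElement_def]
    simp only [map_mul, map_inv]
    rw [← h2, mul_inv_cancel_right, mul_inv_cancel]
  exact MonoidHom.mem_ker.1 (h0 hη)

end

section

variable {Γ G1 G2 : Type*} [Group Γ] [Group G1] [Group G2] [TopologicalSpace G1]
  [TopologicalSpace G2] [IsTopologicalGroup G1] [IsTopologicalGroup G2] {i : Γ →* G1 × G2} {y : Γ}
  {C : Subgroup Γ}

/-- One of the components of `y` comes back to 1. -/
theorem rec_or (hi : UL i) (hP : PrL y C) : Rec (i y).1 ∨ Rec (i y).2 := by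
  classical
  obtain ⟨K, hK, hcoc⟩ := hi.coc
  choose f k hk hfk using fun n : ℕ => hcoc ((i y).1 ^ n, 1)
  have hfin : (i ⁻¹' (K * {i y} * K⁻¹)).Finite := hi.fin _ ((hK.mul isCompact_singleton).mul hK.inv)
  have hmem : ∀ n : ℕ, (f n)⁻¹ * y * f n ∈ i ⁻¹' (K * {i y} * K⁻¹) := by
    intro n
    refine ⟨k n * i y, ⟨k n, hk n, i y, rfl, rfl⟩, (k n)⁻¹, Set.inv_mem_inv.2 (hk n), ?_⟩
    have h1 : i (f n) = ((i y).1 ^ n, (1 : G2)) * (k n)⁻¹ := by rw [hfk n, mul_inv_cancel_right]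
    have h2 : ((i y).1 ^ n, (1 : G2))⁻¹ * i y * ((i y).1 ^ n, (1 : G2)) = i y := by
      apply Prod.ext
      · change ((i y).1 ^ n)⁻¹ * (i y).1 * (i y).1 ^ n = (i y).1
        rw [mul_assoc, ← pow_succ', pow_succ, inv_mul_cancel_left]
      · change (1 : G2)⁻¹ * (i y).2 * 1 = (i y).2
        rw [inv_one, one_mul, mul_one]
    change k n * i y * (k n)⁻¹ = i ((f n)⁻¹ * y * f n)
    rw [map_mul, map_mul, map_inv, h1]
    calc k n * i y * (k n)⁻¹ = k n * (((i y).1 ^ n, (1 : G2))⁻¹ * i y * ((i y).1 ^ n, (1 : G2))) *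
          (k n)⁻¹ := by rw [h2]
      _ = _ := by group
  have : Finite (i ⁻¹' (K * {i y} * K⁻¹)) := hfin
  obtain ⟨c, hc⟩ := Finite.exists_infinite_fiber
    (fun n : ℕ => (⟨(f n)⁻¹ * y * f n, hmem n⟩ : i ⁻¹' (K * {i y} * K⁻¹)))
  set N : Set ℕ := (fun n : ℕ => (⟨(f n)⁻¹ * y * f n, hmem n⟩ : i ⁻¹' (K * {i y} * K⁻¹))) ⁻¹' {c}
    with hN
  have hNinf : N.Infinite := Set.infinite_coe_iff.1 hc
  have hNc : ∀ n ∈ N, (f n)⁻¹ * y * f n = c := fun n hn => congrArg Subtype.val hn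
  obtain ⟨n0, hn0⟩ := hNinf.nonempty
  obtain ⟨R, hR, hcent⟩ := hP.cent
  have hq : ∀ n : ℕ, ∃ (q : ℤ) (r : Γ), n ∈ N → r ∈ R ∧ f n = y ^ q * r * f n0 := by
    intro n
    by_cases hn : n ∈ N
    · have h1 : (f n * (f n0)⁻¹) * y = y * (f n * (f n0)⁻¹) := by
        have h2 := hNc n hn
        have h3 := hNc n0 hn0
        calc (f n * (f n0)⁻¹) * y = f n * ((f n0)⁻¹ * y * f n0) * (f n0)⁻¹ := by group
          _ = f n * ((f n)⁻¹ * y * f n) * (f n0)⁻¹ := by rw [h2, h3]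
          _ = _ := by group
      obtain ⟨q, r, hr, hqr⟩ := hcent _ h1
      refine ⟨q, r, fun _ => ⟨hr, ?_⟩⟩
      rw [← hqr, inv_mul_cancel_right]
    · exact ⟨0, 1, fun h => absurd h hn⟩
  choose q r hqr using hq
  set K' : Set (G1 × G2) := (i '' R) * {i (f n0)} * K with hK'
  have hK'c : IsCompact K' := ((hR.image i).isCompact.mul isCompact_singleton).mul hK
  have hκ : ∀ n ∈ N, (i y ^ (q n))⁻¹ * ((i y).1 ^ n, (1 : G2)) ∈ K' := by
    intro n hn
    obtain ⟨hr, hfn⟩ := hqr n hn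
    refine ⟨i (r n) * i (f n0), ⟨i (r n), ⟨r n, hr, rfl⟩, i (f n0), rfl, rfl⟩, k n, hk n, ?_⟩
    change i (r n) * i (f n0) * k n = (i y ^ (q n))⁻¹ * ((i y).1 ^ n, (1 : G2))
    rw [hfk n, hfn, map_mul, map_mul, map_zpow]
    group
  have h1 : ∀ n ∈ N, (i y).1 ^ ((n : ℤ) - q n) ∈ Prod.fst '' K' := by
    intro n hn
    refine ⟨_, hκ n hn, ?_⟩
    change ((i y).1 ^ (q n))⁻¹ * (i y).1 ^ n = _
    rw [sub_eq_add_neg, add_comm, zpow_add, zpow_neg, zpow_natCast]
  have h2 : ∀ n ∈ N, (i y).2 ^ (-(q n)) ∈ Prod.snd '' K' := by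
    intro n hn
    refine ⟨_, hκ n hn, ?_⟩
    change ((i y).2 ^ (q n))⁻¹ * 1 = _
    rw [mul_one, zpow_neg]
  by_cases hinf : ((fun n : ℕ => -(q n)) '' N).Infinite
  · right
    refine rec_of_inf hinf (hK'c.image continuous_snd) ?_
    rintro _ ⟨n, hn, rfl⟩
    exact h2 n hn
  · left
    rw [Set.not_infinite] at hinf
    have hinf2 : ((fun n : ℕ => (n : ℤ) - q n) '' N).Infinite := by
      intro hfin2
      apply hNinf
      have h3 : (Set.image2 (fun a b : ℤ => a - b) ((fun n : ℕ => (n : ℤ) - q n) '' N)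
          ((fun n : ℕ => -(q n)) '' N)).Finite := hfin2.image2 _ hinf
      refine Set.Finite.of_finite_image (f := fun n : ℕ => (n : ℤ)) (h3.subset ?_)
        (Nat.cast_injective.injOn)
      rintro _ ⟨n, hn, rfl⟩
      refine ⟨_, ⟨n, hn, rfl⟩, _, ⟨n, hn, rfl⟩, ?_⟩
      ring
    refine rec_of_inf hinf2 (hK'c.image continuous_fst) ?_
    rintro _ ⟨n, hn, rfl⟩
    exact h1 n hn

variable [LocallyCompactSpace G1] [LocallyCompactSpace G2] [T2Space G1] [T2Space G2]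

theorem prod_compact (hi : UL i) (hP : PrL y C) : CompactSpace G1 ∨ CompactSpace G2 := by
  obtain ⟨D, hD, hcen⟩ := cen_compact hi hP.dsp
  rcases rec_or hi hP with h | h
  · left
    have h1 : ∀ η ∈ ⁅C, C⁆, (i η).1 = 1 := fun η hη =>
      map_comm hP ((MonoidHom.fst G1 G2).comp i) h hη
    refine ⟨?_⟩
    have h2 : (Set.univ : Set G1) = Prod.fst '' D := by
      refine (Set.eq_univ_of_forall fun x => ?_).symm
      refine ⟨(x, 1), hcen _ ?_, rfl⟩
      rw [mem_cen]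
      intro η hη
      apply Prod.ext
      · change (i η).1 * x = x * (i η).1
        rw [h1 η hη, one_mul, mul_one]
      · change (i η).2 * 1 = 1 * (i η).2
        rw [one_mul, mul_one]
    rw [h2]
    exact hD.image continuous_fst
  · right
    have h1 : ∀ η ∈ ⁅C, C⁆, (i η).2 = 1 := fun η hη =>
      map_comm hP ((MonoidHom.snd G1 G2).comp i) h hη
    refine ⟨?_⟩
    have h2 : (Set.univ : Set G2) = Prod.snd '' D := by
      refine (Set.eq_univ_of_forall fun x => ?_).symm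
      refine ⟨(1, x), hcen _ ?_, rfl⟩
      rw [mem_cen]
      intro η hη
      apply Prod.ext
      · change (i η).1 * 1 = 1 * (i η).1
        rw [one_mul, mul_one]
      · change (i η).2 * x = x * (i η).2
        rw [h1 η hη, one_mul, mul_one]
    rw [h2]
    exact hD.image continuous_snd

end

end Pool.Agent.Lib.MP_3e27e0_al.LC
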