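import Pool.Agent.Lib.MP_3e27e0_al.CM.Stmt

/-!
# Project LC: sums of homeomorphisms of the unit interval (for the finite generation of F)

`osum f g` acts as `f` on `[0, 1/2]` and as `g` on `[1/2, 1]` (rescaled); `a0` is the map
`[0, 1/2] → [0, 1/4]`, `[1/2, 3/4] → [1/4, 1/2]`, `[3/4, 1] → [1/2, 1]` (affine on the pieces).
-/

set_option autoImplicit false

namespace Pool.Agent.Lib.MP_3e27e0_al.LC

open Pool.Agent.Lib.MP_3e27e0_al.CM

private noncomputable def pr (t : ℝ) : UI := Set.projIcc 0 1 zero_le_one t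

private theorem pr_coe {t : ℝ} (h0 : 0 ≤ t) (h1 : t ≤ 1) : ((pr t : UI) : ℝ) = t := by
  rw [pr, Set.projIcc_of_mem zero_le_one ⟨h0, h1⟩]

private theorem pr_eq (s : UI) : pr s = s := Subtype.ext (pr_coe s.2.1 s.2.2)

private noncomputable def sf (f g : UI ≃o UI) (t : ℝ) : ℝ :=
  if t ≤ 1 / 2 then (f (pr (2 * t)) : ℝ) / 2 else (1 + (g (pr (2 * t - 1)) : ℝ)) / 2

private theorem sf_le {f g : UI ≃o UI} {t : ℝ} (h : t ≤ 1 / 2) :
    sf f g t = (f (pr (2 * t)) : ℝ) / 2 := if_pos h

private theorem sf_gt {f g : UI ≃o UI} {t : ℝ} (h : 1 / 2 < t) :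
    sf f g t = (1 + (g (pr (2 * t - 1)) : ℝ)) / 2 := if_neg (not_le.2 h)

private theorem sf_mem (f g : UI ≃o UI) (t : ℝ) : sf f g t ∈ Set.Icc (0 : ℝ) 1 := by
  rcases le_or_gt t (1 / 2) with h | h
  · rw [sf_le h]
    have := (f (pr (2 * t))).2
    exact ⟨by linarith [this.1], by linarith [this.2]⟩
  · rw [sf_gt h]
    have := (g (pr (2 * t - 1))).2
    exact ⟨by linarith [this.1], by linarith [this.2]⟩

private theorem pos_of_pos (g : UI ≃o UI) {s : UI} (h : 0 < (s : ℝ)) : 0 < (g s : ℝ) := by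
  have h1 : (⟨0, by norm_num, by norm_num⟩ : UI) < s := h
  have h2 : (g ⟨0, by norm_num, by norm_num⟩ : ℝ) < (g s : ℝ) := g.lt_iff_lt.2 h1
  exact lt_of_le_of_lt (g _).2.1 h2

private theorem map_zero' (g : UI ≃o UI) {s : UI} (h : (s : ℝ) = 0) : (g s : ℝ) = 0 := by
  have h1 : s ≤ g.symm ⟨0, by norm_num, by norm_num⟩ := by
    rw [← Subtype.coe_le_coe, h]
    exact (g.symm _).2.1
  have h2 : g s ≤ ⟨0, by norm_num, by norm_num⟩ := by
    have := g.monotone h1
    rwa [g.apply_symm_apply] at this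
  exact le_antisymm h2 (g s).2.1

private theorem map_one' (g : UI ≃o UI) {s : UI} (h : (s : ℝ) = 1) : (g s : ℝ) = 1 := by
  have h1 : g.symm ⟨1, by norm_num, by norm_num⟩ ≤ s := by
    rw [← Subtype.coe_le_coe, h]
    exact (g.symm _).2.2
  have h2 : (⟨1, by norm_num, by norm_num⟩ : UI) ≤ g s := by
    have := g.monotone h1
    rwa [g.apply_symm_apply] at this
  exact le_antisymm (g s).2.2 h2

private theorem sf_mono (f g : UI ≃o UI) {s t : UI} (h : s < t) : sf f g s < sf f g t := by
  have h' : (s : ℝ) < t := h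
  obtain ⟨s, s0, s1⟩ := s
  obtain ⟨t, t0, t1⟩ := t
  simp only at h'
  simp only
  rcases le_or_gt t (1 / 2) with h1 | h1
  · rw [sf_le h1, sf_le (h'.le.trans h1)]
    have h2 : pr (2 * s) < pr (2 * t) := by
      rw [← Subtype.coe_lt_coe, pr_coe (by linarith) (by linarith),
        pr_coe (by linarith) (by linarith)]
      linarith
    have h3 : (f (pr (2 * s)) : ℝ) < (f (pr (2 * t)) : ℝ) := f.lt_iff_lt.2 h2
    linarith
  rcases le_or_gt s (1 / 2) with h2 | h2
  · rw [sf_le h2, sf_gt h1]
    have h3 := pos_of_pos g (s := pr (2 * t - 1)) (by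
      rw [pr_coe (by linarith) (by linarith)]
      linarith)
    have h4 := (f (pr (2 * s))).2.2
    linarith
  · rw [sf_gt h2, sf_gt h1]
    have h3 : pr (2 * s - 1) < pr (2 * t - 1) := by
      rw [← Subtype.coe_lt_coe, pr_coe (by linarith) (by linarith),
        pr_coe (by linarith) (by linarith)]
      linarith
    have h4 : (g (pr (2 * s - 1)) : ℝ) < (g (pr (2 * t - 1)) : ℝ) := g.lt_iff_lt.2 h3
    linarith

private theorem sf_inv (f g : UI ≃o UI) (s : UI) : sf f g (sf f.symm g.symm s) = s := by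
  obtain ⟨s, s0, s1⟩ := s
  simp only
  rcases le_or_gt s (1 / 2) with h | h
  · have h1 := (f.symm (pr (2 * s))).2
    rw [sf_le h, sf_le (by linarith [h1.2])]
    have h2 : pr (2 * ((f.symm (pr (2 * s)) : ℝ) / 2)) = f.symm (pr (2 * s)) := by
      rw [mul_div_cancel₀ _ (two_ne_zero)]
      exact pr_eq _
    rw [h2, f.apply_symm_apply, pr_coe (by linarith) (by linarith)]
    ring
  · have h1 := (g.symm (pr (2 * s - 1))).2
    have h3 := pos_of_pos g.symm (s := pr (2 * s - 1)) (by
      rw [pr_coe (by linarith) (by linarith)]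
      linarith)
    rw [sf_gt h, sf_gt (by linarith)]
    have h2 : pr (2 * ((1 + (g.symm (pr (2 * s - 1)) : ℝ)) / 2) - 1) =
        g.symm (pr (2 * s - 1)) := by
      have e : 2 * ((1 + (g.symm (pr (2 * s - 1)) : ℝ)) / 2) - 1 =
          (g.symm (pr (2 * s - 1)) : ℝ) := by ring
      rw [e]
      exact pr_eq _
    rw [h2, g.apply_symm_apply, pr_coe (by linarith) (by linarith)]
    ring

private noncomputable def osm (f g : UI ≃o UI) : UI ≃o UI :=
  StrictMono.orderIsoOfRightInverse (fun t : UI => (⟨sf f g t, sf_mem f g t⟩ : UI))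
    (fun _ _ h => Subtype.mk_lt_mk.2 (sf_mono f g h))
    (fun t : UI => (⟨sf f.symm g.symm t, sf_mem f.symm g.symm t⟩ : UI))
    (fun s => Subtype.ext (sf_inv f g s))

private theorem osm_apply (f g : UI ≃o UI) (t : UI) : (osm f g t : ℝ) = sf f g t := rfl

private theorem osm_left (f g : UI ≃o UI) (s t : UI) (h : (t : ℝ) = s / 2) :
    (osm f g t : ℝ) = f s / 2 := by
  have h1 := s.2
  rw [osm_apply, sf_le (by rw [h]; linarith [h1.2]), h, mul_div_cancel₀ _ (two_ne_zero), pr_eq]

private theorem osm_right (f g : UI ≃o UI) (s t : UI) (h : (t : ℝ) = (1 + s) / 2) :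
    (osm f g t : ℝ) = (1 + g s) / 2 := by
  have h1 := s.2
  rcases h1.1.eq_or_lt with h0 | h0
  · have h2 : (t : ℝ) = 1 / 2 := by rw [h, ← h0]; ring
    rw [osm_apply, sf_le (by rw [h2]), map_zero' g h0.symm, map_one' f (by
      rw [h2, pr_coe (by norm_num) (by norm_num)]
      norm_num)]
    ring
  · rw [osm_apply, sf_gt (by rw [h]; linarith)]
    have h2 : 2 * (t : ℝ) - 1 = s := by rw [h]; ring
    rw [h2, pr_eq]

private theorem dyadic_half {x : ℝ} (h : Dyadic x) : Dyadic (x / 2) := by
  obtain ⟨m, k, rfl⟩ := h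
  exact ⟨m, k + 1, by rw [pow_succ, div_div]⟩

private theorem dyadic_half' {x : ℝ} (h : Dyadic x) : Dyadic ((1 + x) / 2) := by
  obtain ⟨m, k, rfl⟩ := h
  refine ⟨2 ^ k + m, k + 1, ?_⟩
  push_cast
  rw [pow_succ]
  have h2 : (2 : ℝ) ^ k ≠ 0 := by positivity
  field_simp

private theorem osm_isT (f g : UI ≃o UI) (hf : IsT f) (hg : IsT g) : IsT (osm f g) := by
  classical
  obtain ⟨sf', hs1, hs2⟩ := hf
  obtain ⟨sg, hs3, hs4⟩ := hg
  refine ⟨insert (1 / 2) (sf'.image (fun x => x / 2) ∪ sg.image fun x => (1 + x) / 2), ?_, ?_⟩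
  · intro x hx
    rcases Finset.mem_insert.1 hx with rfl | hx
    · exact ⟨1, 1, by norm_num⟩
    rcases Finset.mem_union.1 hx with hx | hx
    · obtain ⟨y, hy, rfl⟩ := Finset.mem_image.1 hx
      exact dyadic_half (hs1 y hy)
    · obtain ⟨y, hy, rfl⟩ := Finset.mem_image.1 hx
      exact dyadic_half' (hs3 y hy)
  · intro a b hab hs
    have hab' : (a : ℝ) < b := hab
    have h0 := hs (1 / 2) (Finset.mem_insert_self _ _)
    have ha := a.2
    have hb := b.2
    rcases le_or_gt (b : ℝ) (1 / 2) with h1 | h1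
    · obtain ⟨k, hk⟩ := hs2 ⟨2 * a, by linarith [ha.1], by linarith⟩
        ⟨2 * b, by linarith [hb.1], by linarith⟩ (by
          rw [← Subtype.coe_lt_coe]
          simp only
          linarith) (by
          intro x hx
          have h2 := hs (x / 2) (Finset.mem_insert_of_mem (Finset.mem_union_left _
            (Finset.mem_image_of_mem _ hx)))
          simp only
          rcases h2 with h2 | h2
          · left; linarith
          · right; linarith)
      refine ⟨k, fun t h3 h4 => ?_⟩
      have h3' : (a : ℝ) ≤ t := h3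
      have h4' : (t : ℝ) ≤ b := h4
      have ht := t.2
      have h5 := hk ⟨2 * t, by linarith [ht.1], by linarith⟩ (by
          rw [← Subtype.coe_le_coe]
          simp only
          linarith) (by
          rw [← Subtype.coe_le_coe]
          simp only
          linarith)
      rw [osm_left f g ⟨2 * t, by linarith [ht.1], by linarith⟩ t (by simp only; ring),
        osm_left f g ⟨2 * a, by linarith [ha.1], by linarith⟩ a (by simp only; ring)]
      simp only at h5
      linear_combination h5 / 2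
    · have h1' : 1 / 2 ≤ (a : ℝ) := h0.resolve_right (not_le.2 h1)
      obtain ⟨k, hk⟩ := hs4 ⟨2 * a - 1, by linarith, by linarith [ha.2]⟩
        ⟨2 * b - 1, by linarith, by linarith [hb.2]⟩ (by
          rw [← Subtype.coe_lt_coe]
          simp only
          linarith) (by
          intro x hx
          have h2 := hs ((1 + x) / 2) (Finset.mem_insert_of_mem (Finset.mem_union_right _
            (Finset.mem_image_of_mem _ hx)))
          simp only
          rcases h2 with h2 | h2
          · left; linarith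
          · right; linarith)
      refine ⟨k, fun t h3 h4 => ?_⟩
      have h3' : (a : ℝ) ≤ t := h3
      have h4' : (t : ℝ) ≤ b := h4
      have ht := t.2
      have h5 := hk ⟨2 * t - 1, by linarith, by linarith [ht.2]⟩ (by
          rw [← Subtype.coe_le_coe]
          simp only
          linarith) (by
          rw [← Subtype.coe_le_coe]
          simp only
          linarith)
      rw [osm_right f g ⟨2 * t - 1, by linarith, by linarith [ht.2]⟩ t (by simp only; ring),
        osm_right f g ⟨2 * a - 1, by linarith, by linarith [ha.2]⟩ a (by simp only; ring)]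
      simp only at h5
      linear_combination h5 / 2

/-! The map `a`. -/

private noncomputable def af (t : ℝ) : ℝ := max (t / 2) (max (t - 1 / 4) (2 * t - 1))

private noncomputable def bf (s : ℝ) : ℝ := min (2 * s) (min (s + 1 / 4) ((s + 1) / 2))

private theorem af1 {t : ℝ} (h : t ≤ 1 / 2) : af t = t / 2 :=
  max_eq_left (max_le (by linarith) (by linarith))

private theorem af2 {t : ℝ} (h : 1 / 2 ≤ t) (h' : t ≤ 3 / 4) : af t = t - 1 / 4 := by
  rw [af, max_eq_left (by linarith : 2 * t - 1 ≤ t - 1 / 4)]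
  exact max_eq_right (by linarith)

private theorem af3 {t : ℝ} (h : 3 / 4 ≤ t) : af t = 2 * t - 1 := by
  rw [af, max_eq_right (by linarith : t - 1 / 4 ≤ 2 * t - 1)]
  exact max_eq_right (by linarith)

private theorem af_mono {s t : ℝ} (h : s < t) : af s < af t := by
  unfold af
  refine max_lt_max (by linarith) (max_lt_max (by linarith) (by linarith))

private theorem af_mem (t : UI) : af t ∈ Set.Icc (0 : ℝ) 1 := by
  obtain ⟨t, h0, h1⟩ := t
  exact ⟨le_max_of_le_left (by simp only; linarith),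
    max_le (by simp only; linarith) (max_le (by simp only; linarith) (by simp only; linarith))⟩

private theorem bf_mem (t : UI) : bf t ∈ Set.Icc (0 : ℝ) 1 := by
  obtain ⟨t, h0, h1⟩ := t
  exact ⟨le_min (by simp only; linarith) (le_min (by simp only; linarith) (by simp only; linarith)),
    min_le_of_right_le (min_le_of_right_le (by simp only; linarith))⟩

private theorem af_bf (s : ℝ) : af (bf s) = s := by
  rcases le_total s (1 / 4) with h1 | h1
  · have : bf s = 2 * s := min_eq_left (le_min (by linarith) (by linarith))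
    rw [this, af1 (by linarith)]
    ring
  rcases le_total s (1 / 2) with h2 | h2
  · have : bf s = s + 1 / 4 := by
      rw [bf, min_eq_left (by linarith : s + 1 / 4 ≤ (s + 1) / 2)]
      exact min_eq_right (by linarith)
    rw [this, af2 (by linarith) (by linarith)]
    ring
  · have : bf s = (s + 1) / 2 := by
      rw [bf, min_eq_right (by linarith : (s + 1) / 2 ≤ s + 1 / 4)]
      exact min_eq_right (by linarith)
    rw [this, af3 (by linarith)]
    ring

private noncomputable def aiso : UI ≃o UI :=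
  StrictMono.orderIsoOfRightInverse (fun t : UI => (⟨af t, af_mem t⟩ : UI))
    (fun _ _ h => Subtype.mk_lt_mk.2 (af_mono h)) (fun t : UI => (⟨bf t, bf_mem t⟩ : UI))
    (fun s => Subtype.ext (af_bf s))

private theorem aiso_apply (t : UI) : (aiso t : ℝ) = af t := rfl

private theorem aiso_isT : IsT aiso := by
  classical
  refine ⟨{1 / 2, 3 / 4}, ?_, ?_⟩
  · intro x hx
    simp only [Finset.mem_insert, Finset.mem_singleton] at hx
    rcases hx with rfl | rfl
    · exact ⟨1, 1, by norm_num⟩
    · exact ⟨3, 2, by norm_num⟩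
  · intro a b hab hs
    have hab' : (a : ℝ) < b := hab
    have s1 := hs (1 / 2) (by simp)
    have s2 := hs (3 / 4) (by simp)
    simp only [aiso_apply]
    rcases le_or_gt (b : ℝ) (1 / 2) with h1 | h1
    · refine ⟨-1, fun t h0 h0' => ?_⟩
      have h0 : (a : ℝ) ≤ t := h0
      have h0' : (t : ℝ) ≤ b := h0'
      rw [af1 (by linarith), af1 (by linarith), zpow_neg_one]
      ring
    have a1 : 1 / 2 ≤ (a : ℝ) := s1.resolve_right (not_le.2 h1)
    rcases le_or_gt (b : ℝ) (3 / 4) with h2 | h2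
    · refine ⟨0, fun t h0 h0' => ?_⟩
      have h0 : (a : ℝ) ≤ t := h0
      have h0' : (t : ℝ) ≤ b := h0'
      rw [af2 (by linarith) (by linarith), af2 (by linarith) (by linarith)]
      simp
    have a2 : 3 / 4 ≤ (a : ℝ) := s2.resolve_right (not_le.2 h2)
    refine ⟨1, fun t h0 h0' => ?_⟩
    have h0 : (a : ℝ) ≤ t := h0
    have h0' : (t : ℝ) ≤ b := h0'
    rw [af3 (by linarith), af3 (by linarith), zpow_one]
    ring

/-- `osum f g` and `a0` exist, with their values. Plan: `StrictMono.orderIsoOfSurjective`, or explicit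
order isomorphisms with inverses `osum f⁻¹ g⁻¹`. -/
theorem exists_osum : ∃ (osum : (UI ≃o UI) → (UI ≃o UI) → (UI ≃o UI)) (a : UI ≃o UI),
    (∀ f g, ∀ s t : UI, (t : ℝ) = s / 2 → (osum f g t : ℝ) = f s / 2) ∧
    (∀ f g, ∀ s t : UI, (t : ℝ) = (1 + s) / 2 → (osum f g t : ℝ) = (1 + g s) / 2) ∧
    (∀ t : UI, (t : ℝ) ≤ 1 / 2 → (a t : ℝ) = t / 2) ∧
    (∀ t : UI, 1 / 2 ≤ (t : ℝ) → (t : ℝ) ≤ 3 / 4 → (a t : ℝ) = t - 1 / 4) ∧
    (∀ t : UI, 3 / 4 ≤ (t : ℝ) → (a t : ℝ) = 2 * t - 1) ∧
    IsT a ∧ (∀ f g, IsT f → IsT g → IsT (osum f g)) :=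
  ⟨osm, aiso, osm_left, osm_right, fun _ h => af1 h, fun _ h h' => af2 h h', fun _ h => af3 h,
    aiso_isT, osm_isT⟩

end Pool.Agent.Lib.MP_3e27e0_al.LC
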